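import Pool.Agent.ELB.Stage

/-!
# A stacked fan isolating finitely many rays
-/

namespace Pool.Agent.ELB

open MvPolynomial Pool.Agent.H84Exp

variable {s : ℕ}

theorem isOpen_OC {α : Type*} [DecidableEq α] {φ : α → (Fin 3 → ℝ)} {S : Finset α}
    (hI : Ind φ S) (hc : S.card = 3) : IsOpen (OC φ S) := by
  obtain ⟨co, hco⟩ := exists_coord hI hc
  have h1 : OC φ S = ⋂ v ∈ S, {x | 0 < co v x} := by
    ext x
    rw [mem_OC_iff hI hco]
    simp
  rw [h1]
  refine isOpen_biInter_finset fun v _ => ?_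
  exact isOpen_lt continuous_const (LinearMap.continuous_of_finiteDimensional (co v))

theorem ind_step_gen {α V : Type*} [DecidableEq α] [AddCommGroup V] [Module ℝ V] {φ : α → V}
    {S : Finset α} (h : Ind φ S) {p A : α} (hpS : p ∉ S) {β : α → ℝ}
    (hβp : ∑ v ∈ S, β v • φ v = φ p) (hA : A ∈ S) (hβA : β A ≠ 0) :
    Ind φ (insert p (S.erase A)) := by
  intro c hc
  rw [expand hA hpS hβp] at hc
  have h1 := h _ hc
  have h2 := h1 A hA
  simp only [if_true, add_zero] at h2
  have h3 : c p = 0 := (mul_eq_zero.1 h2).resolve_right hβA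
  intro v hv
  rcases Finset.mem_insert.1 hv with rfl | hv
  · exact h3
  · have h4 := h1 v (Finset.mem_of_mem_erase hv)
    simp only [if_neg (Finset.ne_of_mem_erase hv), h3, zero_mul, zero_add] at h4
    exact h4

theorem Pj.ind_insert {F : Finset (Pt s)} {π : Pt s → (Fin 3 → ℝ)} (h : Pj F π)
    {S : Finset (Pt s)} (hS : Ind π S) {p : Pt s}
    (hp : p ∉ affineSpan ℝ ((F ∪ S : Finset (Pt s)) : Set (Pt s))) : Ind π (insert p S) := by
  have hpS : p ∉ S := fun h => hp (subset_affineSpan ℝ _ (by simp [h]))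
  intro c hc
  have h0 : c p = 0 := by
    by_contra hne
    have h1 := h.mem_span hc (Finset.mem_insert_self p S) hne
    rw [Finset.erase_insert hpS] at h1
    exact hp h1
  rw [Finset.sum_insert hpS, h0, zero_smul, zero_add] at hc
  intro v hv
  rcases Finset.mem_insert.1 hv with rfl | hv
  · exact h0
  · exact hS c hc v hv

/-- general position of the rays in `W` with respect to the planes through two labels -/
def GenP (π : Pt s → (Fin 3 → ℝ)) (W S : Finset (Pt s)) : Prop :=
  ∀ w ∈ W, ∀ x ∈ S, ∀ y ∈ S, ∀ a b : ℝ, π w ≠ a • π x + b • π y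

theorem Pj.gen_insert {F : Finset (Pt s)} {π : Pt s → (Fin 3 → ℝ)} (h : Pj F π)
    {W S : Finset (Pt s)} (hW : ∀ w ∈ W, π w ≠ 0) (hS : GenP π W S) {p : Pt s}
    (hp1 : ∀ w ∈ W, p ∉ affineSpan ℝ ((F ∪ {w} : Finset (Pt s)) : Set (Pt s)))
    (hp2 : ∀ w ∈ W, ∀ x ∈ S, p ∉ affineSpan ℝ ((F ∪ {w, x} : Finset (Pt s)) : Set (Pt s))) :
    GenP π W (insert p S) := by
  have key1 : ∀ w ∈ W, ∀ a : ℝ, π w ≠ a • π p := by
    intro w hw a ha
    have ha0 : a ≠ 0 := by
      rintro rfl
      rw [zero_smul] at ha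
      exact hW w hw ha
    have hpw : p ≠ w := fun h => hp1 w hw (subset_affineSpan ℝ _ (by simp [h]))
    obtain ⟨c, hcp, hcw⟩ : ∃ c : Pt s → ℝ, c p = -a ∧ c w = 1 :=
      ⟨fun x => if x = p then -a else 1, by simp, by simp [Ne.symm hpw]⟩
    have h1 := h.mem_span (S := {p, w}) (c := c) (by
      rw [Finset.sum_pair hpw, hcp, hcw, ha]; module) (u := p) (by simp) (by
        rw [hcp]; exact neg_ne_zero.2 ha0)
    rw [Finset.erase_insert (by simpa using hpw)] at h1
    exact hp1 w hw h1
  have key2 : ∀ w ∈ W, ∀ y ∈ S, ∀ a b : ℝ, π w ≠ a • π p + b • π y := by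
    intro w hw y hy a b hab
    by_cases ha0 : a = 0
    · rw [ha0, zero_smul, zero_add] at hab
      exact hS w hw y hy y hy b 0 (by rw [hab]; simp)
    · have hpw : p ≠ w := fun h => hp1 w hw (subset_affineSpan ℝ _ (by simp [h]))
      have hpy : p ≠ y := fun h => hp2 w hw y hy (subset_affineSpan ℝ _ (by simp [h]))
      have hwy : w ≠ y := by
        rintro rfl
        exact hS w hw w hy w hy 1 0 (by simp)
      obtain ⟨c, hcp, hcw, hcy⟩ : ∃ c : Pt s → ℝ, c p = -a ∧ c w = 1 ∧ c y = -b :=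
        ⟨fun x => if x = p then -a else if x = w then 1 else -b, by simp,
          by simp [Ne.symm hpw], by simp [Ne.symm hpy, Ne.symm hwy]⟩
      have hpn : p ∉ ({w, y} : Finset (Pt s)) := by simp [hpw, hpy]
      have h1 := h.mem_span (S := {p, w, y}) (c := c) (by
        rw [Finset.sum_insert hpn, Finset.sum_pair hwy, hcp, hcw, hcy, hab]; module) (u := p)
        (by simp) (by rw [hcp]; exact neg_ne_zero.2 ha0)
      rw [Finset.erase_insert hpn] at h1
      exact hp2 w hw y hy h1
  intro w hw x hx y hy a b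
  rcases Finset.mem_insert.1 hx with hx' | hx'
  · rcases Finset.mem_insert.1 hy with hy' | hy'
    · rw [hx', hy', ← add_smul]
      exact key1 w hw _
    · rw [hx']
      exact key2 w hw y hy' a b
  · rcases Finset.mem_insert.1 hy with hy' | hy'
    · rw [hy', add_comm]
      exact key2 w hw x hx' b a
    · exact hS w hw x hx' y hy' a b

/-- the four-ray fan -/
theorem base_fan {F : Finset (Pt s)} (hF : F.card + 2 ≤ s) {π : Pt s → (Fin 3 → ℝ)}
    (hπ : Pj F π) (W : Finset (Pt s)) (hW : ∀ w ∈ W, π w ≠ 0) (Bad : Finset (Pt s)) :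
    ∃ M, Ap π M ∧ (∀ S ∈ M, ∀ x ∈ S, x ∉ Bad) ∧ ∀ w ∈ W, ∃ S ∈ M, π w ∈ OC π S := by
  -- choosing a generic point in an open set
  have pick : ∀ (S : Finset (Pt s)), S.card ≤ 3 → ∀ V : Set (Pt s), IsOpen V → V.Nonempty →
      GenP π W S → ∃ p ∈ V, p ∉ Bad ∧ GenP π W (insert p S) ∧
        (S.card ≤ 2 → p ∉ affineSpan ℝ ((F ∪ S : Finset (Pt s)) : Set (Pt s))) := by
    intro S hS V hV hVne hgen
    let 𝒜 : Finset (Finset (Pt s)) :=
      ((W.image fun w => F ∪ {w}) ∪ (W ×ˢ S).image fun q => F ∪ {q.1, q.2}) ∪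
        ((Bad.image fun x => {x}) ∪ if S.card ≤ 2 then {F ∪ S} else ∅)
    obtain ⟨p, hpV, -, hp⟩ := exists_generic hV hVne
      (one_ne_zero (α := MvPolynomial (Fin s) ℝ)) 𝒜 (by
        intro A hA
        simp only [𝒜, Finset.mem_union, Finset.mem_image, Finset.mem_product] at hA
        rcases hA with (⟨w, -, rfl⟩ | ⟨q, -, rfl⟩) | (⟨x, -, rfl⟩ | hA)
        · have h1 := Finset.card_union_le F {w}
          rw [Finset.card_singleton] at h1
          omega
        · have h1 := Finset.card_union_le F {q.1, q.2}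
          have h2 := Finset.card_le_two (a := q.1) (b := q.2)
          omega
        · rw [Finset.card_singleton]; omega
        · split_ifs at hA with h3
          · rw [Finset.mem_singleton.1 hA]
            have h1 := Finset.card_union_le F S
            omega
          · simp at hA)
    refine ⟨p, hpV, ?_, ?_, ?_⟩
    · intro hpB
      refine hp {p} ?_ (subset_affineSpan ℝ _ (by simp))
      simp only [𝒜, Finset.mem_union, Finset.mem_image]
      exact Or.inr (Or.inl ⟨p, hpB, rfl⟩)
    · refine hπ.gen_insert hW hgen ?_ ?_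
      · intro w hw
        refine hp _ ?_
        simp only [𝒜, Finset.mem_union, Finset.mem_image]
        exact Or.inl (Or.inl ⟨w, hw, rfl⟩)
      · intro w hw x hx
        refine hp _ ?_
        simp only [𝒜, Finset.mem_union, Finset.mem_image, Finset.mem_product]
        exact Or.inl (Or.inr ⟨(w, x), ⟨hw, hx⟩, rfl⟩)
    · intro h3
      refine hp _ ?_
      simp only [𝒜, Finset.mem_union, if_pos h3]
      exact Or.inr (Or.inr (Finset.mem_singleton_self _))
  obtain ⟨A, -, hAB, hA1, hA2⟩ := pick ∅ (by simp) Set.univ isOpen_univ ⟨0, trivial⟩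
    (fun w _ x hx => absurd hx (by simp))
  have hIA : Ind π (insert A ∅) := hπ.ind_insert (fun c _ v hv => absurd hv (by simp))
    (hA2 (by simp))
  have hcA : (insert A (∅ : Finset (Pt s))).card = 1 := by simp
  obtain ⟨B, -, hBB, hB1, hB2⟩ := pick (insert A ∅) (by rw [hcA]; omega) Set.univ isOpen_univ
    ⟨0, trivial⟩ hA1
  have hIB := hπ.ind_insert hIA (hB2 (by rw [hcA]; omega))
  have hBn : B ∉ insert A (∅ : Finset (Pt s)) := fun h =>
    hB2 (by rw [hcA]; omega) (subset_affineSpan ℝ _ (by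
      rw [Finset.coe_union]; exact Or.inr h))
  have hcB : (insert B (insert A (∅ : Finset (Pt s)))).card = 2 := by
    rw [Finset.card_insert_of_notMem hBn, hcA]
  obtain ⟨C, -, hCB, hC1, hC2⟩ := pick (insert B (insert A ∅)) (by rw [hcB]; omega) Set.univ
    isOpen_univ ⟨0, trivial⟩ hB1
  have hIC := hπ.ind_insert hIB (hC2 (by rw [hcB]))
  have hCn : C ∉ insert B (insert A (∅ : Finset (Pt s))) := fun h =>
    hC2 (by rw [hcB]) (subset_affineSpan ℝ _ (by
      rw [Finset.coe_union]; exact Or.inr h))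
  set S : Finset (Pt s) := insert C (insert B (insert A ∅)) with hS
  have hcS : S.card = 3 := by rw [hS, Finset.card_insert_of_notMem hCn, hcB]
  have hSBad : ∀ x ∈ S, x ∉ Bad := by
    intro x hx
    simp only [hS, Finset.mem_insert, Finset.notMem_empty, or_false] at hx
    rcases hx with rfl | rfl | rfl
    · exact hCB
    · exact hBB
    · exact hAB
  -- the fourth ray
  have hVo : IsOpen {p : Pt s | -π p ∈ OC π S} :=
    (isOpen_OC hIC hcS).preimage (hπ.continuous.neg)
  have hVne : {p : Pt s | -π p ∈ OC π S}.Nonempty := by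
    obtain ⟨p, hp⟩ := hπ.surj (-∑ v ∈ S, (1 : ℝ) • π v)
    refine ⟨p, ?_⟩
    show -π p ∈ OC π S
    rw [hp, neg_neg]
    exact ⟨fun _ => 1, fun _ _ => one_pos, rfl⟩
  obtain ⟨D, hDV, hDB, hD1, -⟩ := pick S (by rw [hcS]) _ hVo hVne hC1
  obtain ⟨β, hβ, hβD⟩ := hDV
  have hDS : D ∉ S := by
    intro hD
    have h1 := hIC.uniq (c := fun v => -β v) (d := fun v => if v = D then 1 else 0) (by
      simp only [neg_smul, Finset.sum_neg_distrib, hβD, neg_neg]
      simp [Finset.sum_ite_eq', hD]) D hD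
    simp only [if_true] at h1
    have := hβ D hD
    linarith
  have hβD' : ∑ v ∈ S, (-β v) • π v = π D := by
    simp only [neg_smul, Finset.sum_neg_distrib, hβD, neg_neg]
  obtain ⟨δ, hδD, hδS⟩ : ∃ δ : Pt s → ℝ, δ D = 1 ∧ ∀ v, v ≠ D → δ v = β v :=
    ⟨fun v => if v = D then 1 else β v, by simp, fun v hv => by simp [hv]⟩
  have hneD : ∀ v ∈ S, v ≠ D := fun v hv h => hDS (h ▸ hv)
  have hδpos : ∀ v ∈ insert D S, 0 < δ v := by
    intro v hv
    rcases Finset.mem_insert.1 hv with rfl | hv
    · rw [hδD]; exact one_pos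
    · rw [hδS v (hneD v hv)]; exact hβ v hv
  have hδ0 : ∑ v ∈ insert D S, δ v • π v = 0 := by
    rw [Finset.sum_insert hDS, hδD, one_smul,
      Finset.sum_congr rfl (g := fun v => β v • π v) fun v hv => by rw [hδS v (hneD v hv)], hβD]
    exact add_neg_cancel _
  have hI : ∀ v ∈ insert D S, Ind π ((insert D S).erase v) := by
    intro v hv
    rcases Finset.mem_insert.1 hv with rfl | hv
    · rw [Finset.erase_insert hDS]; exact hIC
    · rw [Finset.erase_insert_of_ne (Ne.symm (hneD v hv))]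
      exact ind_step_gen hIC hDS hβD' hv (neg_ne_zero.2 (hβ v hv).ne')
  have hcard : (insert D S).card = 4 := by rw [Finset.card_insert_of_notMem hDS, hcS]
  refine ⟨_, Ap.base (insert D S) δ hcard hδpos hδ0 hI, ?_, ?_⟩
  · intro T hT x hx
    obtain ⟨v, -, rfl⟩ := Finset.mem_image.1 hT
    rcases Finset.mem_insert.1 (Finset.mem_of_mem_erase hx) with rfl | hx
    · exact hDB
    · exact hSBad x hx
  · intro w hw
    obtain ⟨co, hco⟩ := exists_coord hIC hcS
    obtain ⟨c, hcD, hcS'⟩ : ∃ c : Pt s → ℝ, c D = 0 ∧ ∀ v, v ≠ D → c v = co v (π w) :=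
      ⟨fun v => if v = D then 0 else co v (π w), by simp, fun v hv => by simp [hv]⟩
    have hcw : ∑ v ∈ insert D S, c v • π v = π w := by
      rw [Finset.sum_insert hDS, hcD, zero_smul, zero_add,
        Finset.sum_congr rfl (g := fun v => co v (π w) • π v) fun v hv => by
          rw [hcS' v (hneD v hv)], hco]
    obtain ⟨v0, hv0, hmin⟩ := Finset.exists_min_image (insert D S) (fun v => c v / δ v)
      ⟨D, Finset.mem_insert_self _ _⟩
    set t : ℝ := c v0 / δ v0 with ht
    have hpos : ∀ v ∈ insert D S, 0 ≤ c v - t * δ v := by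
      intro v hv
      have h1 := hmin v hv
      rw [le_div_iff₀ (hδpos v hv)] at h1
      linarith
    have hv0' : c v0 - t * δ v0 = 0 := by
      rw [ht, div_mul_cancel₀ _ (hδpos v0 hv0).ne', sub_self]
    have hrep : ∑ v ∈ insert D S, (c v - t * δ v) • π v = π w := by
      simp only [sub_smul, Finset.sum_sub_distrib, mul_smul]
      rw [← Finset.smul_sum, hδ0, smul_zero, sub_zero, hcw]
    have hrep2 : ∑ v ∈ (insert D S).erase v0, (c v - t * δ v) • π v = π w := by
      rw [← hrep, ← Finset.add_sum_erase _ _ hv0, hv0', zero_smul, zero_add]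
    refine ⟨_, Finset.mem_image_of_mem _ hv0, fun v => c v - t * δ v, ?_, hrep2⟩
    intro v hv
    refine lt_of_le_of_ne (hpos v (Finset.mem_of_mem_erase hv)) fun h0 => ?_
    replace h0 : 0 = c v - t * δ v := h0
    have hcard2 : (((insert D S).erase v0).erase v).card = 2 := by
      rw [Finset.card_erase_of_mem hv, Finset.card_erase_of_mem hv0, hcard]
    obtain ⟨x, y, hxy, hxye⟩ := Finset.card_eq_two.1 hcard2
    rw [← Finset.add_sum_erase _ _ hv, ← h0, zero_smul, zero_add, hxye,
      Finset.sum_pair hxy] at hrep2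
    have hx : x ∈ ((insert D S).erase v0).erase v := by rw [hxye]; simp
    have hy : y ∈ ((insert D S).erase v0).erase v := by rw [hxye]; simp
    exact hD1 w hw x (Finset.mem_of_mem_erase (Finset.mem_of_mem_erase hx)) y
      (Finset.mem_of_mem_erase (Finset.mem_of_mem_erase hy)) _ _ hrep2.symm

/-- coordinates of a ray in a cone of the subdivision -/
theorem OC_insert_le {α : Type*} [DecidableEq α] {φ : α → (Fin 3 → ℝ)} {S : Finset α}
    (hI : Ind φ S) {co : α → ((Fin 3 → ℝ) →ₗ[ℝ] ℝ)} (hco : ∀ x, ∑ v ∈ S, co v x • φ v = x)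
    {p A : α} (hpS : p ∉ S) (hA : A ∈ S) (hp : ∀ v ∈ S, 0 < co v (φ p)) {y : Fin 3 → ℝ}
    (hy : y ∈ OC φ (insert p (S.erase A))) {v : α} (hv : v ∈ S) :
    co A y * co v (φ p) ≤ co v y * co A (φ p) := by
  obtain ⟨c, hc, hcy⟩ := hy
  rw [expand hA hpS (hco (φ p))] at hcy
  have h1 := coord_uniq hI hco hcy
  rw [h1 A hA, h1 v hv, if_pos rfl, add_zero]
  by_cases hvA : v = A
  · rw [if_pos hvA, hvA, add_zero]
  · rw [if_neg hvA]
    have h2 := hc v (Finset.mem_insert_of_mem (Finset.mem_erase.2 ⟨hvA, hv⟩))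
    have h3 := hp A hA
    nlinarith [mul_pos h2 h3]

theorem iso {F : Finset (Pt s)} (hF : F.card + 2 ≤ s) {π : Pt s → (Fin 3 → ℝ)}
    (hπ : Pj F π) (W : Finset (Pt s)) (hW : ∀ w ∈ W, π w ≠ 0)
    (hWp : ∀ w ∈ W, ∀ w' ∈ W, w ≠ w' → ∀ c : ℝ, 0 < c → π w' ≠ c • π w) (Bad : Finset (Pt s)) :
    ∃ M, Ap π M ∧ (∀ S ∈ M, ∀ x ∈ S, x ∉ Bad) ∧ ∃ f : Pt s → Finset (Pt s),
      Set.InjOn f (W : Set (Pt s)) ∧ ∀ w ∈ W, f w ∈ M ∧ π w ∈ OC π (f w) := by
  classical
  have key : ∀ n : ℕ, ∀ (M : Finset (Finset (Pt s))) (f : Pt s → Finset (Pt s)), Ap π M →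
      (∀ S ∈ M, ∀ x ∈ S, x ∉ Bad) → (∀ w ∈ W, f w ∈ M ∧ π w ∈ OC π (f w)) →
      ((W ×ˢ W).filter (fun q => q.1 ≠ q.2 ∧ f q.1 = f q.2)).card ≤ n →
      ∃ M, Ap π M ∧ (∀ S ∈ M, ∀ x ∈ S, x ∉ Bad) ∧ ∃ f : Pt s → Finset (Pt s),
      Set.InjOn f (W : Set (Pt s)) ∧ ∀ w ∈ W, f w ∈ M ∧ π w ∈ OC π (f w) := by
    intro n
    induction n with
    | zero =>
      intro M f hM hMB hf hn
      refine ⟨M, hM, hMB, f, ?_, hf⟩
      intro w hw w' hw' hww
      by_contra hne
      have h1 : (w, w') ∈ (W ×ˢ W).filter (fun q => q.1 ≠ q.2 ∧ f q.1 = f q.2) := by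
        rw [Finset.mem_filter, Finset.mem_product]
        exact ⟨⟨hw, hw'⟩, hne, hww⟩
      rw [Finset.card_eq_zero.1 (Nat.le_zero.1 hn)] at h1
      simp at h1
    | succ n ih =>
      intro M f hM hMB hf hn
      by_cases hemp : (W ×ˢ W).filter (fun q => q.1 ≠ q.2 ∧ f q.1 = f q.2) = ∅
      · exact ih M f hM hMB hf (by rw [hemp]; simp)
      obtain ⟨⟨w1, w2⟩, hq⟩ := Finset.nonempty_iff_ne_empty.2 hemp
      rw [Finset.mem_filter, Finset.mem_product] at hq
      obtain ⟨⟨hw1, hw2⟩, h12, hf12⟩ := hq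
      simp only at hw1 hw2 h12 hf12
      set σ := f w1 with hσ
      have hσM : σ ∈ M := (hf w1 hw1).1
      have hIσ := hM.ind hσM
      have hcσ := hM.card hσM
      obtain ⟨co, hco⟩ := exists_coord hIσ hcσ
      have hx := (mem_OC_iff hIσ hco).1 (hf w1 hw1).2
      have hy := (mem_OC_iff hIσ hco).1 (hf12 ▸ (hf w2 hw2).2 : π w2 ∈ OC π σ)
      obtain ⟨p0, hp0⟩ := hπ.surj (π w1 + π w2)
      have hcont : ∀ v, Continuous fun p => co v (π p) := fun v =>
        (LinearMap.continuous_of_finiteDimensional (co v)).comp hπ.continuous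
      -- the separating neighbourhood
      let V : Set (Pt s) := ⋂ A ∈ σ, ((⋃ v ∈ σ, {p | co v (π w1) * co A (π p) <
          co A (π w1) * co v (π p)}) ∪ (⋃ v ∈ σ, {p | co v (π w2) * co A (π p) <
          co A (π w2) * co v (π p)}))
      have hVo : IsOpen V := by
        refine isOpen_biInter_finset fun A _ => ?_
        refine IsOpen.union ?_ ?_
        · exact isOpen_biUnion fun v _ => isOpen_lt (continuous_const.mul (hcont A))
            (continuous_const.mul (hcont v))
        · exact isOpen_biUnion fun v _ => isOpen_lt (continuous_const.mul (hcont A))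
            (continuous_const.mul (hcont v))
      have hp0V : p0 ∈ V := by
        simp only [V, Set.mem_iInter, Set.mem_union, Set.mem_iUnion, Set.mem_ofPred_eq,
          exists_prop]
        intro A hA
        by_contra hcon
        push Not at hcon
        obtain ⟨hcon1, hcon2⟩ := hcon
        rw [hp0] at hcon1 hcon2
        have hxA := hx A hA
        have hyA := hy A hA
        obtain ⟨κ, hκ⟩ : ∃ κ : ℝ, κ * co A (π w1) = co A (π w2) :=
          ⟨co A (π w2) / co A (π w1), by field_simp⟩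
        have hκ0 : 0 < κ := by
          rw [← hκ] at hyA
          exact (pos_iff_pos_of_mul_pos hyA).2 hxA
        refine hWp w1 hw1 w2 hw2 h12 κ hκ0 ?_
        calc π w2 = ∑ v ∈ σ, co v (π w2) • π v := (hco (π w2)).symm
          _ = ∑ v ∈ σ, κ • (co v (π w1) • π v) := by
            refine Finset.sum_congr rfl fun v hv => ?_
            rw [smul_smul]
            congr 1
            have e1 := hcon1 v hv
            have e2 := hcon2 v hv
            simp only [map_add] at e1 e2
            have e3 : co v (π w2) * co A (π w1) = (κ * co v (π w1)) * co A (π w1) := by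
              rw [← hκ] at e1 e2
              nlinarith
            exact mul_right_cancel₀ hxA.ne' e3
          _ = κ • π w1 := by rw [← Finset.smul_sum, hco]
      obtain ⟨p, hpV, hpB, hp⟩ := stage (I := W.filter fun w => f w = σ) (fun _ => F)
        (fun _ => π) (fun _ => σ) ∅ (fun _ _ => hπ) (fun _ _ => hF) (fun _ _ => hIσ)
        (fun _ _ => hcσ) (fun w hw => by
          obtain ⟨hwW, hwσ⟩ := Finset.mem_filter.1 hw
          rw [← hwσ]; exact (hf w hwW).2) (p0 := p0) (fun w hw => by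
          refine (mem_OC_iff hIσ hco).2 fun v hv => ?_
          rw [hp0, map_add]
          exact add_pos (hx v hv) (hy v hv)) (by omega) (fun w _ e he => absurd he (by simp))
        hVo hp0V Bad
      have hpOC : π p ∈ OC π σ := (hp w1 (Finset.mem_filter.2 ⟨hw1, rfl⟩)).1
      have hpco := (mem_OC_iff hIσ hco).1 hpOC
      have hpM := hM.vertex hσM hpOC
      have hpσ := hpM σ hσM
      have hex : ∀ w, ∃ A : Pt s, w ∈ W → f w = σ → A ∈ σ ∧
          π w ∈ OC π (insert p (σ.erase A)) := by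
        intro w
        by_cases hw : w ∈ W ∧ f w = σ
        · obtain ⟨-, A, hA, -, h⟩ := hp w (Finset.mem_filter.2 hw)
          exact ⟨A, fun _ _ => ⟨hA, h⟩⟩
        · exact ⟨0, fun h1 h2 => absurd ⟨h1, h2⟩ hw⟩
      choose A hA using hex
      let f' : Pt s → Finset (Pt s) := fun w =>
        if f w = σ then insert p (σ.erase (A w)) else f w
      have hf'1 : ∀ w, f w = σ → f' w = insert p (σ.erase (A w)) := fun w h => by
        simp only [f', if_pos h]
      have hf'2 : ∀ w, f w ≠ σ → f' w = f w := fun w h => by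
        simp only [f', if_neg h]
      refine ih _ f' (Ap.step M σ p hM hσM hpOC) ?_ ?_ ?_
      · intro S hS x hx
        rcases Finset.mem_union.1 hS with hS | hS
        · exact hMB S (Finset.mem_of_mem_erase hS) x hx
        · obtain ⟨A, -, rfl⟩ := Finset.mem_image.1 hS
          rcases Finset.mem_insert.1 hx with rfl | hx
          · exact hpB
          · exact hMB σ hσM x (Finset.mem_of_mem_erase hx)
      · intro w hw
        by_cases hwσ : f w = σ
        · rw [hf'1 w hwσ]
          obtain ⟨hAw, hwOC⟩ := hA w hw hwσ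
          exact ⟨Finset.mem_union_right _ (Finset.mem_image_of_mem _ hAw), hwOC⟩
        · rw [hf'2 w hwσ]
          exact ⟨Finset.mem_union_left _ (Finset.mem_erase.2 ⟨hwσ, (hf w hw).1⟩), (hf w hw).2⟩
      · have hlt : ((W ×ˢ W).filter (fun q => q.1 ≠ q.2 ∧ f' q.1 = f' q.2)).card <
            ((W ×ˢ W).filter (fun q => q.1 ≠ q.2 ∧ f q.1 = f q.2)).card := by
          refine Finset.card_lt_card ?_
          refine Finset.ssubset_iff_subset_ne.2 ⟨?_, ?_⟩
          · intro q hq
            rw [Finset.mem_filter] at hq ⊢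
            obtain ⟨hqW, hqne, hqf⟩ := hq
            refine ⟨hqW, hqne, ?_⟩
            obtain ⟨hq1, hq2⟩ := Finset.mem_product.1 hqW
            by_cases h1 : f q.1 = σ
            · by_cases h2 : f q.2 = σ
              · rw [h1, h2]
              · exfalso
                rw [hf'1 _ h1, hf'2 _ h2] at hqf
                exact hpM _ (hf _ hq2).1 (hqf ▸ Finset.mem_insert_self _ _)
            · by_cases h2 : f q.2 = σ
              · exfalso
                rw [hf'1 _ h2, hf'2 _ h1] at hqf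
                exact hpM _ (hf _ hq1).1 (hqf ▸ Finset.mem_insert_self _ _)
              · rwa [hf'2 _ h1, hf'2 _ h2] at hqf
          · intro heq
            have hmem : (w1, w2) ∈ (W ×ˢ W).filter (fun q => q.1 ≠ q.2 ∧ f' q.1 = f' q.2) := by
              rw [heq, Finset.mem_filter, Finset.mem_product]
              exact ⟨⟨hw1, hw2⟩, h12, hf12⟩
            rw [Finset.mem_filter] at hmem
            have hff := hmem.2.2
            simp only at hff
            rw [hf'1 w1 rfl, hf'1 w2 hf12.symm] at hff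
            obtain ⟨hA1, hO1⟩ := hA w1 hw1 rfl
            obtain ⟨hA2, hO2⟩ := hA w2 hw2 hf12.symm
            rw [← hff] at hO2
            have hVp := hpV
            simp only [V, Set.mem_iInter, Set.mem_union, Set.mem_iUnion, Set.mem_ofPred_eq,
              exists_prop] at hVp
            rcases hVp (A w1) hA1 with ⟨v, hv, hlt⟩ | ⟨v, hv, hlt⟩
            · have := OC_insert_le hIσ hco hpσ hA1 hpco hO1 hv
              linarith
            · have := OC_insert_le hIσ hco hpσ hA1 hpco hO2 hv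
              linarith
        omega
  obtain ⟨M, hM, hMB, hloc⟩ := base_fan hF hπ W hW Bad
  choose! f hf using hloc
  exact key _ M f hM hMB hf le_rfl

end Pool.Agent.ELB
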