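import Pool.Agent.ELB.Far
import Pool.Agent.ELB.Iso

/-!
# Inserting the far labels
-/

namespace Pool.Agent.ELB

open MvPolynomial Pool.Agent.H84Exp

variable {s : ℕ}

/-- the three cones around the ray `w` -/
noncomputable def Tri (w a b c : Pt s) : Finset (Finset (Pt s)) :=
  {{w, a, b}, {w, b, c}, {w, c, a}}

theorem mem_Tri {w a b c : Pt s} {T : Finset (Pt s)} :
    T ∈ Tri w a b c ↔ T = {w, a, b} ∨ T = {w, b, c} ∨ T = {w, c, a} := by
  rw [Tri, Finset.mem_insert, Finset.mem_insert, Finset.mem_singleton]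

theorem mem_step {α : Type*} [DecidableEq α] {M : Finset (Finset α)} {S X : Finset α} {p : α} :
    X ∈ (M.erase S) ∪ S.image (fun A => insert p (S.erase A)) ↔
      (X ≠ S ∧ X ∈ M) ∨ ∃ A ∈ S, insert p (S.erase A) = X := by
  rw [Finset.mem_union, Finset.mem_erase, Finset.mem_image]

theorem erase3 {A B C : Pt s} (h1 : A ≠ B) (h2 : A ≠ C) : ({A, B, C} : Finset (Pt s)).erase A =
    {B, C} := by
  rw [Finset.erase_insert]
  simp [h1, h2]

/-- insertion of `x` into `{A, B, C}`, `y` into `{x, B, C}`, `z` into `{y, x, C}` and `w` into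
`{z, y, x}` -/
theorem asm_one {π : Pt s → (Fin 3 → ℝ)} {M : Finset (Finset (Pt s))} (hM : Ap π M)
    {A B C x y z w : Pt s} (hσM : ({A, B, C} : Finset (Pt s)) ∈ M) (hAB : A ≠ B) (hAC : A ≠ C)
    (hBC : B ≠ C) (ha : π x ∈ OC π {A, B, C}) (hb : π y ∈ OC π {x, B, C})
    (hc : π z ∈ OC π {y, x, C}) (hw : π w ∈ OC π {z, y, x}) :
    ∃ M4, Ap π M4 ∧ (∀ X ∈ M, X ≠ {A, B, C} → X ∈ M4 ∧ x ∉ X ∧ y ∉ X ∧ z ∉ X) ∧
      (∀ T ∈ Tri w x y z, T ∈ M4) ∧ (∀ S ∈ M4, w ∈ S → S ∈ Tri w x y z) ∧
      ∀ S ∈ M4, S ∈ M ∨ S ⊆ {x, A, B, C} ∨ S ⊆ {y, x, B, C} ∨ S ⊆ {z, x, C} ∨ S ⊆ {z, y, C} ∨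
        S ∈ Tri w x y z := by
  have v1 := hM.vertex hσM ha
  have A1 := Ap.step M _ x hM hσM ha
  obtain ⟨M1, hM1⟩ : ∃ M1, M1 = (M.erase {A, B, C}) ∪ ({A, B, C} : Finset (Pt s)).image
    (fun u => insert x (({A, B, C} : Finset (Pt s)).erase u)) := ⟨_, rfl⟩
  rw [← hM1] at A1
  have hT : ({x, B, C} : Finset (Pt s)) ∈ M1 := by
    rw [hM1, mem_step]
    exact Or.inr ⟨A, by simp, by rw [erase3 hAB hAC]⟩
  have hxB : x ≠ B := fun h => v1 _ hσM (by simp [h])
  have hxC : x ≠ C := fun h => v1 _ hσM (by simp [h])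
  have v2 := A1.vertex hT hb
  have A2 := Ap.step M1 _ y A1 hT hb
  obtain ⟨M2, hM2⟩ : ∃ M2, M2 = (M1.erase {x, B, C}) ∪ ({x, B, C} : Finset (Pt s)).image
    (fun u => insert y (({x, B, C} : Finset (Pt s)).erase u)) := ⟨_, rfl⟩
  rw [← hM2] at A2
  have hU : ({y, x, C} : Finset (Pt s)) ∈ M2 := by
    rw [hM2, mem_step]
    refine Or.inr ⟨B, by simp, ?_⟩
    rw [Finset.insert_comm x B, erase3 (Ne.symm hxB) hBC]
  have hyx : y ≠ x := fun h => v2 _ hT (by simp [h])
  have hyC : y ≠ C := fun h => v2 _ hT (by simp [h])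
  have v3 := A2.vertex hU hc
  have A3 := Ap.step M2 _ z A2 hU hc
  obtain ⟨M3, hM3⟩ : ∃ M3, M3 = (M2.erase {y, x, C}) ∪ ({y, x, C} : Finset (Pt s)).image
    (fun u => insert z (({y, x, C} : Finset (Pt s)).erase u)) := ⟨_, rfl⟩
  rw [← hM3] at A3
  have hyxC : ({y, x, C} : Finset (Pt s)).erase C = {y, x} := by
    ext u
    simp only [Finset.mem_erase, Finset.mem_insert, Finset.mem_singleton]
    constructor
    · rintro ⟨h1, h | h | h⟩
      · exact Or.inl h
      · exact Or.inr h
      · exact absurd h h1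
    · rintro (h | h)
      · exact ⟨h ▸ hyC, Or.inl h⟩
      · exact ⟨h ▸ hxC, Or.inr (Or.inl h)⟩
  have hR : ({z, y, x} : Finset (Pt s)) ∈ M3 := by
    rw [hM3, mem_step]
    exact Or.inr ⟨C, by simp, by rw [hyxC]⟩
  have hzy : z ≠ y := fun h => v3 _ hU (by simp [h])
  have hzx : z ≠ x := fun h => v3 _ hU (by simp [h])
  have v4 := A3.vertex hR hw
  have A4 := Ap.step M3 _ w A3 hR hw
  obtain ⟨M4, hM4⟩ : ∃ M4, M4 = (M3.erase {z, y, x}) ∪ ({z, y, x} : Finset (Pt s)).image
    (fun u => insert w (({z, y, x} : Finset (Pt s)).erase u)) := ⟨_, rfl⟩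
  rw [← hM4] at A4
  have ez : insert w (({z, y, x} : Finset (Pt s)).erase z) = {w, x, y} := by
    rw [erase3 hzy hzx, Finset.pair_comm]
  have ey : insert w (({z, y, x} : Finset (Pt s)).erase y) = {w, z, x} := by
    rw [Finset.insert_comm z y, erase3 (Ne.symm hzy) hyx]
  have ex : insert w (({z, y, x} : Finset (Pt s)).erase x) = {w, y, z} := by
    rw [Finset.pair_comm y x, Finset.insert_comm z x, erase3 (Ne.symm hzx) (Ne.symm hyx),
      Finset.pair_comm]
  have hTri : ∀ u ∈ ({z, y, x} : Finset (Pt s)),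
      insert w (({z, y, x} : Finset (Pt s)).erase u) ∈ Tri w x y z := by
    intro u hu
    simp only [Finset.mem_insert, Finset.mem_singleton] at hu
    rcases hu with h | h | h
    · rw [h, ez]; exact mem_Tri.2 (Or.inl rfl)
    · rw [h, ey]; exact mem_Tri.2 (Or.inr (Or.inr rfl))
    · rw [h, ex]; exact mem_Tri.2 (Or.inr (Or.inl rfl))
  refine ⟨M4, A4, ?_, ?_, ?_, ?_⟩
  · intro X hX hne
    have k1 := v1 X hX
    have hX1 : X ∈ M1 := by rw [hM1, mem_step]; exact Or.inl ⟨hne, hX⟩
    have k2 := v2 X hX1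
    have hX2 : X ∈ M2 := by
      rw [hM2, mem_step]
      exact Or.inl ⟨fun h => k1 (by simp [h]), hX1⟩
    have k3 := v3 X hX2
    have hX3 : X ∈ M3 := by
      rw [hM3, mem_step]
      exact Or.inl ⟨fun h => k2 (by simp [h]), hX2⟩
    refine ⟨?_, k1, k2, k3⟩
    rw [hM4, mem_step]
    exact Or.inl ⟨fun h => k3 (by simp [h]), hX3⟩
  · intro T hT'
    rw [hM4, mem_step]
    right
    rcases mem_Tri.1 hT' with h | h | h
    · exact ⟨z, by simp, by rw [h, ez]⟩
    · exact ⟨x, by simp, by rw [h, ex]⟩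
    · exact ⟨y, by simp, by rw [h, ey]⟩
  · intro S hS hwS
    rw [hM4, mem_step] at hS
    rcases hS with ⟨-, hS⟩ | ⟨u, hu, h⟩
    · exact absurd hwS (v4 S hS)
    · rw [← h]; exact hTri u hu
  · intro S hS
    rw [hM4, mem_step] at hS
    rcases hS with ⟨hSR, hS⟩ | ⟨u, hu, h⟩
    · rw [hM3, mem_step] at hS
      rcases hS with ⟨-, hS⟩ | ⟨u, hu, h⟩
      · rw [hM2, mem_step] at hS
        rcases hS with ⟨-, hS⟩ | ⟨u, hu, h⟩
        · rw [hM1, mem_step] at hS
          rcases hS with ⟨-, hS⟩ | ⟨u, hu, h⟩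
          · exact Or.inl hS
          · refine Or.inr (Or.inl ?_)
            rw [← h]
            exact Finset.insert_subset_insert _ (Finset.erase_subset _ _)
        · refine Or.inr (Or.inr (Or.inl ?_))
          rw [← h]
          exact Finset.insert_subset_insert _ (Finset.erase_subset _ _)
      · simp only [Finset.mem_insert, Finset.mem_singleton] at hu
        rcases hu with hu | hu | hu
        · refine Or.inr (Or.inr (Or.inr (Or.inl ?_)))
          rw [← h, hu, erase3 hyx hyC]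
        · refine Or.inr (Or.inr (Or.inr (Or.inr (Or.inl ?_))))
          rw [← h, hu, Finset.insert_comm y x, erase3 (Ne.symm hyx) hxC]
        · exact absurd (by rw [← h, hu, hyxC]) hSR
    · refine Or.inr (Or.inr (Or.inr (Or.inr (Or.inr ?_))))
      rw [← h]; exact hTri u hu

theorem asm {π : Pt s → (Fin 3 → ℝ)} {M0 : Finset (Finset (Pt s))} (hM0 : Ap π M0)
    (W : Finset (Pt s)) (f : Pt s → Finset (Pt s)) (a b c : Pt s → Pt s)
    (hinj : Set.InjOn f (W : Set (Pt s))) (hf : ∀ w ∈ W, f w ∈ M0)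
    (hseq : ∀ w ∈ W, SeqOK π (f w) w (a w) (b w) (c w)) (Far : Finset (Pt s))
    (hFar : ∀ S ∈ M0, ∀ x ∈ S, x ∉ Far) (hW : ∀ w ∈ W, w ∈ Far) :
    ∃ M, Ap π M ∧
      (∀ S ∈ M, S ∩ Far = ∅ ∨ ∃ w ∈ W, ∃ T ∈ Tri w (a w) (b w) (c w), S ∩ Far ⊆ T) ∧
      (∀ w ∈ W, ∀ T ∈ Tri w (a w) (b w) (c w), T ∈ M) ∧
      ∀ w ∈ W, ∀ S ∈ M, w ∈ S → S ∈ Tri w (a w) (b w) (c w) := by
  have key : ∀ W' : Finset (Pt s), W' ⊆ W → ∃ M, Ap π M ∧
      (∀ S ∈ M, S ∩ Far = ∅ ∨ ∃ w ∈ W', ∃ T ∈ Tri w (a w) (b w) (c w), S ∩ Far ⊆ T) ∧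
      (∀ w ∈ W', ∀ T ∈ Tri w (a w) (b w) (c w), T ∈ M) ∧
      (∀ w ∈ W', ∀ S ∈ M, w ∈ S → S ∈ Tri w (a w) (b w) (c w)) ∧
      ∀ w ∈ W, w ∉ W' → f w ∈ M := by
    intro W'
    induction W' using Finset.induction_on with
    | empty =>
      intro _
      refine ⟨M0, hM0, fun S hS => Or.inl ?_, by simp, by simp, fun w hw _ => hf w hw⟩
      rw [← Finset.disjoint_iff_inter_eq_empty, Finset.disjoint_left]
      exact hFar S hS
    | insert w W' hwW' ih =>
      intro hsub
      obtain ⟨M, hM, P1, P2, P3, P4⟩ := ih ((Finset.subset_insert _ _).trans hsub)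
      have hwW : w ∈ W := hsub (Finset.mem_insert_self _ _)
      have hσM : f w ∈ M := P4 w hwW hwW'
      obtain ⟨A, B, C, hσ, hAB, hAC, hBC, ha, hb, hc, hw⟩ := hseq w hwW
      have hnF : ∀ u ∈ ({A, B, C} : Finset (Pt s)), u ∉ Far := by
        rw [← hσ]; exact hFar _ (hf w hwW)
      have hAF : A ∉ Far := hnF A (by simp)
      have hBF : B ∉ Far := hnF B (by simp)
      have hCF : C ∉ Far := hnF C (by simp)
      rw [hσ] at hσM
      obtain ⟨M4, A4, keep, Q2, Q3, Q1⟩ := asm_one hM hσM hAB hAC hBC ha hb hc hw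
      refine ⟨M4, A4, ?_, ?_, ?_, ?_⟩
      · intro S hS
        rcases Q1 S hS with h | h | h | h | h | h
        · rcases P1 S h with h | ⟨w', hw', T, hT', hsubT⟩
          · exact Or.inl h
          · exact Or.inr ⟨w', Finset.mem_insert_of_mem hw', T, hT', hsubT⟩
        · refine Or.inr ⟨w, Finset.mem_insert_self _ _, {w, a w, b w},
            mem_Tri.2 (Or.inl rfl), ?_⟩
          intro v hv
          obtain ⟨hv1, hv2⟩ := Finset.mem_inter.1 hv
          have hv3 := h hv1
          simp only [Finset.mem_insert, Finset.mem_singleton] at hv3 ⊢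
          rcases hv3 with h | h | h | h
          · exact Or.inr (Or.inl h)
          · exact absurd (h ▸ hv2) hAF
          · exact absurd (h ▸ hv2) hBF
          · exact absurd (h ▸ hv2) hCF
        · refine Or.inr ⟨w, Finset.mem_insert_self _ _, {w, a w, b w},
            mem_Tri.2 (Or.inl rfl), ?_⟩
          intro v hv
          obtain ⟨hv1, hv2⟩ := Finset.mem_inter.1 hv
          have hv3 := h hv1
          simp only [Finset.mem_insert, Finset.mem_singleton] at hv3 ⊢
          rcases hv3 with h | h | h | h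
          · exact Or.inr (Or.inr h)
          · exact Or.inr (Or.inl h)
          · exact absurd (h ▸ hv2) hBF
          · exact absurd (h ▸ hv2) hCF
        · refine Or.inr ⟨w, Finset.mem_insert_self _ _, {w, c w, a w},
            mem_Tri.2 (Or.inr (Or.inr rfl)), ?_⟩
          intro v hv
          obtain ⟨hv1, hv2⟩ := Finset.mem_inter.1 hv
          have hv3 := h hv1
          simp only [Finset.mem_insert, Finset.mem_singleton] at hv3 ⊢
          rcases hv3 with h | h | h
          · exact Or.inr (Or.inl h)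
          · exact Or.inr (Or.inr h)
          · exact absurd (h ▸ hv2) hCF
        · refine Or.inr ⟨w, Finset.mem_insert_self _ _, {w, b w, c w},
            mem_Tri.2 (Or.inr (Or.inl rfl)), ?_⟩
          intro v hv
          obtain ⟨hv1, hv2⟩ := Finset.mem_inter.1 hv
          have hv3 := h hv1
          simp only [Finset.mem_insert, Finset.mem_singleton] at hv3 ⊢
          rcases hv3 with h | h | h
          · exact Or.inr (Or.inr h)
          · exact Or.inr (Or.inl h)
          · exact absurd (h ▸ hv2) hCF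
        · exact Or.inr ⟨w, Finset.mem_insert_self _ _, S, h, Finset.inter_subset_left⟩
      · intro w' hw' T hT'
        rcases Finset.mem_insert.1 hw' with hww | hw'
        · rw [hww] at hT'
          exact Q2 T hT'
        · have hTM := P2 w' hw' T hT'
          refine (keep T hTM fun h => ?_).1
          have hw'T : w' ∈ T := by
            rcases mem_Tri.1 hT' with h | h | h <;> rw [h] <;> simp
          rw [h] at hw'T
          exact hnF w' hw'T (hW w' ((Finset.subset_insert _ _).trans hsub hw'))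
      · intro w' hw' S hS hwS
        rcases Finset.mem_insert.1 hw' with hww | hw'
        · rw [hww] at hwS ⊢
          exact Q3 S hS hwS
        · have hw'F : w' ∈ Far := hW w' ((Finset.subset_insert _ _).trans hsub hw')
          -- `w'` is a label of `M`
          have hT'M := P2 w' hw' {w', a w', b w'} (mem_Tri.2 (Or.inl rfl))
          have hne : ({w', a w', b w'} : Finset (Pt s)) ≠ {A, B, C} := by
            intro h
            exact hnF w' (by rw [← h]; simp) hw'F
          obtain ⟨-, n1, n2, n3⟩ := keep _ hT'M hne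
          have w1 : w' ≠ a w := fun h => n1 (by rw [← h]; simp)
          have w2 : w' ≠ b w := fun h => n2 (by rw [← h]; simp)
          have w3 : w' ≠ c w := fun h => n3 (by rw [← h]; simp)
          have w4 : w' ≠ w := fun h => hwW' (h ▸ hw')
          have w5 : w' ≠ A := fun h => hAF (h ▸ hw'F)
          have w6 : w' ≠ B := fun h => hBF (h ▸ hw'F)
          have w7 : w' ≠ C := fun h => hCF (h ▸ hw'F)
          rcases Q1 S hS with h | h | h | h | h | h
          · exact P3 w' hw' S h hwS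
          · have := h hwS
            simp [w1, w5, w6, w7] at this
          · have := h hwS
            simp [w1, w2, w6, w7] at this
          · have := h hwS
            simp [w1, w3, w7] at this
          · have := h hwS
            simp [w2, w3, w7] at this
          · exfalso
            rcases mem_Tri.1 h with h | h | h <;> rw [h] at hwS <;> simp [w1, w2, w3, w4] at hwS
      · intro w' hw'W hw'
        have h1 : w' ∉ W' := fun h => hw' (Finset.mem_insert_of_mem h)
        have h2 : w' ≠ w := fun h => hw' (h ▸ Finset.mem_insert_self _ _)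
        refine (keep _ (P4 w' hw'W h1) ?_).1
        rw [← hσ]
        exact fun h => h2 (hinj hw'W hwW h)
  obtain ⟨M, hM, P1, P2, P3, -⟩ := key W subset_rfl
  exact ⟨M, hM, P1, P2, P3⟩

end Pool.Agent.ELB
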