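import Pool.Agent.ELB.RecR
import Pool.Agent.H84Exp.Smooth

/-! # Long chains destroy local bases -/

namespace Pool.Agent.ELB

open MvPolynomial Pool.Agent.H84Exp Pool.Agent.H84Spl

variable {s : ℕ}

/-- A long chain of blocks `B 1, ..., B n` of vertices (`B 0 = B (n+1) = ∅`). -/
structure LC {s : ℕ} (T : Triang s) (r ρ0 t M n : ℕ) (B : ℕ → Finset (Pt s)) : Prop where
  zero : B 0 = ∅
  last : B (n + 1) = ∅
  det : ∀ i, 1 ≤ i → i ≤ n → Det (2 ^ t * ρ0) (B i) Set.univ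
  cc : ∀ i, 1 ≤ i → i ≤ n → ∀ v ∈ B i, CD (BT T r ρ0) ρ0 t {v} (B (i - 1) ∪ B (i + 1))
  loc : ∀ v0, T.IsVertex v0 → ∃ i, 1 ≤ i ∧ i ≤ n ∧ ∀ v ∈ B i, ∀ σ ∈ T.cells, v ∈ σ →
    Disjoint (convexHull ℝ (σ : Set (Pt s))) (T.star v0 M)

/-- locally supported splines vanish at all block vertices -/
theorem vanish_of_local {T : Triang s} {r ρ0 t M n : ℕ} {B : ℕ → Finset (Pt s)}
    (h : LC T r ρ0 t M n B) {f : Pt s → ℝ}
    (hf : f ∈ T.splineSpace r (2 ^ (t + 1) * ρ0)) (hloc : T.LocallySupported M f)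
    {i : ℕ} (h1 : 1 ≤ i) (hi : i ≤ n) {v : Pt s} (hv : v ∈ B i) : f v = 0 := by
  obtain ⟨P, hP⟩ := exists_fam T hf
  have hk : 2 ^ (t + 1) * ρ0 = 2 ^ t * ρ0 + 2 ^ t * ρ0 := by ring
  set ρ : ℕ := 2 ^ t * ρ0 with hρdef
  set k : ℕ := 2 ^ (t + 1) * ρ0 with hkdef
  -- the polynomials `q`
  have hex : ∀ (i : ℕ) (v : Pt s), ∃ G : MvPolynomial (Fin s) ℝ, 1 ≤ i → i ≤ n → v ∈ B i →
      (G.totalDegree ≤ ρ ∧ ∀ w, (w = v ∨ w ∈ B (i - 1) ∨ w ∈ B (i + 1)) → ∀ σ ∈ T.cells, v ∈ σ →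
        w ∈ σ → eval w (Bc k (List.replicate ρ v) (P σ)) = eval w G) := by
    intro i v
    by_cases hc : 1 ≤ i ∧ i ≤ n ∧ v ∈ B i
    · obtain ⟨a1, a2, a3⟩ := hc
      have hcc := h.cc i a1 a2 v a3
      obtain ⟨G, hG, hG'⟩ := rgP_all hP t {v} _ hcc (List.replicate ρ v)
        (by intro u hu; rw [List.eq_of_mem_replicate hu]; simp)
        (by rw [List.length_replicate]; omega)
      refine ⟨G, fun _ _ _ => ⟨hG, fun w hw σ hσ hvσ hwσ => ?_⟩⟩
      refine hG' w ?_ σ hσ (Finset.singleton_subset_iff.2 hvσ) hwσ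
      simp only [Finset.mem_singleton, Finset.mem_union]
      tauto
    · refine ⟨0, fun a1 a2 a3 => absurd ⟨a1, a2, a3⟩ hc⟩
  choose q hq using hex
  -- a common cell
  have hcell : ∀ i, 1 ≤ i → i ≤ n → ∀ v ∈ B i, ∀ w, (w = v ∨ w ∈ B (i - 1) ∨ w ∈ B (i + 1)) →
      ∃ σ ∈ T.cells, v ∈ σ ∧ w ∈ σ := by
    intro i a1 a2 v a3 w hw
    have hcc := h.cc i a1 a2 v a3
    obtain ⟨⟨x0, hx0⟩, hfc⟩ := face_of_CD t _ _ hcc
    rcases hw with rfl | hw
    · obtain ⟨σ, hσ, hsub⟩ := hfc x0 hx0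
      exact ⟨σ, hσ, hsub (by simp), hsub (by simp)⟩
    · obtain ⟨σ, hσ, hsub⟩ := hfc w (Finset.mem_union.2 hw)
      exact ⟨σ, hσ, hsub (by simp), hsub (by simp)⟩
  -- values
  have hval : ∀ i, 1 ≤ i → i ≤ n → ∀ v ∈ B i, eval v (q i v) = f v := by
    intro i a1 a2 v a3
    obtain ⟨σ, hσ, hvσ, _⟩ := hcell i a1 a2 v a3 v (Or.inl rfl)
    rw [← (hq i v a1 a2 a3).2 v (Or.inl rfl) σ hσ hvσ hvσ, eval_Bc_replicate]
    exact ((hP.1 σ hσ).2 v (subset_convexHull ℝ _ (by exact_mod_cast hvσ))).symm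
  -- symmetry
  have hsym : ∀ i, 1 ≤ i → i + 1 ≤ n → ∀ v ∈ B i, ∀ w ∈ B (i + 1),
      eval w (q i v) = eval v (q (i + 1) w) := by
    intro i a1 a2 v hv w hw
    obtain ⟨σ, hσ, hvσ, hwσ⟩ := hcell i a1 (by omega) v hv w (Or.inr (Or.inr hw))
    rw [← (hq i v a1 (by omega) hv).2 w (Or.inr (Or.inr hw)) σ hσ hvσ hwσ,
      ← (hq (i + 1) w (by omega) a2 hw).2 v (Or.inr (Or.inl (by simpa using hv))) σ hσ hwσ hvσ]
    have := Bc_symm (k := k) (a := ρ) (b := ρ) (L := []) (by simp; omega) w v (hP.1 σ hσ).1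
    simpa using this
  obtain ⟨v0, hv0, hsupp⟩ := hloc
  obtain ⟨i0, b1, b2, hb⟩ := h.loc v0 hv0
  -- polynomials vanish near block i0
  have hP0 : ∀ v ∈ B i0, ∀ σ ∈ T.cells, v ∈ σ → P σ = 0 := by
    intro v hv σ hσ hvσ
    refine eq_zero_of_vanish_cell T hσ fun x hx => ?_
    rw [← (hP.1 σ hσ).2 x hx]
    by_contra hne
    exact Set.disjoint_left.1 (hb v hv σ hσ hvσ) hx (hsupp hne)
  let V : ℕ → Prop := fun j => ∀ u ∈ B j, f u = 0 ∧
    ∀ w, (w ∈ B (j - 1) ∨ w ∈ B (j + 1)) → eval w (q j u) = 0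
  have hV0 : V i0 := by
    intro u hu
    constructor
    · obtain ⟨σ, hσ, huσ, _⟩ := hcell i0 b1 b2 u hu u (Or.inl rfl)
      rw [(hP.1 σ hσ).2 u (subset_convexHull ℝ _ (by exact_mod_cast huσ)), hP0 u hu σ hσ huσ]
      simp
    · intro w hw
      obtain ⟨σ, hσ, huσ, hwσ⟩ := hcell i0 b1 b2 u hu w (Or.inr hw)
      rw [← (hq i0 u b1 b2 hu).2 w (Or.inr hw) σ hσ huσ hwσ, hP0 u hu σ hσ huσ, Bc_zero]
      simp
  have hup : ∀ j, 1 ≤ j → j + 1 ≤ n → V j → V (j + 1) := by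
    intro j c1 c2 hVj w hw
    have hall : ∀ y : Pt s, eval y (q (j + 1) w) = 0 := by
      intro y
      refine (h.det j c1 (by omega)).vanish (hq (j + 1) w (by omega) c2 hw).1 ?_
        (Set.mem_univ y)
      intro u hu
      rw [← hsym j c1 c2 u hu w hw]
      exact (hVj u hu).2 w (Or.inr hw)
    refine ⟨?_, fun x hx => hall x⟩
    rw [← hval (j + 1) (by omega) c2 w hw]
    exact hall w
  have hdown : ∀ j, 1 ≤ j → j + 1 ≤ n → V (j + 1) → V j := by
    intro j c1 c2 hVj w hw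
    have hall : ∀ y : Pt s, eval y (q j w) = 0 := by
      intro y
      refine (h.det (j + 1) (by omega) c2).vanish (hq j w c1 (by omega) hw).1 ?_
        (Set.mem_univ y)
      intro u hu
      rw [hsym j c1 c2 w hw u hu]
      exact (hVj u hu).2 w (Or.inl (by simpa using hw))
    refine ⟨?_, fun x hx => hall x⟩
    rw [← hval j c1 (by omega) w hw]
    exact hall w
  have hupall : ∀ d, i0 + d ≤ n → V (i0 + d) := by
    intro d
    induction d with
    | zero => intro _; simpa using hV0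
    | succ d ih => intro hd; exact hup (i0 + d) (by omega) hd (ih (by omega))
  have hdownall : ∀ d, 1 ≤ i0 - d → V (i0 - d) := by
    intro d
    induction d with
    | zero => intro _; simpa using hV0
    | succ d ih =>
      intro hd
      refine hdown (i0 - (d + 1)) hd (by omega) ?_
      have e : i0 - (d + 1) + 1 = i0 - d := by omega
      rw [e]
      exact ih (by omega)
  have hVi : V i := by
    rcases le_total i0 i with hle | hle
    · have := hupall (i - i0) (by omega)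
      rwa [show i0 + (i - i0) = i by omega] at this
    · have := hdownall (i0 - i) (by omega)
      rwa [show i0 - (i0 - i) = i by omega] at this
  exact (hVi v hv).1

theorem span_ne_of_LC {T : Triang s} {r ρ0 t M n : ℕ}
    {B : ℕ → Finset (Pt s)} (hn : 1 ≤ n) (h : LC T r ρ0 t M n B) :
    Submodule.span ℝ {f | f ∈ T.splineSpace r (2 ^ (t + 1) * ρ0) ∧ T.LocallySupported M f} ≠
      T.splineSpace r (2 ^ (t + 1) * ρ0) := by
  intro heq
  obtain ⟨v, hv⟩ := (h.det 1 le_rfl hn).nonempty Set.univ_nonempty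
  obtain ⟨⟨x0, hx0⟩, hfc⟩ := face_of_CD t _ _ (h.cc 1 le_rfl hn v hv)
  obtain ⟨σ, hσ, hsub⟩ := hfc x0 hx0
  have hvσ : v ∈ σ := hsub (by simp)
  have hvreg : v ∈ T.region := ⟨σ, hσ, subset_convexHull ℝ _ (by exact_mod_cast hvσ)⟩
  let f : Pt s → ℝ := T.region.indicator fun _ => 1
  have hf : f ∈ T.splineSpace r (2 ^ (t + 1) * ρ0) := by
    refine ⟨?_, ?_, ?_⟩
    · refine (contDiffOn_const (c := (1 : ℝ))).congr fun x hx => ?_
      exact Set.indicator_of_mem hx _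
    · intro x hx
      exact Set.indicator_of_notMem hx _
    · intro τ hτ
      refine ⟨1, by simp, fun x hx => ?_⟩
      have hx' : x ∈ T.region := ⟨τ, hτ, hx⟩
      rw [show f x = 1 from Set.indicator_of_mem hx' _]
      simp
  have hle : Submodule.span ℝ {f | f ∈ T.splineSpace r (2 ^ (t + 1) * ρ0) ∧
      T.LocallySupported M f} ≤ LinearMap.ker (LinearMap.proj (R := ℝ) (φ := fun _ : Pt s => ℝ) v) := by
    refine Submodule.span_le.2 ?_
    rintro g ⟨hg, hgl⟩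
    exact vanish_of_local h hg hgl le_rfl hn hv
  have hmem : f ∈ Submodule.span ℝ {f | f ∈ T.splineSpace r (2 ^ (t + 1) * ρ0) ∧
      T.LocallySupported M f} := by
    rw [heq]; exact hf
  have h0 : f v = 0 := hle hmem
  rw [show f v = 1 from Set.indicator_of_mem hvreg _] at h0
  exact one_ne_zero h0

end Pool.Agent.ELB
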