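import Mathlib

/-!
# Stacked (Apollonian) complete simplicial fans
-/

namespace Pool.Agent.ELB

section Fan

variable {α V : Type*} [DecidableEq α] [AddCommGroup V] [Module ℝ V]

/-- the vectors `φ v`, `v ∈ S`, are linearly independent -/
def Ind (φ : α → V) (S : Finset α) : Prop :=
  ∀ c : α → ℝ, ∑ v ∈ S, c v • φ v = 0 → ∀ v ∈ S, c v = 0

/-- the closed cone spanned by `φ v`, `v ∈ S` -/
def Cn (φ : α → V) (S : Finset α) : Set V :=
  {x | ∃ c : α → ℝ, (∀ v ∈ S, 0 ≤ c v) ∧ ∑ v ∈ S, c v • φ v = x}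

/-- the open cone spanned by `φ v`, `v ∈ S` -/
def OC (φ : α → V) (S : Finset α) : Set V :=
  {x | ∃ c : α → ℝ, (∀ v ∈ S, 0 < c v) ∧ ∑ v ∈ S, c v • φ v = x}

/-- stacked fans: start with the fan of four rays with a positive relation, and repeatedly insert
a ray inside a cone -/
inductive Ap (φ : α → V) : Finset (Finset α) → Prop
  | base (B : Finset α) (δ : α → ℝ) (hB : B.card = 4) (hδ : ∀ v ∈ B, 0 < δ v)
      (h0 : ∑ v ∈ B, δ v • φ v = 0) (hI : ∀ v ∈ B, Ind φ (B.erase v)) :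
      Ap φ (B.image (fun v => B.erase v))
  | step (M : Finset (Finset α)) (S : Finset α) (p : α) (hM : Ap φ M) (hS : S ∈ M)
      (hp : φ p ∈ OC φ S) : Ap φ ((M.erase S) ∪ S.image (fun A => insert p (S.erase A)))

variable {φ : α → V}

theorem ext_sum {S T : Finset α} (h : T ⊆ S) (c : α → ℝ) :
    ∑ v ∈ S, (if v ∈ T then c v else 0) • φ v = ∑ v ∈ T, c v • φ v := by
  rw [← Finset.sum_subset h (f := fun v => (if v ∈ T then c v else 0) • φ v)
    (fun v _ hv => by simp [hv])]
  exact Finset.sum_congr rfl fun v hv => by simp [hv]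

theorem Ind.uniq {S : Finset α} (h : Ind φ S) {c d : α → ℝ}
    (hcd : ∑ v ∈ S, c v • φ v = ∑ v ∈ S, d v • φ v) : ∀ v ∈ S, c v = d v := by
  intro v hv
  have := h (fun v => c v - d v) (by
    simp only [sub_smul, Finset.sum_sub_distrib, hcd, sub_self]) v hv
  linarith

theorem Ind.mono {S T : Finset α} (h : Ind φ S) (hT : T ⊆ S) : Ind φ T := by
  intro c hc v hv
  have := h (fun v => if v ∈ T then c v else 0) (by rw [ext_sum hT]; exact hc) v (hT hv)
  simpa [hv] using this

theorem Ind.ne_zero {S : Finset α} (h : Ind φ S) {v : α} (hv : v ∈ S) : φ v ≠ 0 := by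
  intro h0
  have h1 := h.mono (Finset.singleton_subset_iff.2 hv) (fun _ => 1) (by simp [h0]) v (by simp)
  exact one_ne_zero h1

theorem Cn_mono {S T : Finset α} (hT : T ⊆ S) : Cn φ T ⊆ Cn φ S := by
  rintro x ⟨c, hc, rfl⟩
  refine ⟨fun v => if v ∈ T then c v else 0, fun v _ => ?_, ext_sum hT c⟩
  by_cases hv : v ∈ T
  · simpa [hv] using hc v hv
  · simp [hv]

theorem OC_subset {S : Finset α} : OC φ S ⊆ Cn φ S := by
  rintro x ⟨c, hc, rfl⟩
  exact ⟨c, fun v hv => (hc v hv).le, rfl⟩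

theorem mem_Cn {S : Finset α} {v : α} (hv : v ∈ S) : φ v ∈ Cn φ S := by
  refine Cn_mono (Finset.singleton_subset_iff.2 hv) ⟨fun _ => 1, fun _ _ => zero_le_one, by simp⟩

/-- positive coefficients cannot be carried by a proper face -/
theorem OC_Cn_sub {S T : Finset α} (h : Ind φ S) (hT : T ⊆ S) {x : V} (hx : x ∈ OC φ S)
    (hx' : x ∈ Cn φ T) : S ⊆ T := by
  obtain ⟨c, hc, hcx⟩ := hx
  obtain ⟨d, -, hdx⟩ := hx'
  intro v hv
  by_contra hvT
  have h1 := h.uniq (c := c) (d := fun v => if v ∈ T then d v else 0)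
    (by rw [ext_sum hT, hcx, hdx]) v hv
  simp only [hvT, if_false] at h1
  have := hc v hv
  linarith

theorem not_mem_of_OC {S : Finset α} (h : Ind φ S) (hS : 2 ≤ S.card) {p : α}
    (hp : φ p ∈ OC φ S) : p ∉ S := by
  intro hpS
  have h1 := OC_Cn_sub h (Finset.singleton_subset_iff.2 hpS) hp (mem_Cn (by simp))
  have := Finset.card_le_card h1
  simp at this
  omega

/-- the relation after expanding `φ p` -/
theorem expand {S : Finset α} {p A : α} (hA : A ∈ S) (hpS : p ∉ S) {β c : α → ℝ}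
    (hβ : ∑ v ∈ S, β v • φ v = φ p) :
    ∑ v ∈ insert p (S.erase A), c v • φ v =
      ∑ v ∈ S, (c p * β v + if v = A then 0 else c v) • φ v := by
  have hpA : p ∉ S.erase A := fun h => hpS (Finset.mem_of_mem_erase h)
  rw [Finset.sum_insert hpA]
  simp only [add_smul, Finset.sum_add_distrib, mul_smul]
  rw [← Finset.smul_sum, hβ]
  congr 1
  rw [← Finset.add_sum_erase S (fun v => (if v = A then (0 : ℝ) else c v) • φ v) hA]
  simp only [if_true, zero_smul, zero_add]
  exact Finset.sum_congr rfl fun v hv => by rw [if_neg (Finset.ne_of_mem_erase hv)]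

theorem ind_step {S : Finset α} (h : Ind φ S) {p A : α} (hpS : p ∉ S)
    (hp : φ p ∈ OC φ S) (hA : A ∈ S) : Ind φ (insert p (S.erase A)) := by
  obtain ⟨β, hβ, hβp⟩ := hp
  intro c hc
  rw [expand hA hpS hβp] at hc
  have h1 := h _ hc
  have h2 := h1 A hA
  simp only [if_true, add_zero] at h2
  have h3 : c p = 0 := (mul_eq_zero.1 h2).resolve_right (hβ A hA).ne'
  intro v hv
  rcases Finset.mem_insert.1 hv with rfl | hv
  · exact h3
  · have h4 := h1 v (Finset.mem_of_mem_erase hv)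
    simp only [if_neg (Finset.ne_of_mem_erase hv), h3, zero_mul, zero_add] at h4
    exact h4

theorem Cn_step {S : Finset α} {p A : α} (hpS : p ∉ S)
    (hp : φ p ∈ OC φ S) (hA : A ∈ S) : Cn φ (insert p (S.erase A)) ⊆ Cn φ S := by
  obtain ⟨β, hβ, hβp⟩ := hp
  rintro x ⟨c, hc, rfl⟩
  rw [expand hA hpS hβp]
  refine ⟨_, fun v hv => ?_, rfl⟩
  have h1 := hc p (Finset.mem_insert_self _ _)
  refine add_nonneg (mul_nonneg h1 (hβ v hv).le) ?_
  by_cases hvA : v = A
  · simp [hvA]
  · rw [if_neg hvA]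
    exact hc v (Finset.mem_insert_of_mem (Finset.mem_erase.2 ⟨hvA, hv⟩))

/-- a new cone and an old cone -/
theorem inter_new_old {S T : Finset α} (h : Ind φ S) {p A : α} (hpS : p ∉ S)
    (hp : φ p ∈ OC φ S) (hA : A ∈ S) (hST : ¬ S ⊆ T) (hint : Cn φ S ∩ Cn φ T ⊆ Cn φ (S ∩ T)) :
    Cn φ (insert p (S.erase A)) ∩ Cn φ T ⊆ Cn φ (S.erase A ∩ T) := by
  rintro x ⟨hx1, hx2⟩
  have hx3 := hint ⟨Cn_step hpS hp hA hx1, hx2⟩
  obtain ⟨β, hβ, hβp⟩ := hp
  obtain ⟨c, hc, rfl⟩ := hx1
  obtain ⟨d, hd, hdx⟩ := hx3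
  rw [expand hA hpS hβp, ← ext_sum (Finset.inter_subset_left (s₂ := T))] at hdx
  have h1 := h.uniq hdx
  obtain ⟨B, hBS, hBT⟩ := Finset.not_subset.1 hST
  have hc0 := hc p (Finset.mem_insert_self _ _)
  have hcv : ∀ v ∈ S, 0 ≤ (if v = A then 0 else c v) := by
    intro v hv
    by_cases hvA : v = A
    · simp [hvA]
    · rw [if_neg hvA]
      exact hc v (Finset.mem_insert_of_mem (Finset.mem_erase.2 ⟨hvA, hv⟩))
  have h2 := h1 B hBS
  rw [if_neg (fun h => hBT (Finset.mem_inter.1 h).2)] at h2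
  have h3 : c p = 0 := by
    have h4 := hcv B hBS
    have h5 := mul_nonneg hc0 (hβ B hBS).le
    have h6 : c p * β B = 0 := by linarith
    exact (mul_eq_zero.1 h6).resolve_right (hβ B hBS).ne'
  have hpA : p ∉ S.erase A := fun h => hpS (Finset.mem_of_mem_erase h)
  rw [Finset.sum_insert hpA, h3, zero_smul, zero_add]
  refine ⟨c, fun v hv => hc v (Finset.mem_insert_of_mem (Finset.mem_inter.1 hv).1), ?_⟩
  refine Finset.sum_subset Finset.inter_subset_left fun v hv hv' => ?_
  have hvT : v ∉ T := fun hT => hv' (Finset.mem_inter.2 ⟨hv, hT⟩)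
  have h7 := h1 v (Finset.mem_of_mem_erase hv)
  rw [if_neg (fun h => hvT (Finset.mem_inter.1 h).2), if_neg (Finset.ne_of_mem_erase hv), h3,
    zero_mul, zero_add] at h7
  rw [← h7, zero_smul]

/-- two new cones -/
theorem inter_new_new {S : Finset α} (h : Ind φ S) {p A B : α} (hpS : p ∉ S)
    (hp : φ p ∈ OC φ S) (hA : A ∈ S) (hB : B ∈ S) :
    Cn φ (insert p (S.erase A)) ∩ Cn φ (insert p (S.erase B)) ⊆
      Cn φ (insert p (S.erase A) ∩ insert p (S.erase B)) := by
  by_cases hAB : A = B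
  · subst hAB
    rw [Finset.inter_self]
    exact Set.inter_subset_left
  rintro x ⟨hx1, hx2⟩
  obtain ⟨β, hβ, hβp⟩ := hp
  obtain ⟨c, hc, rfl⟩ := hx1
  obtain ⟨d, hd, hdx⟩ := hx2
  have h0 := hdx
  rw [expand hA hpS hβp, expand hB hpS hβp] at hdx
  have h1 := h.uniq hdx
  have hA1 := h1 A hA
  have hB1 := h1 B hB
  rw [if_pos rfl, if_neg hAB, add_zero] at hA1
  rw [if_pos rfl, if_neg (Ne.symm hAB), add_zero] at hB1
  have hdA := hd A (Finset.mem_insert_of_mem (Finset.mem_erase.2 ⟨hAB, hA⟩))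
  have hcB := hc B (Finset.mem_insert_of_mem (Finset.mem_erase.2 ⟨Ne.symm hAB, hB⟩))
  have hβA := hβ A hA
  have hβB := hβ B hB
  have hle : d p ≤ c p := by
    by_contra hcon
    push Not at hcon
    nlinarith
  have hge : c p ≤ d p := by
    by_contra hcon
    push Not at hcon
    nlinarith
  have heq : c p = d p := le_antisymm hge hle
  have hcB0 : c B = 0 := by rw [heq] at hB1; linarith
  refine ⟨c, fun v hv => hc v (Finset.mem_inter.1 hv).1, ?_⟩
  refine Finset.sum_subset Finset.inter_subset_left fun v hv hv' => ?_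
  have hvB : v = B := by
    rcases Finset.mem_insert.1 hv with rfl | hv2
    · exact absurd (Finset.mem_inter.2 ⟨hv, Finset.mem_insert_self _ _⟩) hv'
    · by_contra hne
      exact hv' (Finset.mem_inter.2 ⟨hv, Finset.mem_insert_of_mem
        (Finset.mem_erase.2 ⟨hne, Finset.mem_of_mem_erase hv2⟩)⟩)
  rw [hvB, hcB0, zero_smul]

/-- two cones of the fan of four rays -/
theorem inter_base {B : Finset α} {δ : α → ℝ} (hδ : ∀ v ∈ B, 0 < δ v)
    (h0 : ∑ v ∈ B, δ v • φ v = 0) (hI : ∀ v ∈ B, Ind φ (B.erase v)) {a b : α} (ha : a ∈ B)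
    (hb : b ∈ B) : Cn φ (B.erase a) ∩ Cn φ (B.erase b) ⊆ Cn φ (B.erase a ∩ B.erase b) := by
  by_cases hab : a = b
  · subst hab
    rw [Finset.inter_self]
    exact Set.inter_subset_left
  rintro x ⟨⟨c, hc, hcx⟩, ⟨d, hd, hdx⟩⟩
  -- the relation on `B`
  obtain ⟨c', hc'a, hc'⟩ : ∃ c' : α → ℝ, c' a = 0 ∧ ∀ v, v ≠ a → c' v = c v :=
    ⟨fun v => if v = a then 0 else c v, by simp, fun v hv => by simp [hv]⟩
  obtain ⟨d', hd'b, hd'⟩ : ∃ d' : α → ℝ, d' b = 0 ∧ ∀ v, v ≠ b → d' v = d v :=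
    ⟨fun v => if v = b then 0 else d v, by simp, fun v hv => by simp [hv]⟩
  have e1 : ∑ v ∈ B, c' v • φ v = x := by
    rw [← Finset.add_sum_erase B _ ha, hc'a, zero_smul, zero_add, ← hcx]
    exact Finset.sum_congr rfl fun v hv => by rw [hc' v (Finset.ne_of_mem_erase hv)]
  have e2 : ∑ v ∈ B, d' v • φ v = x := by
    rw [← Finset.add_sum_erase B _ hb, hd'b, zero_smul, zero_add, ← hdx]
    exact Finset.sum_congr rfl fun v hv => by rw [hd' v (Finset.ne_of_mem_erase hv)]
  obtain ⟨t, ht⟩ : ∃ t : ℝ, t * δ b = c' b - d' b :=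
    ⟨(c' b - d' b) / δ b, by have := (hδ b hb).ne'; field_simp⟩
  have e3 : ∑ v ∈ B, (c' v - d' v - t * δ v) • φ v = 0 := by
    simp only [sub_smul, Finset.sum_sub_distrib, mul_smul]
    rw [e1, e2, ← Finset.smul_sum, h0, smul_zero, sub_self, sub_zero]
  rw [← Finset.add_sum_erase B _ hb, ht, sub_self, zero_smul, zero_add] at e3
  have e4 := hI b hb _ e3
  have e5 : ∀ v ∈ B, c' v - d' v = t * δ v := by
    intro v hv
    by_cases hvb : v = b
    · rw [hvb, ht]
    · have := e4 v (Finset.mem_erase.2 ⟨hvb, hv⟩)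
      linarith
  have ea := e5 a ha
  have eb := e5 b hb
  rw [hc'a, hd' a hab] at ea
  rw [hd'b, hc' b (Ne.symm hab)] at eb
  have hda := hd a (Finset.mem_erase.2 ⟨hab, ha⟩)
  have hcb := hc b (Finset.mem_erase.2 ⟨Ne.symm hab, hb⟩)
  have hδa := hδ a ha
  have hδb := hδ b hb
  have ht0 : t = 0 := by
    apply le_antisymm
    · by_contra hcon
      push Not at hcon
      nlinarith
    · by_contra hcon
      push Not at hcon
      nlinarith
  have hcb0 : c b = 0 := by rw [ht0] at eb; linarith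
  refine ⟨c, fun v hv => hc v (Finset.mem_inter.1 hv).1, ?_⟩
  rw [← hcx]
  refine Finset.sum_subset Finset.inter_subset_left fun v hv hv' => ?_
  have hvb : v = b := by
    by_contra hne
    exact hv' (Finset.mem_inter.2 ⟨hv, Finset.mem_erase.2 ⟨hne, Finset.mem_of_mem_erase hv⟩⟩)
  rw [hvb, hcb0, zero_smul]

theorem card_step {S : Finset α} {p A : α} (hpS : p ∉ S) (hA : A ∈ S) :
    (insert p (S.erase A)).card = S.card := by
  rw [Finset.card_insert_of_notMem fun h => hpS (Finset.mem_of_mem_erase h),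
    Finset.card_erase_of_mem hA]
  have := Finset.card_pos.2 ⟨A, hA⟩
  omega

/-- a ray in an open cone is not a label -/
theorem vertex_aux {M : Finset (Finset α)} (h1 : ∀ S ∈ M, S.card = 3 ∧ Ind φ S)
    (h2 : ∀ S ∈ M, ∀ T ∈ M, Cn φ S ∩ Cn φ T ⊆ Cn φ (S ∩ T)) {S : Finset α} (hS : S ∈ M)
    {p : α} (hp : φ p ∈ OC φ S) : ∀ T ∈ M, p ∉ T := by
  intro T hT hpT
  have h3 := h2 S hS T hT ⟨OC_subset hp, mem_Cn hpT⟩
  have h4 := OC_Cn_sub (h1 S hS).2 Finset.inter_subset_left hp h3
  have h5 : S ⊆ T := h4.trans Finset.inter_subset_right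
  have h6 : S = T := Finset.eq_of_subset_of_card_le h5 (by rw [(h1 S hS).1, (h1 T hT).1])
  exact not_mem_of_OC (h1 S hS).2 (by rw [(h1 S hS).1]; omega) hp (h6 ▸ hpT)

/-- stacked fans are fans -/
theorem Ap.good {M : Finset (Finset α)} (h : Ap φ M) :
    (∀ S ∈ M, S.card = 3 ∧ Ind φ S) ∧ ∀ S ∈ M, ∀ T ∈ M, Cn φ S ∩ Cn φ T ⊆ Cn φ (S ∩ T) := by
  induction h with
  | base B δ hB hδ h0 hI =>
    constructor
    · intro S hS
      obtain ⟨v, hv, rfl⟩ := Finset.mem_image.1 hS
      exact ⟨by rw [Finset.card_erase_of_mem hv, hB], hI v hv⟩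
    · intro S hS T hT
      obtain ⟨v, hv, rfl⟩ := Finset.mem_image.1 hS
      obtain ⟨w, hw, rfl⟩ := Finset.mem_image.1 hT
      exact inter_base hδ h0 hI hv hw
  | step M S p _ hS hp ih =>
    obtain ⟨h1, h2⟩ := ih
    have hpM := vertex_aux h1 h2 hS hp
    have hpS := hpM S hS
    have hon : ∀ T ∈ M.erase S, ∀ A ∈ S,
        Cn φ (insert p (S.erase A)) ∩ Cn φ T ⊆ Cn φ (insert p (S.erase A) ∩ T) := by
      intro T hT A hA
      have hTM := Finset.mem_of_mem_erase hT
      have hST : ¬ S ⊆ T := fun hsub => Finset.ne_of_mem_erase hT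
        (Finset.eq_of_subset_of_card_le hsub (by rw [(h1 S hS).1, (h1 T hTM).1])).symm
      refine (inter_new_old (h1 S hS).2 hpS hp hA hST (h2 S hS T hTM)).trans (Cn_mono ?_)
      exact Finset.inter_subset_inter_right (Finset.subset_insert _ _)
    constructor
    · intro T hT
      rcases Finset.mem_union.1 hT with hT | hT
      · exact h1 T (Finset.mem_of_mem_erase hT)
      · obtain ⟨A, hA, rfl⟩ := Finset.mem_image.1 hT
        exact ⟨by rw [card_step hpS hA, (h1 S hS).1], ind_step (h1 S hS).2 hpS hp hA⟩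
    · intro T hT T' hT'
      rcases Finset.mem_union.1 hT with hT | hT
      · rcases Finset.mem_union.1 hT' with hT' | hT'
        · exact h2 T (Finset.mem_of_mem_erase hT) T' (Finset.mem_of_mem_erase hT')
        · obtain ⟨A, hA, rfl⟩ := Finset.mem_image.1 hT'
          rw [Set.inter_comm, Finset.inter_comm]
          exact hon T hT A hA
      · obtain ⟨A, hA, rfl⟩ := Finset.mem_image.1 hT
        rcases Finset.mem_union.1 hT' with hT' | hT'
        · exact hon T' hT' A hA
        · obtain ⟨A', hA', rfl⟩ := Finset.mem_image.1 hT'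
          exact inter_new_new (h1 S hS).2 hpS hp hA hA'

theorem Ap.card {M : Finset (Finset α)} (h : Ap φ M) {S : Finset α} (hS : S ∈ M) :
    S.card = 3 := (h.good.1 S hS).1

theorem Ap.ind {M : Finset (Finset α)} (h : Ap φ M) {S : Finset α} (hS : S ∈ M) :
    Ind φ S := (h.good.1 S hS).2

theorem Ap.inter {M : Finset (Finset α)} (h : Ap φ M) {S T : Finset α} (hS : S ∈ M)
    (hT : T ∈ M) : Cn φ S ∩ Cn φ T ⊆ Cn φ (S ∩ T) := h.good.2 S hS T hT

theorem Ap.vertex {M : Finset (Finset α)} (h : Ap φ M) {S : Finset α} (hS : S ∈ M) {p : α}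
    (hp : φ p ∈ OC φ S) : ∀ T ∈ M, p ∉ T := vertex_aux h.good.1 h.good.2 hS hp

theorem Ap.nonempty {M : Finset (Finset α)} (h : Ap φ M) : M.Nonempty := by
  induction h with
  | base B δ hB hδ h0 hI =>
    have : B.Nonempty := by rw [← Finset.card_pos, hB]; omega
    exact this.image _
  | step M S p hM hS hp ih =>
    have : S.Nonempty := by rw [← Finset.card_pos, hM.card hS]; omega
    exact (this.image _).mono Finset.subset_union_right

/-- positive rescaling of the rays -/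
theorem Ap.scale {M : Finset (Finset α)} (h : Ap φ M) {φ' : α → V} {k : α → ℝ}
    (hk : ∀ v, 0 < k v) (hφ : ∀ S ∈ M, ∀ v ∈ S, φ' v = k v • φ v) : Ap φ' M := by
  have hI : ∀ S : Finset α, (∀ v ∈ S, φ' v = k v • φ v) → Ind φ S → Ind φ' S := by
    intro S hS h c hc v hv
    have h1 := h (fun v => c v * k v) (by
      rw [← hc]
      exact Finset.sum_congr rfl fun v hv => by rw [hS v hv, mul_smul]) v hv
    exact (mul_eq_zero.1 h1).resolve_right (hk v).ne'
  induction h with
  | base B δ hB hδ h0 hI' =>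
    have hφB : ∀ v ∈ B, φ' v = k v • φ v := by
      intro v hv
      obtain ⟨w, hw, hwv⟩ : ∃ w ∈ B, w ≠ v := by
        by_contra hcon
        push Not at hcon
        have : B ⊆ {v} := fun w hw => by simp [hcon w hw]
        have := Finset.card_le_card this
        simp at this
        omega
      exact hφ _ (Finset.mem_image_of_mem _ hw) v (Finset.mem_erase.2 ⟨Ne.symm hwv, hv⟩)
    refine Ap.base B (fun v => δ v / k v) hB (fun v hv => div_pos (hδ v hv) (hk v)) ?_ ?_
    · rw [← h0]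
      refine Finset.sum_congr rfl fun v hv => ?_
      rw [hφB v hv, smul_smul, div_mul_cancel₀ _ (hk v).ne']
    · intro v hv
      exact hI _ (fun w hw => hφB w (Finset.mem_of_mem_erase hw)) (hI' v hv)
  | step M S p hM hS hp ih =>
    have hex : ∀ v ∈ S, ∃ w ∈ S, w ≠ v := by
      intro v hv
      by_contra hcon
      push Not at hcon
      have : S ⊆ {v} := fun w hw => by simp [hcon w hw]
      have := Finset.card_le_card this
      have := hM.card hS
      simp at *
      omega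
    have hφS : ∀ v ∈ S, φ' v = k v • φ v := by
      intro v hv
      obtain ⟨w, hw, hwv⟩ := hex v hv
      exact hφ _ (Finset.mem_union_right _ (Finset.mem_image_of_mem _ hw)) v
        (Finset.mem_insert_of_mem (Finset.mem_erase.2 ⟨Ne.symm hwv, hv⟩))
    have hφp : φ' p = k p • φ p := by
      obtain ⟨w, hw⟩ : S.Nonempty := by rw [← Finset.card_pos, hM.card hS]; omega
      exact hφ _ (Finset.mem_union_right _ (Finset.mem_image_of_mem _ hw)) p
        (Finset.mem_insert_self _ _)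
    refine Ap.step M S p (ih fun T hT v hv => ?_) hS ?_
    · by_cases hTS : T = S
      · rw [hTS] at hv
        exact hφS v hv
      · exact hφ T (Finset.mem_union_left _ (Finset.mem_erase.2 ⟨hTS, hT⟩)) v hv
    · obtain ⟨β, hβ, hβp⟩ := hp
      refine ⟨fun v => k p * β v / k v, fun v hv => div_pos (mul_pos (hk p) (hβ v hv)) (hk v), ?_⟩
      rw [hφp, ← hβp, Finset.smul_sum]
      refine Finset.sum_congr rfl fun v hv => ?_
      rw [hφS v hv, smul_smul, smul_smul, div_mul_cancel₀ _ (hk v).ne']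

end Fan

end Pool.Agent.ELB
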