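import Pool.Agent.ELB.Stage

/-!
# The three far labels of a face of codimension two
-/

namespace Pool.Agent.ELB

open MvPolynomial Pool.Agent.H84Exp

variable {s : ℕ}

theorem Pj.comb {F : Finset (Pt s)} {π : Pt s → (Fin 3 → ℝ)} (h : Pj F π) (E : Finset (Pt s))
    (x : Pt s) (δ : ℝ) : π ((1 + E.card * δ) • x - δ • ∑ e ∈ E, e) =
      (1 + E.card * δ) • π x - δ • ∑ e ∈ E, π e := by
  obtain ⟨L, f0, -, -, -, hL⟩ := h
  simp only [hL, map_sub, map_smul, map_sum, Finset.sum_sub_distrib, Finset.sum_const,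
    ← Nat.cast_smul_eq_nsmul ℝ]
  module

theorem Pj.cen {G : Finset (Pt s)} {w : Pt s} {π : Pt s → (Fin 3 → ℝ)}
    (h : Pj (G.erase w) π) (hw : w ∈ G) : π (cen G) = (G.card : ℝ)⁻¹ • π w := by
  have hc : (G.card : ℝ) ≠ 0 := by
    have := Finset.card_pos.2 ⟨w, hw⟩
    exact_mod_cast this.ne'
  have h1 := h.affine G (fun _ => (G.card : ℝ)⁻¹) (fun v => v) (by
    rw [Finset.sum_const, nsmul_eq_mul, mul_inv_cancel₀ hc])
  rw [← Finset.add_sum_erase G (fun v => (G.card : ℝ)⁻¹ • π v) hw,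
    Finset.sum_eq_zero (s := G.erase w) (fun v hv => by rw [h.zero hv, smul_zero]), add_zero,
    ← Finset.smul_sum] at h1
  exact h1

theorem stage' {G : Finset (Pt s)} (hG : G.card + 1 = s) (π : Pt s → Pt s → (Fin 3 → ℝ))
    (S : Pt s → Finset (Pt s)) (E : Finset (Pt s)) (hπ : ∀ w ∈ G, Pj (G.erase w) (π w))
    (hI : ∀ w ∈ G, Ind (π w) (S w)) (hc : ∀ w ∈ G, (S w).card = 3)
    (ht : ∀ w ∈ G, π w w ∈ OC (π w) (S w)) (hE : ∀ w ∈ G, E ⊆ S w) (hEc : E.card ≤ 2)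
    {V : Set (Pt s)} (hV : IsOpen V) (hcV : cen G ∈ V) (Bad : Finset (Pt s)) :
    ∃ p ∈ V, p ∉ Bad ∧ ∀ w ∈ G, π w p ∈ OC (π w) (S w) ∧
      ∃ A ∈ S w, A ∉ E ∧ π w w ∈ OC (π w) (insert p ((S w).erase A)) := by
  have hex : ∀ w, ∃ c : Pt s → ℝ, w ∈ G → (∀ v ∈ S w, 0 < c v) ∧
      ∑ v ∈ S w, c v • π w v = π w w := by
    intro w
    by_cases hw : w ∈ G
    · obtain ⟨c, hc, hc'⟩ := ht w hw
      exact ⟨c, fun _ => ⟨hc, hc'⟩⟩
    · exact ⟨fun _ => 0, fun h => absurd h hw⟩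
  choose c hc0 using hex
  set k : ℝ := (E.card : ℝ) with hk
  set n : ℝ := (G.card : ℝ)⁻¹ with hn
  -- the parameter
  have hev : ∀ᶠ δ : ℝ in nhds 0, (1 + k * δ) • cen G - δ • ∑ e ∈ E, e ∈ V ∧
      ∀ w ∈ G, ∀ v ∈ S w, 0 < (1 + k * δ) * n * c w v - δ := by
    refine Filter.Eventually.and ?_ ?_
    · have h1 : ContinuousAt (fun δ : ℝ => (1 + k * δ) • cen G - δ • ∑ e ∈ E, e) 0 := by
        fun_prop
      refine h1.eventually (hV.mem_nhds ?_)
      simpa using hcV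
    · rw [Filter.eventually_all_finset]
      intro w hw
      rw [Filter.eventually_all_finset]
      intro v hv
      have h1 : ContinuousAt (fun δ : ℝ => (1 + k * δ) * n * c w v - δ) 0 := by
        fun_prop
      refine h1.eventually_const_lt ?_
      simp only [mul_zero, add_zero, one_mul, sub_zero]
      have h2 : 0 < (G.card : ℝ) := by
        exact_mod_cast Finset.card_pos.2 ⟨w, hw⟩
      exact mul_pos (inv_pos.2 h2) ((hc0 w hw).1 v hv)
  obtain ⟨δ, ⟨hδV, hδ⟩, hδ0⟩ := ((hev.filter_mono nhdsWithin_le_nhds).and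
    (self_mem_nhdsWithin (s := Set.Ioi (0 : ℝ)))).exists
  have hδ0' : 0 < δ := hδ0
  -- coordinates of the point
  have hd : ∀ w ∈ G, ∑ v ∈ S w, ((1 + k * δ) * n * c w v - if v ∈ E then δ else 0) • π w v =
      π w ((1 + k * δ) • cen G - δ • ∑ e ∈ E, e) := by
    intro w hw
    rw [(hπ w hw).comb, (hπ w hw).cen hw]
    simp only [sub_smul, Finset.sum_sub_distrib]
    congr 1
    · rw [← (hc0 w hw).2, Finset.smul_sum, Finset.smul_sum]
      exact Finset.sum_congr rfl fun v _ => by rw [smul_smul, smul_smul, mul_assoc]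
    · rw [ext_sum (hE w hw) (fun _ => δ), Finset.smul_sum]
  have hposd : ∀ w ∈ G, ∀ v ∈ S w, 0 < (1 + k * δ) * n * c w v - if v ∈ E then δ else 0 := by
    intro w hw v hv
    have h1 := hδ w hw v hv
    by_cases hvE : v ∈ E
    · rw [if_pos hvE]; exact h1
    · rw [if_neg hvE]; linarith
  refine stage (fun w => G.erase w) π S E hπ ?_ hI hc ht
    (p0 := (1 + k * δ) • cen G - δ • ∑ e ∈ E, e) ?_ (by omega) ?_ hV hδV Bad
  · intro w hw
    rw [Finset.card_erase_of_mem hw]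
    have := Finset.card_pos.2 ⟨w, hw⟩
    omega
  · intro w hw
    exact ⟨_, hposd w hw, hd w hw⟩
  · intro w hw e he
    refine ⟨hE w hw he, c w, _, (hc0 w hw).2, hd w hw, ?_⟩
    obtain ⟨v, hv, hvE⟩ : ∃ v ∈ S w, v ∉ E := by
      by_contra hcon
      push Not at hcon
      have h1 := Finset.card_le_card (show S w ⊆ E from hcon)
      rw [hc w hw] at h1
      omega
    refine ⟨v, hv, ?_⟩
    rw [if_pos he, if_neg hvE]
    have h1 := (hc0 w hw).1 v hv
    have h2 : 0 < δ * c w v := mul_pos hδ0' h1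
    nlinarith

/-- the insertion of `a`, `b`, `c` and `w` into the cone `σ` -/
def SeqOK (π : Pt s → (Fin 3 → ℝ)) (σ : Finset (Pt s)) (w a b c : Pt s) : Prop :=
  ∃ A B C : Pt s, σ = {A, B, C} ∧ A ≠ B ∧ A ≠ C ∧ B ≠ C ∧ π a ∈ OC π {A, B, C} ∧
    π b ∈ OC π {a, B, C} ∧ π c ∈ OC π {b, a, C} ∧ π w ∈ OC π {c, b, a}

theorem far_choice {G : Finset (Pt s)} (hG : G.card + 1 = s) (π : Pt s → Pt s → (Fin 3 → ℝ))
    (σ : Pt s → Finset (Pt s)) (hπ : ∀ w ∈ G, Pj (G.erase w) (π w))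
    (hI : ∀ w ∈ G, Ind (π w) (σ w)) (hc : ∀ w ∈ G, (σ w).card = 3)
    (ht : ∀ w ∈ G, π w w ∈ OC (π w) (σ w))
    {V : Set (Pt s)} (hV : IsOpen V) (hcV : cen G ∈ V) (Bad : Finset (Pt s)) :
    ∃ a ∈ V, ∃ b ∈ V, ∃ c ∈ V, a ∉ Bad ∧ b ∉ Bad ∧ c ∉ Bad ∧
      ∀ w ∈ G, SeqOK (π w) (σ w) w a b c := by
  obtain ⟨a, haV, haB, ha⟩ := stage' hG π σ ∅ hπ hI hc ht (fun w _ => by simp) (by simp)
    hV hcV Bad
  have hex : ∀ w, ∃ A : Pt s, w ∈ G → A ∈ σ w ∧
      π w w ∈ OC (π w) (insert a ((σ w).erase A)) := by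
    intro w
    by_cases hw : w ∈ G
    · obtain ⟨-, A, hA, -, h⟩ := ha w hw
      exact ⟨A, fun _ => ⟨hA, h⟩⟩
    · exact ⟨0, fun h => absurd h hw⟩
  choose A hA using hex
  have haσ : ∀ w ∈ G, a ∉ σ w := fun w hw =>
    not_mem_of_OC (hI w hw) (by rw [hc w hw]; omega) (ha w hw).1
  have hI1 : ∀ w ∈ G, Ind (π w) (insert a ((σ w).erase (A w))) := fun w hw =>
    ind_step (hI w hw) (haσ w hw) (ha w hw).1 (hA w hw).1
  have hc1 : ∀ w ∈ G, (insert a ((σ w).erase (A w))).card = 3 := fun w hw => by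
    rw [card_step (haσ w hw) (hA w hw).1, hc w hw]
  obtain ⟨b, hbV, hbB, hb⟩ := stage' hG π (fun w => insert a ((σ w).erase (A w))) {a} hπ hI1 hc1
    (fun w hw => (hA w hw).2) (fun w _ => by simp) (by simp) hV hcV Bad
  have hex2 : ∀ w, ∃ B : Pt s, w ∈ G → B ∈ insert a ((σ w).erase (A w)) ∧ B ≠ a ∧
      π w w ∈ OC (π w) (insert b ((insert a ((σ w).erase (A w))).erase B)) := by
    intro w
    by_cases hw : w ∈ G
    · obtain ⟨-, B, hB, hBa, h⟩ := hb w hw
      exact ⟨B, fun _ => ⟨hB, by simpa using hBa, h⟩⟩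
    · exact ⟨0, fun h => absurd h hw⟩
  choose B hB using hex2
  have hbσ : ∀ w ∈ G, b ∉ insert a ((σ w).erase (A w)) := fun w hw =>
    not_mem_of_OC (hI1 w hw) (by rw [hc1 w hw]; omega) (hb w hw).1
  have hI2 : ∀ w ∈ G, Ind (π w) (insert b ((insert a ((σ w).erase (A w))).erase (B w))) :=
    fun w hw => ind_step (hI1 w hw) (hbσ w hw) (hb w hw).1 (hB w hw).1
  have hc2 : ∀ w ∈ G, (insert b ((insert a ((σ w).erase (A w))).erase (B w))).card = 3 :=
    fun w hw => by rw [card_step (hbσ w hw) (hB w hw).1, hc1 w hw]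
  obtain ⟨c, hcV', hcB, hcc⟩ := stage' hG π
    (fun w => insert b ((insert a ((σ w).erase (A w))).erase (B w))) {a, b} hπ hI2 hc2
    (fun w hw => (hB w hw).2.2) (fun w hw => by
      intro x hx
      simp only [Finset.mem_insert, Finset.mem_singleton] at hx
      rcases hx with rfl | rfl
      · exact Finset.mem_insert_of_mem (Finset.mem_erase.2
          ⟨(hB w hw).2.1.symm, Finset.mem_insert_self _ _⟩)
      · exact Finset.mem_insert_self _ _) Finset.card_le_two hV hcV Bad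
  refine ⟨a, haV, b, hbV, c, hcV', haB, hbB, hcB, fun w hw => ?_⟩
  obtain ⟨hcOC, C, hC, hCE, hw3⟩ := hcc w hw
  simp only [Finset.mem_insert, Finset.mem_singleton, not_or] at hCE
  obtain ⟨hCa, hCb⟩ := hCE
  have hAσ := (hA w hw).1
  have hBT := (hB w hw).1
  have hBa := (hB w hw).2.1
  have hBσ : B w ∈ (σ w).erase (A w) := (Finset.mem_insert.1 hBT).resolve_left hBa
  have hCT : C ∈ (insert a ((σ w).erase (A w))).erase (B w) :=
    (Finset.mem_insert.1 hC).resolve_left hCb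
  have hCB : C ≠ B w := (Finset.mem_erase.1 hCT).1
  have hCσ : C ∈ (σ w).erase (A w) :=
    (Finset.mem_insert.1 (Finset.mem_erase.1 hCT).2).resolve_left hCa
  have hBA : B w ≠ A w := (Finset.mem_erase.1 hBσ).1
  have hCA : C ≠ A w := (Finset.mem_erase.1 hCσ).1
  have e1 : (σ w).erase (A w) = {B w, C} := by
    symm
    refine Finset.eq_of_subset_of_card_le ?_ ?_
    · intro x hx
      simp only [Finset.mem_insert, Finset.mem_singleton] at hx
      rcases hx with rfl | rfl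
      · exact hBσ
      · exact hCσ
    · rw [Finset.card_pair (Ne.symm hCB), Finset.card_erase_of_mem hAσ, hc w hw]
  have e0 : σ w = {A w, B w, C} := by rw [← e1, Finset.insert_erase hAσ]
  have e2 : (insert a {B w, C} : Finset (Pt s)).erase (B w) = {a, C} := by
    ext x
    simp only [Finset.mem_erase, Finset.mem_insert, Finset.mem_singleton]
    constructor
    · tauto
    · rintro (rfl | rfl)
      · exact ⟨Ne.symm hBa, by tauto⟩
      · exact ⟨hCB, by tauto⟩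
  have e3 : (insert b {a, C} : Finset (Pt s)).erase C = {b, a} := by
    ext x
    simp only [Finset.mem_erase, Finset.mem_insert, Finset.mem_singleton]
    constructor
    · tauto
    · rintro (rfl | rfl)
      · exact ⟨Ne.symm hCb, by tauto⟩
      · exact ⟨Ne.symm hCa, by tauto⟩
  have k1 := (ha w hw).1
  have k2 := (hb w hw).1
  simp only [e1, e2] at k2 hcOC hw3
  rw [e3] at hw3
  rw [e0] at k1
  exact ⟨A w, B w, C, e0, Ne.symm hBA, Ne.symm hCA, Ne.symm hCB, k1, k2, hcOC, hw3⟩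

end Pool.Agent.ELB
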