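import Pool.Agent.ELB.RecR
import Pool.Agent.H84Exp.Ext1

/-! # Making faces rich, recursively -/

namespace Pool.Agent.ELB

open MvPolynomial Pool.Agent.H84Exp Pool.Agent.H84Spl

variable {s : ℕ}

/-- the base predicate for a geometric complex -/
def BK (K : GC s) (F X : Finset (Pt s)) : Prop :=
  F.card + 2 = s ∧ X.Nonempty ∧ ∀ w ∈ X, w ∉ F ∧ K.Fc (insert w F)

theorem BK_mono {K K' : GC s} (h : K.faces ⊆ K'.faces) (F X : Finset (Pt s)) (hB : BK K F X) :
    BK K' F X := ⟨hB.1, hB.2.1, fun w hw => ⟨(hB.2.2 w hw).1, GC.fc_mono h (hB.2.2 w hw).2⟩⟩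

/-- a polynomial vanishing at the points of a finite set -/
theorem exists_avoid (i0 : Fin s) (A : Finset (Pt s)) {g : MvPolynomial (Fin s) ℝ}
    (hg : g ≠ 0) : ∃ g' : MvPolynomial (Fin s) ℝ, g' ≠ 0 ∧
      ∀ z, eval z g' ≠ 0 → eval z g ≠ 0 ∧ z ∉ A := by
  refine ⟨g * ∏ x ∈ A, (X i0 - C (x i0)), mul_ne_zero hg (Finset.prod_ne_zero_iff.2 ?_), ?_⟩
  · intro x _ h0
    have h1 := congrArg (eval (fun _ => x i0 + 1)) h0
    simp at h1
  · intro z hz
    rw [map_mul, map_prod] at hz
    refine ⟨left_ne_zero_of_mul hz, fun hzA => ?_⟩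
    have := (Finset.prod_ne_zero_iff.1 (right_ne_zero_of_mul hz)) z hzA
    simp at this

/-- one face can be made rich -/
def RecD (s ρ0 t : ℕ) : Prop :=
  ∀ (K : GC s), (∀ G ∈ K.faces, G.card + 1 ≤ s) → ∀ (F X : Finset (Pt s)), F.Nonempty →
    X.Nonempty → (∀ w ∈ X, w ∉ F) →
    F.card + t + 2 = s → (∀ w ∈ X, K.Fc (insert w F)) → ∀ U : Set (Pt s), IsOpen U →
    Convex ℝ U → (F : Set (Pt s)) ⊆ U → (X : Set (Pt s)) ⊆ U →
    ∃ K' : GC s, K.faces ⊆ K'.faces ∧ (∀ G ∈ K'.faces, G.card + 1 ≤ s) ∧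
      (∀ G ∈ K'.faces, G ∉ K.faces → (G : Set (Pt s)) ⊆ U) ∧ CD (BK K') ρ0 t F X

/-- finitely many faces can be made rich -/
theorem recD_all {ρ0 t : ℕ} (hrec : RecD s ρ0 t) {ι : Type} (J : Finset ι)
    (F X : ι → Finset (Pt s)) (U : ι → Set (Pt s)) (K : GC s)
    (hK : ∀ G ∈ K.faces, G.card + 1 ≤ s)
    (h : ∀ j ∈ J, (F j).Nonempty ∧ (X j).Nonempty ∧ (∀ w ∈ X j, w ∉ F j) ∧
      (F j).card + t + 2 = s ∧
      (∀ w ∈ X j, K.Fc (insert w (F j))) ∧ IsOpen (U j) ∧ Convex ℝ (U j) ∧
      (F j : Set (Pt s)) ⊆ U j ∧ (X j : Set (Pt s)) ⊆ U j) :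
    ∃ K' : GC s, K.faces ⊆ K'.faces ∧ (∀ G ∈ K'.faces, G.card + 1 ≤ s) ∧
      (∀ G ∈ K'.faces, G ∉ K.faces → ∃ j ∈ J, (G : Set (Pt s)) ⊆ U j) ∧
      ∀ j ∈ J, CD (BK K') ρ0 t (F j) (X j) := by
  classical
  induction J using Finset.induction_on generalizing K with
  | empty =>
    refine ⟨K, subset_rfl, hK, ?_, ?_⟩
    · intro G hG hG'
      exact absurd hG hG'
    · intro j hj
      simp at hj
  | insert j0 J hj0 ih =>
    obtain ⟨hne, hXne, hdis, hcard, hX, hU, hUc, hFU, hXU⟩ := h j0 (Finset.mem_insert_self _ _)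
    obtain ⟨K1, hK1, hK1c, hK1n, hCC⟩ :=
      hrec K hK (F j0) (X j0) hne hXne hdis hcard hX (U j0) hU hUc hFU hXU
    obtain ⟨K2, hK2, hK2c, hK2n, hCC2⟩ := ih K1 hK1c (fun j hj => by
      obtain ⟨a1, a2, a3, a4, a5, a6, a7, a8, a9⟩ := h j (Finset.mem_insert_of_mem hj)
      exact ⟨a1, a2, a3, a4, fun w hw => GC.fc_mono hK1 (a5 w hw), a6, a7, a8, a9⟩)
    refine ⟨K2, hK1.trans hK2, hK2c, ?_, ?_⟩
    · intro G hG hG'
      by_cases hG1 : G ∈ K1.faces
      · exact ⟨j0, Finset.mem_insert_self _ _, hK1n G hG1 hG'⟩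
      · obtain ⟨j, hj, hGj⟩ := hK2n G hG hG1
        exact ⟨j, Finset.mem_insert_of_mem hj, hGj⟩
    · intro j hj
      rcases Finset.mem_insert.1 hj with rfl | hj
      · exact CD_mono (BK_mono hK2) _ _ _ hCC
      · exact hCC2 j hj

theorem recD (s ρ0 t : ℕ) : RecD s ρ0 t := by
  induction t with
  | zero =>
    intro K hK F X _ hXne hdis hcard hX U _ _ _ _
    refine ⟨K, subset_rfl, hK, fun G hG hG' => absurd hG hG', ?_⟩
    exact ⟨by omega, hXne, fun w hw => ⟨hdis w hw, hX w hw⟩⟩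
  | succ t ih =>
    intro K hK F X hF hXne hdis hcard hX U hU hUc hFU hXU
    obtain ⟨i0⟩ : Nonempty (Fin s) := ⟨⟨0, by omega⟩⟩
    obtain ⟨Z, ⟨K1, hK1, hK1c, hK1n, hZU, hZf, hZd⟩, hdet⟩ := det_induction (2 ^ t * ρ0)
      (fun Z => ∃ K1 : GC s, K.faces ⊆ K1.faces ∧ (∀ G ∈ K1.faces, G.card + 1 ≤ s) ∧
        (∀ G ∈ K1.faces, G ∉ K.faces → (G : Set (Pt s)) ⊆ U) ∧ (Z : Set (Pt s)) ⊆ U ∧
        (∀ w ∈ X, ∀ z ∈ Z, K1.Fc (insert z (insert w F))) ∧ ∀ z ∈ Z, z ∉ F ∪ X)
      ⟨K, subset_rfl, hK, fun G hG hG' => absurd hG hG', by simp, by simp, by simp⟩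
      (by
        rintro Z ⟨K1, hK1, hK1c, hK1n, hZU, hZf, hZd⟩ g hg
        have hc : cen F ∈ U := (hUc.convexHull_subset_iff.2 hFU) (cen_mem hF)
        obtain ⟨g', hg', hgg'⟩ := exists_avoid i0 (F ∪ X) hg
        obtain ⟨z, hzU, hzg', K2, hK2⟩ := ext1 K1 hK1c F X hF (by omega)
          (fun w hw => GC.fc_mono hK1 (hX w hw)) hU hc hg'
        obtain ⟨hzg, hzd⟩ := hgg' z hzg'
        have hK12 : K1.faces ⊆ K2.faces := by rw [hK2]; exact Finset.subset_union_left
        refine ⟨z, hzg, K2, hK1.trans hK12, ?_, ?_, ?_, ?_, ?_⟩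
        · intro G hG
          rw [hK2, Finset.mem_union, Finset.mem_image] at hG
          rcases hG with hG | ⟨w, hw, rfl⟩
          · exact hK1c G hG
          · have h1 := Finset.card_insert_le z (insert w F)
            have h2 := Finset.card_insert_le w F
            omega
        · intro G hG hG'
          rw [hK2, Finset.mem_union, Finset.mem_image] at hG
          rcases hG with hG | ⟨w, hw, rfl⟩
          · exact hK1n G hG hG'
          · intro y hy
            rw [Finset.mem_coe, Finset.mem_insert, Finset.mem_insert] at hy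
            rcases hy with rfl | rfl | hy
            · exact hzU
            · exact hXU hw
            · exact hFU hy
        · intro y hy
          rw [Finset.mem_coe, Finset.mem_insert] at hy
          rcases hy with rfl | hy
          · exact hzU
          · exact hZU hy
        · intro w hw z' hz'
          rw [Finset.mem_insert] at hz'
          rcases hz' with rfl | hz'
          · refine ⟨_, ?_, subset_rfl⟩
            rw [hK2, Finset.mem_union, Finset.mem_image]
            exact Or.inr ⟨w, hw, rfl⟩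
          · exact GC.fc_mono hK12 (hZf w hw z' hz')
        · intro z' hz'
          rw [Finset.mem_insert] at hz'
          rcases hz' with rfl | hz'
          · exact hzd
          · exact hZd z' hz')
    have hZne : Z.Nonempty := hdet.nonempty Set.univ_nonempty
    have hKX : ∀ w ∈ X, K1.Fc (insert w F) := fun w hw => GC.fc_mono hK1 (hX w hw)
    obtain ⟨K2, hK2, hK2c, hK2n, hCC2⟩ := recD_all ih X (fun w => insert w F)
      (fun _ => Z) (fun _ => U) K1 hK1c (fun w hw => by
        refine ⟨Finset.insert_nonempty _ _, hZne, ?_, ?_, ?_, hU, hUc, ?_, hZU⟩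
        · intro z hz hzF
          rcases Finset.mem_insert.1 hzF with rfl | hzF
          · exact hZd z hz (Finset.mem_union_right _ hw)
          · exact hZd z hz (Finset.mem_union_left _ hzF)
        · rw [Finset.card_insert_of_notMem (hdis w hw)]
          omega
        · intro z hz
          exact hZf w hw z hz
        · intro y hy
          rw [Finset.mem_coe, Finset.mem_insert] at hy
          rcases hy with rfl | hy
          · exact hXU hw
          · exact hFU hy)
    obtain ⟨K3, hK3, hK3c, hK3n, hCC3⟩ := recD_all ih Z (fun z => insert z F)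
      (fun _ => X) (fun _ => U) K2 hK2c (fun z hz => by
        have hzF : z ∉ F := fun h => hZd z hz (Finset.mem_union_left _ h)
        refine ⟨Finset.insert_nonempty _ _, hXne, ?_, ?_, ?_, hU, hUc, ?_, hXU⟩
        · intro w hw hwF
          rcases Finset.mem_insert.1 hwF with rfl | hwF
          · exact hZd w hz (Finset.mem_union_right _ hw)
          · exact hdis w hw hwF
        · rw [Finset.card_insert_of_notMem hzF]
          omega
        · intro w hw
          rw [Finset.insert_comm]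
          exact GC.fc_mono hK2 (hZf w hw z hz)
        · intro y hy
          rw [Finset.mem_coe, Finset.mem_insert] at hy
          rcases hy with rfl | hy
          · exact hZU hz
          · exact hFU hy)
    refine ⟨K3, (hK1.trans hK2).trans hK3, hK3c, ?_, ?_⟩
    · intro G hG hG'
      by_cases hG2 : G ∈ K2.faces
      · by_cases hG1 : G ∈ K1.faces
        · exact hK1n G hG1 hG'
        · obtain ⟨_, _, h⟩ := hK2n G hG2 hG1
          exact h
      · obtain ⟨_, _, h⟩ := hK3n G hG hG2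
        exact h
    · refine ⟨hXne, Z, hdet, ?_, ?_⟩
      · intro w hw
        exact CD_mono (BK_mono hK3) _ _ _ (hCC2 w hw)
      · intro z hz
        exact hCC3 z hz

end Pool.Agent.ELB
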