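import Pool.Agent.ELB.Fill
import Pool.Agent.ELB.RecD

/-!
# Closing the star of a face of codimension two
-/

namespace Pool.Agent.ELB

open MvPolynomial Pool.Agent.H84Exp

variable {s : ℕ}

theorem SeqOK.tri {π : Pt s → (Fin 3 → ℝ)} {σ : Finset (Pt s)} {w a b c : Pt s}
    (h : SeqOK π σ w a b c) (hI : Ind π σ) :
    (∀ T ∈ Tri w a b c, Ind π T) ∧ ∀ T ∈ Tri w a b c, ∀ T' ∈ Tri w a b c,
      Cn π T ∩ Cn π T' ⊆ Cn π (T ∩ T') := by
  obtain ⟨A, B, C, hσ, hAB, hAC, hBC, ha, hb, hc, hw⟩ := h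
  rw [hσ] at hI
  have c0 : ({A, B, C} : Finset (Pt s)).card = 3 := Finset.card_eq_three.2
    ⟨A, B, C, hAB, hAC, hBC, rfl⟩
  have v1 := not_mem_of_OC hI (by rw [c0]; omega) ha
  have haB : a ≠ B := fun h => v1 (by simp [h])
  have haC : a ≠ C := fun h => v1 (by simp [h])
  have I1 : Ind π {a, B, C} := by
    have := ind_step hI v1 ha (A := A) (by simp)
    rwa [erase3 hAB hAC] at this
  have c1 : ({a, B, C} : Finset (Pt s)).card = 3 := Finset.card_eq_three.2
    ⟨a, B, C, haB, haC, hBC, rfl⟩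
  have v2 := not_mem_of_OC I1 (by rw [c1]; omega) hb
  have hba : b ≠ a := fun h => v2 (by simp [h])
  have hbC : b ≠ C := fun h => v2 (by simp [h])
  have I2 : Ind π {b, a, C} := by
    have := ind_step I1 v2 hb (A := B) (by simp)
    rwa [Finset.insert_comm a B, erase3 (Ne.symm haB) hBC] at this
  have c2 : ({b, a, C} : Finset (Pt s)).card = 3 := Finset.card_eq_three.2
    ⟨b, a, C, hba, hbC, haC, rfl⟩
  have v3 := not_mem_of_OC I2 (by rw [c2]; omega) hc
  have hcb : c ≠ b := fun h => v3 (by simp [h])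
  have hca : c ≠ a := fun h => v3 (by simp [h])
  have eC : ({b, a, C} : Finset (Pt s)).erase C = {b, a} := by
    ext u
    simp only [Finset.mem_erase, Finset.mem_insert, Finset.mem_singleton]
    constructor
    · rintro ⟨h1, h | h | h⟩
      · exact Or.inl h
      · exact Or.inr h
      · exact absurd h h1
    · rintro (h | h)
      · exact ⟨h ▸ hbC, Or.inl h⟩
      · exact ⟨h ▸ haC, Or.inr (Or.inl h)⟩
  have I3 : Ind π {c, b, a} := by
    have := ind_step I2 v3 hc (A := C) (by simp)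
    rwa [eC] at this
  have c3 : ({c, b, a} : Finset (Pt s)).card = 3 := Finset.card_eq_three.2
    ⟨c, b, a, hcb, hca, hba, rfl⟩
  have v4 := not_mem_of_OC I3 (by rw [c3]; omega) hw
  have hex : ∀ T ∈ Tri w a b c, ∃ u ∈ ({c, b, a} : Finset (Pt s)),
      insert w (({c, b, a} : Finset (Pt s)).erase u) = T := by
    intro T hT
    rcases mem_Tri.1 hT with h | h | h
    · exact ⟨c, by simp, by rw [h, erase3 hcb hca, Finset.pair_comm]⟩
    · refine ⟨a, by simp, ?_⟩
      rw [h, Finset.pair_comm b a, Finset.insert_comm c a, erase3 (Ne.symm hca) (Ne.symm hba),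
        Finset.pair_comm]
    · exact ⟨b, by simp, by rw [h, Finset.insert_comm c b, erase3 (Ne.symm hcb) hba]⟩
  constructor
  · intro T hT
    obtain ⟨u, hu, rfl⟩ := hex T hT
    exact ind_step I3 v4 hw hu
  · intro T hT T' hT'
    obtain ⟨u, hu, rfl⟩ := hex T hT
    obtain ⟨u', hu', rfl⟩ := hex T' hT'
    exact inter_new_new I3 v4 hw hu hu'

/-- the three cells around `G` -/
noncomputable def NG (G : Finset (Pt s)) (a b c : Pt s) : Finset (Finset (Pt s)) :=
  {G ∪ {a, b}, G ∪ {b, c}, G ∪ {c, a}}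

theorem mem_NG {G : Finset (Pt s)} {a b c : Pt s} {N : Finset (Pt s)} :
    N ∈ NG G a b c ↔ N = G ∪ {a, b} ∨ N = G ∪ {b, c} ∨ N = G ∪ {c, a} := by
  rw [NG, Finset.mem_insert, Finset.mem_insert, Finset.mem_singleton]

theorem NG_sub {G : Finset (Pt s)} {a b c : Pt s} {N : Finset (Pt s)} (h : N ∈ NG G a b c) :
    G ⊆ N ∧ N ⊆ G ∪ {a, b, c} := by
  rcases mem_NG.1 h with h | h | h <;> rw [h] <;> refine ⟨Finset.subset_union_left, ?_⟩ <;>
    refine Finset.union_subset_union_right ?_ <;> intro x hx <;>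
    simp only [Finset.mem_insert, Finset.mem_singleton] at hx ⊢ <;> tauto

theorem erase_union_insert {G : Finset (Pt s)} {w : Pt s} (hw : w ∈ G) (x y : Pt s) :
    G ∪ {x, y} = G.erase w ∪ {w, x, y} := by
  ext u
  simp only [Finset.mem_union, Finset.mem_erase, Finset.mem_insert, Finset.mem_singleton]
  constructor
  · rintro (h | h)
    · by_cases huw : u = w
      · exact Or.inr (Or.inl huw)
      · exact Or.inl ⟨huw, h⟩
    · exact Or.inr (Or.inr h)
  · rintro (⟨-, h⟩ | h | h)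
    · exact Or.inl h
    · rw [h]; exact Or.inl hw
    · exact Or.inr h

theorem NG_Tri {G : Finset (Pt s)} {a b c w : Pt s} (hw : w ∈ G) {N : Finset (Pt s)} :
    N ∈ NG G a b c ↔ ∃ T ∈ Tri w a b c, N = G.erase w ∪ T := by
  rw [mem_NG]
  constructor
  · rintro (h | h | h)
    · exact ⟨_, mem_Tri.2 (Or.inl rfl), by rw [h, erase_union_insert hw]⟩
    · exact ⟨_, mem_Tri.2 (Or.inr (Or.inl rfl)), by rw [h, erase_union_insert hw]⟩
    · exact ⟨_, mem_Tri.2 (Or.inr (Or.inr rfl)), by rw [h, erase_union_insert hw]⟩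
  · rintro ⟨T, hT, hN⟩
    rcases mem_Tri.1 hT with h | h | h
    · exact Or.inl (by rw [hN, h, erase_union_insert hw])
    · exact Or.inr (Or.inl (by rw [hN, h, erase_union_insert hw]))
    · exact Or.inr (Or.inr (by rw [hN, h, erase_union_insert hw]))

/-- closing the star of one face -/
theorem far_step (K1 : GC s) {G : Finset (Pt s)} (hG : G ∈ K1.faces) (hGc : G.card + 1 = s)
    (hne : G.Nonempty) (hmax : ∀ H ∈ K1.faces, G ⊆ H → H = G)
    (π : Pt s → Pt s → (Fin 3 → ℝ)) (σ : Pt s → Finset (Pt s))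
    (hπ : ∀ w ∈ G, Pj (G.erase w) (π w))
    (hI : ∀ w ∈ G, Ind (π w) (σ w)) (hc : ∀ w ∈ G, (σ w).card = 3)
    (ht : ∀ w ∈ G, π w w ∈ OC (π w) (σ w)) {U : Set (Pt s)} (hU : IsOpen U)
    (hUc : Convex ℝ U) (hGU : (G : Set (Pt s)) ⊆ U) (Bad : Finset (Pt s)) :
    ∃ a b c : Pt s, a ∉ Bad ∧ b ∉ Bad ∧ c ∉ Bad ∧ (∀ w ∈ G, SeqOK (π w) (σ w) w a b c) ∧
      (∀ N ∈ NG G a b c, (N : Set (Pt s)) ⊆ U) ∧
      ∃ K2 : GC s, K2.faces = K1.faces ∪ NG G a b c := by
  have hexV : ∀ H, ∃ V : Set (Pt s), H ∈ K1.faces → ¬ G ⊆ H →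
      IsOpen V ∧ cen G ∈ V ∧ ∀ Z : Finset (Pt s), (∀ z ∈ Z, z ∈ V) →
      convexHull ℝ ((G ∪ Z : Finset (Pt s)) : Set (Pt s)) ∩ convexHull ℝ (H : Set (Pt s)) ⊆
        convexHull ℝ ((G ∩ H : Finset (Pt s)) : Set (Pt s)) := by
    intro H
    by_cases hcH : H ∈ K1.faces ∧ ¬ G ⊆ H
    · obtain ⟨hH, hGH⟩ := hcH
      obtain ⟨V, hV⟩ := nbhd_multi G H G (K1.indep G hG) (K1.indep H hH)
        (K1.inter G hG H hH) subset_rfl hne hGH
      exact ⟨V, fun _ _ => hV⟩
    · exact ⟨∅, fun h1 h2 => absurd ⟨h1, h2⟩ hcH⟩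
  choose V hV using hexV
  have hev : ∀ᶠ z in nhds (cen G), z ∈ U ∧ ∀ H ∈ K1.faces, ¬ G ⊆ H → z ∈ V H := by
    have hcU : cen G ∈ U := convexHull_min hGU hUc (cen_mem hne)
    refine Filter.Eventually.and (hU.mem_nhds hcU) ?_
    rw [Filter.eventually_all_finset]
    intro H hH
    by_cases hGH : G ⊆ H
    · exact Filter.Eventually.of_forall fun z h => absurd hGH h
    · obtain ⟨v1, v2, -⟩ := hV H hH hGH
      have h4 : ∀ᶠ z in nhds (cen G), z ∈ V H := v1.mem_nhds v2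
      exact h4.mono fun z hz _ => hz
  obtain ⟨V0, hV0s, hV0, hcV0⟩ := eventually_nhds_iff.1 hev
  obtain ⟨a, haV, b, hbV, c, hcV, haB, hbB, hcB, hseq⟩ :=
    far_choice hGc π σ hπ hI hc ht hV0 hcV0 Bad
  refine ⟨a, b, c, haB, hbB, hcB, hseq, ?_, ?_⟩
  · intro N hN x hx
    have h1 := (NG_sub hN).2 (Finset.mem_coe.1 hx)
    simp only [Finset.mem_union, Finset.mem_insert, Finset.mem_singleton] at h1
    rcases h1 with h | h | h | h
    · exact hGU (Finset.mem_coe.2 h)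
    · rw [h]; exact (hV0s a haV).1
    · rw [h]; exact (hV0s b hbV).1
    · rw [h]; exact (hV0s c hcV).1
  · obtain ⟨w, hw⟩ := hne
    obtain ⟨htri1, htri2⟩ := (hseq w hw).tri (hI w hw)
    have hFi : AffineIndependent ℝ (fun v : (G.erase w : Finset (Pt s)) => (v : Pt s)) :=
      K1.fc_indep ⟨G, hG, Finset.erase_subset _ _⟩
    refine addF K1 (NG G a b c) ?_ ?_ ?_
    · intro N hN
      obtain ⟨T, hT, rfl⟩ := (NG_Tri hw).1 hN
      exact (hπ w hw).indep hFi (htri1 T hT)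
    · intro N hN N' hN'
      obtain ⟨T, hT, rfl⟩ := (NG_Tri hw).1 hN
      obtain ⟨T', hT', rfl⟩ := (NG_Tri hw).1 hN'
      refine ((hπ w hw).lift (htri1 T hT) ((hπ w hw).disj (htri1 T' hT'))
        (htri2 T hT T' hT')).trans (convexHull_mono (Finset.coe_subset.2 ?_))
      rw [Finset.union_inter_distrib_left]
    · intro N hN H hH
      by_cases hGH : G ⊆ H
      · rw [hmax H hH hGH, Finset.inter_eq_right.2 (NG_sub hN).1]
        exact Set.inter_subset_right
      · obtain ⟨-, -, v3⟩ := hV H hH hGH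
        have hex : ∃ Z : Finset (Pt s), N = G ∪ Z ∧ ∀ z ∈ Z, z ∈ V0 := by
          rcases mem_NG.1 hN with h | h | h
          · refine ⟨_, h, fun z hz => ?_⟩
            simp only [Finset.mem_insert, Finset.mem_singleton] at hz
            rcases hz with rfl | rfl
            · exact haV
            · exact hbV
          · refine ⟨_, h, fun z hz => ?_⟩
            simp only [Finset.mem_insert, Finset.mem_singleton] at hz
            rcases hz with rfl | rfl
            · exact hbV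
            · exact hcV
          · refine ⟨_, h, fun z hz => ?_⟩
            simp only [Finset.mem_insert, Finset.mem_singleton] at hz
            rcases hz with rfl | rfl
            · exact hcV
            · exact haV
        obtain ⟨Z, hZ, hZV⟩ := hex
        have h1 := v3 Z fun z hz => (hV0s z (hZV z hz)).2 H hH hGH
        rw [← hZ] at h1
        exact h1.trans (convexHull_mono (Finset.coe_subset.2
          (Finset.inter_subset_inter_right (NG_sub hN).1)))

/-- closing the stars of all faces of codimension two -/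
theorem far_all (K : GC s) (hK : ∀ G ∈ K.faces, G.card + 1 ≤ s) (hs : 2 ≤ s)
    (π : Finset (Pt s) → Pt s → (Fin 3 → ℝ)) (f : Finset (Pt s) → Pt s → Finset (Pt s))
    (𝒢 : Finset (Finset (Pt s))) (h𝒢 : ∀ G, G ∈ 𝒢 → G ∈ K.faces ∧ G.card + 1 = s)
    (hdata : ∀ G ∈ 𝒢, ∀ w ∈ G, Pj (G.erase w) (π (G.erase w)) ∧
      Ind (π (G.erase w)) (f (G.erase w) w) ∧ (f (G.erase w) w).card = 3 ∧
      π (G.erase w) w ∈ OC (π (G.erase w)) (f (G.erase w) w))
    (𝒰 : Set (Set (Pt s))) (h𝒰 : ∀ U ∈ 𝒰, IsOpen U ∧ Convex ℝ U)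
    (hcov : ∀ H ∈ K.faces, ∃ U ∈ 𝒰, (H : Set (Pt s)) ⊆ U) (Bad : Finset (Pt s))
    (hBad : ∀ G ∈ K.faces, G ⊆ Bad) :
    ∀ 𝒢' : Finset (Finset (Pt s)), 𝒢' ⊆ 𝒢 → ∃ (K1 : GC s) (α β γ : Finset (Pt s) → Pt s),
      K.faces ⊆ K1.faces ∧
      (∀ H ∈ K1.faces, H ∈ K.faces ∨ ∃ G ∈ 𝒢', H ∈ NG G (α G) (β G) (γ G)) ∧
      (∀ G ∈ 𝒢', NG G (α G) (β G) (γ G) ⊆ K1.faces) ∧
      (∀ G ∈ 𝒢', α G ∉ Bad ∧ β G ∉ Bad ∧ γ G ∉ Bad) ∧
      (∀ G ∈ 𝒢', ∀ w ∈ G, SeqOK (π (G.erase w)) (f (G.erase w) w) w (α G) (β G) (γ G)) ∧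
      ∀ H ∈ K1.faces, ∃ U ∈ 𝒰, (H : Set (Pt s)) ⊆ U := by
  intro 𝒢'
  induction 𝒢' using Finset.induction_on with
  | empty =>
    intro _
    exact ⟨K, fun _ => 0, fun _ => 0, fun _ => 0, subset_rfl, fun H hH => Or.inl hH, by simp,
      by simp, by simp, hcov⟩
  | insert G 𝒢' hG𝒢' ih =>
    intro hsub
    obtain ⟨K1, α, β, γ, h1, h2, h3, h4, h5, h6⟩ := ih ((Finset.subset_insert _ _).trans hsub)
    have hG𝒢 : G ∈ 𝒢 := hsub (Finset.mem_insert_self _ _)
    obtain ⟨hGK, hGc⟩ := h𝒢 G hG𝒢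
    obtain ⟨U, hU, hGU⟩ := hcov G hGK
    have hne : G.Nonempty := by rw [← Finset.card_pos]; omega
    have hmax : ∀ H ∈ K1.faces, G ⊆ H → H = G := by
      intro H hH hGH
      rcases h2 H hH with hH | ⟨G', hG', hH⟩
      · refine (Finset.eq_of_subset_of_card_le hGH ?_).symm
        have := hK H hH
        omega
      · exfalso
        have hG'K := h𝒢 G' (hsub (Finset.mem_insert_of_mem hG'))
        obtain ⟨n1, n2, n3⟩ := h4 G' hG'
        have hGG' : G ⊆ G' := by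
          intro x hx
          have hxB : x ∈ Bad := hBad G hGK hx
          have hx' := (NG_sub hH).2 (hGH hx)
          simp only [Finset.mem_union, Finset.mem_insert, Finset.mem_singleton] at hx'
          rcases hx' with h | h | h | h
          · exact h
          · exact absurd (h ▸ hxB) n1
          · exact absurd (h ▸ hxB) n2
          · exact absurd (h ▸ hxB) n3
        have : G = G' := Finset.eq_of_subset_of_card_le hGG' (by omega)
        exact hG𝒢' (this ▸ hG')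
    obtain ⟨a, b, c, ha, hb, hc, hseq, hNU, K2, hK2⟩ := far_step K1 (h1 hGK) hGc hne hmax
      (fun w => π (G.erase w)) (fun w => f (G.erase w) w)
      (fun w hw => (hdata G hG𝒢 w hw).1) (fun w hw => (hdata G hG𝒢 w hw).2.1)
      (fun w hw => (hdata G hG𝒢 w hw).2.2.1) (fun w hw => (hdata G hG𝒢 w hw).2.2.2)
      (h𝒰 U hU).1 (h𝒰 U hU).2 hGU Bad
    have hneG : ∀ G' ∈ 𝒢', G' ≠ G := fun G' hG' h => hG𝒢' (h ▸ hG')
    obtain ⟨α', hα1, hα2⟩ : ∃ α' : Finset (Pt s) → Pt s, α' G = a ∧ ∀ G', G' ≠ G → α' G' = α G' :=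
      ⟨fun G' => if G' = G then a else α G', by simp, fun G' h => by simp [h]⟩
    obtain ⟨β', hβ1, hβ2⟩ : ∃ β' : Finset (Pt s) → Pt s, β' G = b ∧ ∀ G', G' ≠ G → β' G' = β G' :=
      ⟨fun G' => if G' = G then b else β G', by simp, fun G' h => by simp [h]⟩
    obtain ⟨γ', hγ1, hγ2⟩ : ∃ γ' : Finset (Pt s) → Pt s, γ' G = c ∧ ∀ G', G' ≠ G → γ' G' = γ G' :=
      ⟨fun G' => if G' = G then c else γ G', by simp, fun G' h => by simp [h]⟩
    refine ⟨K2, α', β', γ', ?_, ?_, ?_, ?_, ?_, ?_⟩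
    · rw [hK2]; exact h1.trans Finset.subset_union_left
    · intro H hH
      rw [hK2] at hH
      rcases Finset.mem_union.1 hH with hH | hH
      · rcases h2 H hH with hH | ⟨G', hG', hH⟩
        · exact Or.inl hH
        · refine Or.inr ⟨G', Finset.mem_insert_of_mem hG', ?_⟩
          rw [hα2 G' (hneG G' hG'), hβ2 G' (hneG G' hG'), hγ2 G' (hneG G' hG')]
          exact hH
      · refine Or.inr ⟨G, Finset.mem_insert_self _ _, ?_⟩
        rw [hα1, hβ1, hγ1]
        exact hH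
    · intro G' hG'
      rw [hK2]
      rcases Finset.mem_insert.1 hG' with hG' | hG'
      · rw [hG', hα1, hβ1, hγ1]
        exact Finset.subset_union_right
      · rw [hα2 G' (hneG G' hG'), hβ2 G' (hneG G' hG'), hγ2 G' (hneG G' hG')]
        exact (h3 G' hG').trans Finset.subset_union_left
    · intro G' hG'
      rcases Finset.mem_insert.1 hG' with hG' | hG'
      · rw [hG', hα1, hβ1, hγ1]
        exact ⟨ha, hb, hc⟩
      · rw [hα2 G' (hneG G' hG'), hβ2 G' (hneG G' hG'), hγ2 G' (hneG G' hG')]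
        exact h4 G' hG'
    · intro G' hG' w hw
      rcases Finset.mem_insert.1 hG' with hG' | hG'
      · rw [hG'] at hw ⊢
        rw [hα1, hβ1, hγ1]
        exact hseq w hw
      · rw [hα2 G' (hneG G' hG'), hβ2 G' (hneG G' hG'), hγ2 G' (hneG G' hG')]
        exact h5 G' hG' w hw
    · intro H hH
      rw [hK2] at hH
      rcases Finset.mem_union.1 hH with hH | hH
      · exact h6 H hH
      · exact ⟨U, hU, hNU H hH⟩

end Pool.Agent.ELB
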