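import Pool.Agent.ELB.Geo

/-!
# Filling the star of a face of codimension three
-/

namespace Pool.Agent.ELB

open MvPolynomial Pool.Agent.H84Exp

variable {s : ℕ}

theorem pj_near {F : Finset (Pt s)} {π : Pt s → (Fin 3 → ℝ)} (h : Pj F π) (y : Pt s) (ε : ℝ) :
    π (cen F + ε • (y - cen F)) = ε • π y := by
  have h0 : π (cen F) = 0 := by
    obtain ⟨L, f0, hf0, -, -, hL⟩ := id h
    have hc : (F.card : ℝ) ≠ 0 := by
      have := Finset.card_pos.2 ⟨f0, hf0⟩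
      exact_mod_cast this.ne'
    have h1 := h.affine F (fun _ => (F.card : ℝ)⁻¹) (fun v => v) (by
      rw [Finset.sum_const, nsmul_eq_mul, mul_inv_cancel₀ hc])
    have h2 : ∑ v ∈ F, (F.card : ℝ)⁻¹ • π v = 0 :=
      Finset.sum_eq_zero fun v hv => by rw [h.zero hv, smul_zero]
    rw [h2, ← Finset.smul_sum] at h1
    exact h1
  obtain ⟨L, f0, hf0, -, -, hL⟩ := h
  rw [hL] at h0 ⊢
  rw [hL, map_add, map_smul, map_sub, sub_eq_zero.1 h0]
  module

theorem fill_step (K2 : GC s) {F : Finset (Pt s)} (hne : F.Nonempty)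
    (hF : AffineIndependent ℝ (fun v : F => (v : Pt s)))
    {π : Pt s → (Fin 3 → ℝ)} (hπ : Pj F π) {M : Finset (Finset (Pt s))} (hM : Ap π M)
    (Far 𝒱 : Finset (Pt s)) (hin : ∀ S ∈ M, K2.Fc (F ∪ (S ∩ Far)))
    (hof : ∀ H ∈ K2.faces, F ⊆ H → ∃ S ∈ M, H ⊆ F ∪ (S ∩ Far)) (𝒰 : Set (Set (Pt s)))
    (h𝒰 : ∀ U ∈ 𝒰, IsOpen U ∧ Convex ℝ U)
    (hcov : ∀ H ∈ K2.faces, ∃ U ∈ 𝒰, (H : Set (Pt s)) ⊆ U) :
    ∃ (pos : Pt s → Pt s) (K3 : GC s), Ap (fun x => π (pos x)) M ∧ (∀ y ∈ Far, pos y = y) ∧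
      (∀ S ∈ M, ∀ y ∈ S, y ∉ Far → pos y ∉ 𝒱) ∧
      K3.faces = K2.faces ∪ M.image (fun S => F ∪ S.image pos) ∧
      ∀ S ∈ M, ∃ U ∈ 𝒰, ((F ∪ S.image pos : Finset (Pt s)) : Set (Pt s)) ⊆ U := by
  -- the open sets
  have hexU : ∀ S, ∃ U : Set (Pt s), S ∈ M → U ∈ 𝒰 ∧
      ((F ∪ (S ∩ Far) : Finset (Pt s)) : Set (Pt s)) ⊆ U := by
    intro S
    by_cases hS : S ∈ M
    · obtain ⟨H, hH, hsub⟩ := hin S hS
      obtain ⟨U, hU, hHU⟩ := hcov H hH
      exact ⟨U, fun _ => ⟨hU, (Finset.coe_subset.2 hsub).trans hHU⟩⟩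
    · exact ⟨∅, fun h => absurd h hS⟩
  choose U hU using hexU
  have hexV : ∀ S H, ∃ V : Set (Pt s), S ∈ M → H ∈ K2.faces → ¬ F ⊆ H →
      IsOpen V ∧ cen F ∈ V ∧ ∀ Z : Finset (Pt s), (∀ z ∈ Z, z ∈ V) →
      convexHull ℝ (((F ∪ (S ∩ Far)) ∪ Z : Finset (Pt s)) : Set (Pt s)) ∩
        convexHull ℝ (H : Set (Pt s)) ⊆
        convexHull ℝ (((F ∪ (S ∩ Far)) ∩ H : Finset (Pt s)) : Set (Pt s)) := by
    intro S H
    by_cases hc : S ∈ M ∧ H ∈ K2.faces ∧ ¬ F ⊆ H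
    · obtain ⟨hS, hH, hFH⟩ := hc
      obtain ⟨V, hV⟩ := nbhd_multi (F ∪ (S ∩ Far)) H F (K2.fc_indep (hin S hS)) (K2.indep H hH)
        (K2.fc_inter (hin S hS) ⟨H, hH, subset_rfl⟩) Finset.subset_union_left hne hFH
      exact ⟨V, fun _ _ _ => hV⟩
    · exact ⟨∅, fun h1 h2 h3 => absurd ⟨h1, h2, h3⟩ hc⟩
  choose V hV using hexV
  have hev : ∀ᶠ z in nhds (cen F), ∀ S ∈ M, z ∈ U S ∧ ∀ H ∈ K2.faces, ¬ F ⊆ H → z ∈ V S H := by
    rw [Filter.eventually_all_finset]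
    intro S hS
    have hcU : cen F ∈ U S := by
      have h1 : (F : Set (Pt s)) ⊆ U S :=
        (Finset.coe_subset.2 Finset.subset_union_left).trans (hU S hS).2
      exact convexHull_min h1 (h𝒰 _ (hU S hS).1).2 (cen_mem hne)
    refine Filter.Eventually.and ((h𝒰 _ (hU S hS).1).1.mem_nhds hcU) ?_
    rw [Filter.eventually_all_finset]
    intro H hH
    by_cases hFH : F ⊆ H
    · exact Filter.Eventually.of_forall fun z h => absurd hFH h
    · obtain ⟨v1, v2, -⟩ := hV S H hS hH hFH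
      have h4 : ∀ᶠ z in nhds (cen F), z ∈ V S H := v1.mem_nhds v2
      exact h4.mono fun z hz _ => hz
  have hcont : ∀ y : Pt s, ContinuousAt (fun ε : ℝ => cen F + ε • (y - cen F)) 0 := by
    intro y
    fun_prop
  have hev1 : ∀ᶠ ε : ℝ in nhds 0, ∀ y ∈ M.biUnion id, ∀ S ∈ M,
      cen F + ε • (y - cen F) ∈ U S ∧
        ∀ H ∈ K2.faces, ¬ F ⊆ H → cen F + ε • (y - cen F) ∈ V S H := by
    rw [Filter.eventually_all_finset]
    intro y _
    have h5 := (hcont y).eventually (p := fun z => ∀ S ∈ M, z ∈ U S ∧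
      ∀ H ∈ K2.faces, ¬ F ⊆ H → z ∈ V S H) (by simpa using hev)
    exact h5
  have hev2 : ∀ᶠ ε : ℝ in nhdsWithin 0 (Set.Ioi 0), ∀ y ∈ M.biUnion id, ∀ v ∈ 𝒱,
      cen F + ε • (y - cen F) ≠ v := by
    rw [Filter.eventually_all_finset]
    intro y hy
    rw [Filter.eventually_all_finset]
    intro v _
    by_cases hv : v = cen F
    · filter_upwards [self_mem_nhdsWithin (s := Set.Ioi (0 : ℝ))] with ε hε heq
      have hε' : 0 < ε := hε
      obtain ⟨S, hS, hyS⟩ := Finset.mem_biUnion.1 hy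
      have h1 : π y ≠ 0 := (hM.ind hS).ne_zero hyS
      have h2 := pj_near hπ y ε
      rw [heq, hv] at h2
      have h3 := pj_near hπ (cen F) 0
      rw [sub_self, smul_zero, add_zero, zero_smul] at h3
      rw [h3] at h2
      exact h1 ((smul_eq_zero.1 h2.symm).resolve_left hε'.ne')
    · refine Filter.Eventually.filter_mono nhdsWithin_le_nhds ?_
      refine (hcont y).eventually_ne ?_
      simpa using Ne.symm hv
  obtain ⟨ε, ⟨hε1, hε2⟩, hε0⟩ := (((hev1.filter_mono nhdsWithin_le_nhds).and hev2).and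
    (self_mem_nhdsWithin (s := Set.Ioi (0 : ℝ)))).exists
  have hε0' : 0 < ε := hε0
  obtain ⟨pos, hpos1, hpos2⟩ : ∃ pos : Pt s → Pt s, (∀ y ∈ Far, pos y = y) ∧
      ∀ y, y ∉ Far → pos y = cen F + ε • (y - cen F) :=
    ⟨fun y => if y ∈ Far then y else cen F + ε • (y - cen F), fun y hy => by simp [hy],
      fun y hy => by simp [hy]⟩
  have hAp : Ap (fun x => π (pos x)) M := by
    refine hM.scale (k := fun y => if y ∈ Far then 1 else ε) ?_ ?_
    · intro v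
      by_cases hv : v ∈ Far
      · simp [hv]
      · simpa [hv] using hε0'
    · intro S _ v _
      by_cases hv : v ∈ Far
      · simp [hv, hpos1 v hv]
      · simp only [hv, if_false]
        rw [hpos2 v hv, pj_near hπ]
  have hlab : ∀ S ∈ M, ∀ y ∈ S, y ∈ M.biUnion id := fun S hS y hy =>
    Finset.mem_biUnion.2 ⟨S, hS, hy⟩
  -- decomposition of a new face
  have hdec : ∀ S ∈ M, F ∪ S.image pos = (F ∪ (S ∩ Far)) ∪ (S.filter fun y => y ∉ Far).image pos := by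
    intro S _
    ext x
    simp only [Finset.mem_union, Finset.mem_image, Finset.mem_inter, Finset.mem_filter]
    constructor
    · rintro (h | ⟨y, hy, rfl⟩)
      · exact Or.inl (Or.inl h)
      · by_cases hyF : y ∈ Far
        · rw [hpos1 y hyF]
          exact Or.inl (Or.inr ⟨hy, hyF⟩)
        · exact Or.inr ⟨y, ⟨hy, hyF⟩, rfl⟩
    · rintro ((h | ⟨h1, h2⟩) | ⟨y, ⟨hy, -⟩, rfl⟩)
      · exact Or.inl h
      · exact Or.inr ⟨x, h1, hpos1 x h2⟩
      · exact Or.inr ⟨y, hy, rfl⟩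
  have hfar_sub : ∀ S, F ∪ (S ∩ Far) ⊆ F ∪ S.image pos := by
    intro S x hx
    rcases Finset.mem_union.1 hx with hx | hx
    · exact Finset.mem_union_left _ hx
    · obtain ⟨h1, h2⟩ := Finset.mem_inter.1 hx
      exact Finset.mem_union_right _ (Finset.mem_image.2 ⟨x, h1, hpos1 x h2⟩)
  have hZ : ∀ S ∈ M, ∀ z ∈ (S.filter fun y => y ∉ Far).image pos, ∀ S' ∈ M,
      z ∈ U S' ∧ ∀ H ∈ K2.faces, ¬ F ⊆ H → z ∈ V S' H := by
    intro S hS z hz S' hS'
    obtain ⟨y, hy, rfl⟩ := Finset.mem_image.1 hz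
    obtain ⟨hyS, hyF⟩ := Finset.mem_filter.1 hy
    rw [hpos2 y hyF]
    exact hε1 y (hlab S hS y hyS) S' hS'
  obtain ⟨hcells1, hcells2⟩ := fan_cells hF hπ hAp
  obtain ⟨K3, hK3⟩ := addF K2 (M.image (fun S => F ∪ S.image pos))
    (by
      intro N hN
      obtain ⟨S, hS, rfl⟩ := Finset.mem_image.1 hN
      exact (hcells1 S hS).1)
    (by
      intro N hN N' hN'
      obtain ⟨S, hS, rfl⟩ := Finset.mem_image.1 hN
      obtain ⟨S', hS', rfl⟩ := Finset.mem_image.1 hN'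
      exact hcells2 S hS S' hS')
    (by
      intro N hN H hH
      obtain ⟨S, hS, rfl⟩ := Finset.mem_image.1 hN
      by_cases hFH : F ⊆ H
      · obtain ⟨T, hT, hHT⟩ := hof H hH hFH
        exact conv_sub (hcells1 T hT).1 (hcells2 S hS T hT) (hHT.trans (hfar_sub T))
      · obtain ⟨-, -, v3⟩ := hV S H hS hH hFH
        have h1 := v3 ((S.filter fun y => y ∉ Far).image pos)
          (fun z hz => (hZ S hS z hz S hS).2 H hH hFH)
        rw [← hdec S hS] at h1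
        exact h1.trans (convexHull_mono (Finset.coe_subset.2
          (Finset.inter_subset_inter_right (hfar_sub S)))))
  refine ⟨pos, K3, hAp, hpos1, ?_, hK3, ?_⟩
  · intro S hS y hy hyF hpy
    rw [hpos2 y hyF] at hpy
    exact hε2 y (hlab S hS y hy) _ hpy rfl
  · intro S hS
    refine ⟨U S, (hU S hS).1, ?_⟩
    rw [hdec S hS]
    intro x hx
    rcases Finset.mem_union.1 (Finset.mem_coe.1 hx) with hx | hx
    · exact (hU S hS).2 (Finset.mem_coe.2 hx)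
    · exact (hZ S hS x hx S hS).1

end Pool.Agent.ELB
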