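import Pool.Agent.ELB.Asm
import Pool.Agent.H84Exp.Ext1

/-!
# Adding families of faces to a geometric complex
-/

namespace Pool.Agent.ELB

open MvPolynomial Pool.Agent.H84Exp

variable {s : ℕ}

theorem inter_sup (A B : Finset (Pt s)) :
    convexHull ℝ ((A ∩ B : Finset (Pt s)) : Set (Pt s)) ⊆
      convexHull ℝ (A : Set (Pt s)) ∩ convexHull ℝ (B : Set (Pt s)) := by
  refine Set.subset_inter (convexHull_mono ?_) (convexHull_mono ?_)
  · exact Finset.coe_subset.2 Finset.inter_subset_left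
  · exact Finset.coe_subset.2 Finset.inter_subset_right

theorem addF (K : GC s) (𝒩 : Finset (Finset (Pt s)))
    (h1 : ∀ N ∈ 𝒩, AffineIndependent ℝ (fun v : N => (v : Pt s)))
    (h2 : ∀ N ∈ 𝒩, ∀ N' ∈ 𝒩, convexHull ℝ (N : Set (Pt s)) ∩ convexHull ℝ (N' : Set (Pt s)) ⊆
      convexHull ℝ ((N ∩ N' : Finset (Pt s)) : Set (Pt s)))
    (h3 : ∀ N ∈ 𝒩, ∀ H ∈ K.faces, convexHull ℝ (N : Set (Pt s)) ∩
      convexHull ℝ (H : Set (Pt s)) ⊆ convexHull ℝ ((N ∩ H : Finset (Pt s)) : Set (Pt s))) :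
    ∃ K' : GC s, K'.faces = K.faces ∪ 𝒩 := by
  refine ⟨⟨K.faces ∪ 𝒩, ?_, ?_⟩, rfl⟩
  · intro G hG
    rcases Finset.mem_union.1 hG with hG | hG
    · exact K.indep G hG
    · exact h1 G hG
  · intro G hG H hH
    rw [← Finset.coe_inter]
    refine subset_antisymm ?_ (inter_sup G H)
    rcases Finset.mem_union.1 hG with hG | hG
    · rcases Finset.mem_union.1 hH with hH | hH
      · rw [K.inter G hG H hH, Finset.coe_inter]
      · rw [Set.inter_comm, Finset.inter_comm]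
        exact h3 H hH G hG
    · rcases Finset.mem_union.1 hH with hH | hH
      · exact h3 G hG H hH
      · exact h2 G hG H hH

/-- several new points near the centroid -/
theorem nbhd_multi (S G F : Finset (Pt s)) (hS : AffineIndependent ℝ (fun v : S => (v : Pt s)))
    (hG : AffineIndependent ℝ (fun v : G => (v : Pt s)))
    (h : convexHull ℝ (S : Set (Pt s)) ∩ convexHull ℝ (G : Set (Pt s)) =
      convexHull ℝ ((S : Set (Pt s)) ∩ (G : Set (Pt s))))
    (hFS : F ⊆ S) (hF : F.Nonempty) (hFG : ¬ F ⊆ G) :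
    ∃ V : Set (Pt s), IsOpen V ∧ cen F ∈ V ∧ ∀ Z : Finset (Pt s), (∀ z ∈ Z, z ∈ V) →
      convexHull ℝ ((S ∪ Z : Finset (Pt s)) : Set (Pt s)) ∩ convexHull ℝ (G : Set (Pt s)) ⊆
        convexHull ℝ ((S ∩ G : Finset (Pt s)) : Set (Pt s)) := by
  obtain ⟨f, c, h1, h2, h3⟩ := sep S G hS hG h
  have hS' : ∀ x ∈ S, c ≤ f x := by
    intro x hx
    by_cases hxG : x ∈ G
    · exact (h1 x hx hxG).ge
    · exact (h2 x hx hxG).le
  have hG' : ∀ x ∈ G, f x ≤ c := by
    intro x hx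
    by_cases hxS : x ∈ S
    · exact (h1 x hxS hx).le
    · exact (h3 x hx hxS).le
  have hGc : ∀ x ∈ convexHull ℝ (G : Set (Pt s)), f x ≤ c := by
    intro x hx
    have hcv : Convex ℝ {y : Pt s | f y ≤ c} := convex_halfSpace_le f.isLinear c
    exact convexHull_min (fun y hy => hG' y (Finset.mem_coe.1 hy)) hcv hx
  have hcen : c < f (cen F) := by
    have hc : 0 < (F.card : ℝ) := by exact_mod_cast hF.card_pos
    rw [cen, map_smul, map_sum, smul_eq_mul, lt_inv_mul_iff₀ hc]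
    obtain ⟨x0, hx0, hx0G⟩ := Finset.not_subset.1 hFG
    have : ∑ _x ∈ F, c < ∑ x ∈ F, f x :=
      Finset.sum_lt_sum (fun x hx => hS' x (hFS hx)) ⟨x0, hx0, h2 x0 (hFS hx0) hx0G⟩
    rwa [Finset.sum_const, nsmul_eq_mul] at this
  refine ⟨{z | c < f z}, isOpen_lt continuous_const f.continuous, hcen, fun Z hZ => ?_⟩
  rintro x ⟨hx1, hx2⟩
  rw [Finset.coe_inter, ← h]
  refine ⟨?_, hx2⟩
  have h4 := hGc x hx2
  rw [Finset.mem_convexHull'] at hx1
  obtain ⟨w, hw0, hw1, hwx⟩ := hx1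
  have hge : ∀ v ∈ S ∪ Z, 0 ≤ w v * (f v - c) := by
    intro v hv
    refine mul_nonneg (hw0 v hv) ?_
    rcases Finset.mem_union.1 hv with hv | hv
    · exact sub_nonneg.2 (hS' v hv)
    · exact sub_nonneg.2 (hZ v hv).le
  have hsum : ∑ v ∈ S ∪ Z, w v * (f v - c) = f x - c := by
    have e1 : f x = ∑ v ∈ S ∪ Z, w v * f v := by
      rw [← hwx, map_sum]
      exact Finset.sum_congr rfl fun v _ => by rw [map_smul, smul_eq_mul]
    rw [e1]
    conv_rhs => rw [← one_mul c, ← hw1, Finset.sum_mul]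
    rw [← Finset.sum_sub_distrib]
    exact Finset.sum_congr rfl fun v _ => by ring
  have hzero : ∀ v ∈ S ∪ Z, w v * (f v - c) = 0 := by
    refine (Finset.sum_eq_zero_iff_of_nonneg hge).1 ?_
    exact le_antisymm (by rw [hsum]; linarith) (Finset.sum_nonneg hge)
  have hwZ : ∀ v ∈ S ∪ Z, v ∉ S → w v = 0 := by
    intro v hv hvS
    have hvZ := (Finset.mem_union.1 hv).resolve_left hvS
    have h5 : c < f v := hZ v hvZ
    exact (mul_eq_zero.1 (hzero v hv)).resolve_right (sub_pos.2 h5).ne'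
  rw [Finset.mem_convexHull']
  refine ⟨w, fun v hv => hw0 v (Finset.mem_union_left _ hv), ?_, ?_⟩
  · rw [← hw1]
    exact Finset.sum_subset Finset.subset_union_left fun v hv hvS => hwZ v hv hvS
  · rw [← hwx]
    exact Finset.sum_subset Finset.subset_union_left fun v hv hvS => by
      rw [hwZ v hv hvS, zero_smul]

/-- intersection with a subset of an affinely independent set -/
theorem conv_sub {A N H : Finset (Pt s)} (hN : AffineIndependent ℝ (fun v : N => (v : Pt s)))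
    (hAN : convexHull ℝ (A : Set (Pt s)) ∩ convexHull ℝ (N : Set (Pt s)) ⊆
      convexHull ℝ ((A ∩ N : Finset (Pt s)) : Set (Pt s))) (hHN : H ⊆ N) :
    convexHull ℝ (A : Set (Pt s)) ∩ convexHull ℝ (H : Set (Pt s)) ⊆
      convexHull ℝ ((A ∩ H : Finset (Pt s)) : Set (Pt s)) := by
  rintro x ⟨hx1, hx2⟩
  have h1 := hAN ⟨hx1, convexHull_mono (Finset.coe_subset.2 hHN) hx2⟩
  have h2 : x ∈ convexHull ℝ (((A ∩ N : Finset (Pt s)) : Set (Pt s)) ∩ (H : Set (Pt s))) := by
    rw [hN.convexHull_inter Finset.inter_subset_right hHN]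
    exact ⟨h1, hx2⟩
  refine convexHull_mono ?_ h2
  intro y hy
  simp only [Finset.coe_inter, Set.mem_inter_iff, Finset.mem_coe] at hy ⊢
  exact ⟨hy.1.1, hy.2⟩

section Image

variable {α V : Type*} [DecidableEq α] [AddCommGroup V] [Module ℝ V] {π : Pt s → V}
  {pos : α → Pt s}

theorem Cn_image_sub {S : Finset α} (hinj : Set.InjOn pos (S : Set α)) :
    Cn π (S.image pos) ⊆ Cn (fun x => π (pos x)) S := by
  rintro x ⟨c, hc, rfl⟩
  rw [Finset.sum_image hinj]
  exact ⟨fun y => c (pos y), fun y hy => hc _ (Finset.mem_image_of_mem _ hy), rfl⟩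

theorem Cn_sub_image {S : Finset α} :
    Cn (fun x => π (pos x)) S ⊆ Cn π (S.image pos) := by
  rintro x ⟨c, hc, rfl⟩
  refine ⟨fun y => ∑ u ∈ S with pos u = y, c u, fun y _ => Finset.sum_nonneg fun u hu =>
    hc u (Finset.mem_filter.1 hu).1, ?_⟩
  rw [← Finset.sum_fiberwise_of_maps_to (t := S.image pos) (g := pos)
    (fun u hu => Finset.mem_image_of_mem _ hu)]
  refine Finset.sum_congr rfl fun y _ => ?_
  rw [Finset.sum_smul]
  refine Finset.sum_congr rfl fun u hu => ?_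
  show c u • π y = c u • π (pos u)
  rw [(Finset.mem_filter.1 hu).2]

end Image

/-- the simplices of a realised fan -/
theorem fan_cells {F : Finset (Pt s)} (hF : AffineIndependent ℝ (fun v : F => (v : Pt s)))
    {π : Pt s → (Fin 3 → ℝ)} (hπ : Pj F π) {α : Type*} [DecidableEq α] {pos : α → Pt s}
    {M : Finset (Finset α)} (hM : Ap (fun x => π (pos x)) M) :
    (∀ S ∈ M, AffineIndependent ℝ (fun v : (F ∪ S.image pos : Finset (Pt s)) => (v : Pt s)) ∧
      (F ∪ S.image pos).card = F.card + 3) ∧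
    ∀ S ∈ M, ∀ T ∈ M, convexHull ℝ ((F ∪ S.image pos : Finset (Pt s)) : Set (Pt s)) ∩
      convexHull ℝ ((F ∪ T.image pos : Finset (Pt s)) : Set (Pt s)) ⊆
      convexHull ℝ (((F ∪ S.image pos) ∩ (F ∪ T.image pos) : Finset (Pt s)) : Set (Pt s)) := by
  constructor
  · intro S hS
    obtain ⟨hinj, hI⟩ := (hM.ind hS).image
    refine ⟨hπ.indep hF hI, ?_⟩
    rw [Finset.card_union_of_disjoint (hπ.disj hI), Finset.card_image_of_injOn hinj, hM.card hS]
  · intro S hS T hT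
    obtain ⟨hinjS, hIS⟩ := (hM.ind hS).image
    obtain ⟨hinjT, hIT⟩ := (hM.ind hT).image
    refine (hπ.lift hIS (hπ.disj hIT) ?_).trans (convexHull_mono (Finset.coe_subset.2 ?_))
    · rintro x ⟨hx1, hx2⟩
      have h1 := hM.inter hS hT ⟨Cn_image_sub hinjS hx1, Cn_image_sub hinjT hx2⟩
      exact Cn_mono (Finset.image_inter_subset _ _ _) (Cn_sub_image h1)
    · rw [Finset.union_inter_distrib_left]

end Pool.Agent.ELB
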