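import Pool.Agent.ELB.Poly3
import Pool.Agent.H84Exp.Nbhd
import Pool.Agent.H84Exp.Gen

/-!
# The closed fan of three cells is rigid in degree at most `(3r+1)/2`
-/

namespace Pool.Agent.ELB

open MvPolynomial Pool.Agent.H84Exp

variable {s : ℕ}

/-- the affine hull of a finite set, by weights -/
def AF (S : Finset (Pt s)) : Set (Pt s) :=
  {q | ∃ w : Pt s → ℝ, ∑ u ∈ S, w u = 1 ∧ ∑ u ∈ S, w u • u = q}

/-- converse of `indep_weights` -/
theorem affInd_of_weights {S : Finset (Pt s)}
    (h : ∀ w : Pt s → ℝ, ∑ x ∈ S, w x = 0 → ∑ x ∈ S, w x • x = 0 → ∀ x ∈ S, w x = 0) :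
    AffineIndependent ℝ (fun v : S => (v : Pt s)) := by
  classical
  rw [affineIndependent_iff]
  intro t w h0 h1 e he
  let w' : Pt s → ℝ := fun x => if hx : x ∈ S then (if (⟨x, hx⟩ : S) ∈ t then w ⟨x, hx⟩ else 0) else 0
  have e1 : ∀ (g : S → ℝ) (f : Pt s → ℝ) , (∀ x : S, f x = g x) →
      ∑ x ∈ S, f x = ∑ x : S, g x := by
    intro g f hfg
    rw [← Finset.sum_coe_sort S f]
    exact Finset.sum_congr rfl fun x _ => hfg x
  have hw0 : ∑ x ∈ S, w' x = 0 := by
    rw [← Finset.sum_coe_sort S w', ← h0, ← Finset.sum_subset (Finset.subset_univ t)]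
    · refine Finset.sum_congr rfl fun x hx => ?_
      simp [w', hx]
    · intro x _ hx
      simp [w', hx]
  have hw1 : ∑ x ∈ S, w' x • x = 0 := by
    rw [← Finset.sum_coe_sort S (fun x => w' x • x), ← h1,
      ← Finset.sum_subset (Finset.subset_univ t)]
    · refine Finset.sum_congr rfl fun x hx => ?_
      simp [w', hx]
    · intro x _ hx
      simp [w', hx]
  have := h w' hw0 hw1 e e.2
  simpa [w', he] using this

theorem eval_AF_zero {S : Finset (Pt s)} (hS : S.Nonempty) {D : MvPolynomial (Fin s) ℝ}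
    (hD : ∀ x ∈ convexHull ℝ (S : Set (Pt s)), eval x D = 0) : ∀ x ∈ AF S, eval x D = 0 := by
  rintro q ⟨w, hw1, hwq⟩
  have hc : (S.card : ℝ) ≠ 0 := by exact_mod_cast hS.card_pos.ne'
  have hcpos : 0 < (S.card : ℝ) := by exact_mod_cast hS.card_pos
  have hzero : aeval (ln (cen S) (q - cen S)) D = 0 := by
    refine Polynomial.eq_zero_of_infinite_isRoot _ ?_
    have hev : ∀ᶠ t : ℝ in nhds 0, ∀ u ∈ S, 0 < (1 - t) * (S.card : ℝ)⁻¹ + t * w u := by
      rw [Filter.eventually_all_finset]
      intro u _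
      have hcont : ContinuousAt (fun t : ℝ => (1 - t) * (S.card : ℝ)⁻¹ + t * w u) 0 := by
        fun_prop
      refine hcont.eventually_const_lt ?_
      simp only [sub_zero, one_mul, zero_mul, add_zero]
      positivity
    have hinf : {t : ℝ | ∀ u ∈ S, 0 < (1 - t) * (S.card : ℝ)⁻¹ + t * w u}.Infinite :=
      infinite_of_mem_nhds 0 hev
    refine hinf.mono ?_
    intro t ht
    show Polynomial.IsRoot _ t
    rw [Polynomial.IsRoot.def, eval_aeval', ln_eval]
    apply hD
    rw [Finset.mem_convexHull']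
    refine ⟨fun u => (1 - t) * (S.card : ℝ)⁻¹ + t * w u, fun u hu => (ht u hu).le, ?_, ?_⟩
    · rw [Finset.sum_add_distrib, ← Finset.mul_sum, ← Finset.mul_sum, hw1, Finset.sum_const,
        nsmul_eq_mul]
      field_simp
      ring
    · have h5 : ∑ u ∈ S, ((1 - t) * (S.card : ℝ)⁻¹ + t * w u) • u =
          (1 - t) • (S.card : ℝ)⁻¹ • ∑ u ∈ S, u + t • ∑ u ∈ S, w u • u := by
        simp only [Finset.smul_sum, add_smul, Finset.sum_add_distrib, mul_smul]
      rw [h5, hwq]
      change (1 - t) • cen S + t • q = _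
      module
  have h1 := congrArg (Polynomial.eval 1) hzero
  rw [eval_aeval', ln_eval, Polynomial.eval_zero] at h1
  rw [one_smul, add_sub_cancel] at h1
  exact h1

theorem VO_AF {r : ℕ} {S : Finset (Pt s)} (hS : S.Nonempty) {D : MvPolynomial (Fin s) ℝ}
    (hD : VO r (convexHull ℝ (S : Set (Pt s))) D) : VO r (AF S) D := by
  induction r generalizing D with
  | zero => exact eval_AF_zero hS hD
  | succ r ih => exact ⟨eval_AF_zero hS hD.1, fun i => ih (hD.2 i)⟩

/-- a polynomial vanishing on the complement of a facet hyperplane is zero -/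
theorem three_aux [DecidableEq (Pt s)] {r e : ℕ} (he : 2 * e + 1 ≤ r) {F : Finset (Pt s)}
    {f x y z : Pt s}
    (hf : f ∈ F) (hx : x ∉ F) (hy : y ∉ F) (hz : z ∉ F) (hxy' : x ≠ y) (hxz' : x ≠ z)
    (hyz' : y ≠ z) (hcard : F.card + 1 = s)
    (hxy : AffineIndependent ℝ (fun v : (insert x (insert y F) : Finset (Pt s)) => (v : Pt s)))
    (hyz : AffineIndependent ℝ (fun v : (insert y (insert z F) : Finset (Pt s)) => (v : Pt s)))
    (hxz : AffineIndependent ℝ (fun v : (insert x (insert z F) : Finset (Pt s)) => (v : Pt s)))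
    {D1 D2 D3 : MvPolynomial (Fin s) ℝ} (hd1 : D1.totalDegree ≤ r + 1 + e)
    (hd2 : D2.totalDegree ≤ r + 1 + e) (hsum : D1 + D2 + D3 = 0)
    (h1 : VO r (convexHull ℝ ((insert x F : Finset (Pt s)) : Set (Pt s))) D1)
    (h2 : VO r (convexHull ℝ ((insert y F : Finset (Pt s)) : Set (Pt s))) D2)
    (h3 : VO r (convexHull ℝ ((insert z F : Finset (Pt s)) : Set (Pt s))) D3) : D2 = 0 := by
  set B : Finset (Pt s) := insert x (insert y F) with hB
  have hxB : x ∉ insert y F := by simp [hx, hxy']
  have hBcard : B.card = s + 1 := by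
    rw [hB, Finset.card_insert_of_notMem hxB, Finset.card_insert_of_notMem hy]
    omega
  have htop : affineSpan ℝ (Set.range (fun v : B => (v : Pt s))) = ⊤ := by
    rw [hxy.affineSpan_eq_top_iff_card_eq_finrank_add_one]
    simp [hBcard]
  let b : AffineBasis B ℝ (Pt s) := ⟨fun v => v, hxy, htop⟩
  -- weights of an arbitrary point
  have hw : ∀ p : Pt s, ∃ w : Pt s → ℝ, (∀ i : B, w i = b.coord i p) ∧
      w x + (w y + ∑ u ∈ F, w u) = 1 ∧ w x • x + (w y • y + ∑ u ∈ F, w u • u) = p := by
    intro p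
    let w : Pt s → ℝ := fun u => if hu : u ∈ B then b.coord ⟨u, hu⟩ p else 0
    have hwi : ∀ i : B, w i = b.coord i p := fun i => by simp [w]
    refine ⟨w, hwi, ?_, ?_⟩
    · have h4 : ∑ u ∈ B, w u = 1 := by
        rw [← Finset.sum_coe_sort B w, ← b.sum_coord_apply_eq_one p]
        exact Finset.sum_congr rfl fun i _ => hwi i
      rwa [hB, Finset.sum_insert hxB, Finset.sum_insert hy] at h4
    · have h4 : ∑ u ∈ B, w u • u = p := by
        rw [← Finset.sum_coe_sort B (fun u => w u • u)]
        conv_rhs => rw [← b.linear_combination_coord_eq_self p]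
        exact Finset.sum_congr rfl fun i _ => by rw [hwi i]; rfl
      rwa [hB, Finset.sum_insert hxB, Finset.sum_insert hy] at h4
  obtain ⟨μ, -, hμ1, hμ2⟩ := hw z
  -- `μ x ≠ 0`, `μ y ≠ 0`
  have hyzF : y ∉ insert z F := by simp [hy, hyz']
  have hxzF : x ∉ insert z F := by simp [hx, hxz']
  have hμx : μ x ≠ 0 := by
    intro h0
    rw [h0, zero_add] at hμ1
    rw [h0, zero_smul, zero_add] at hμ2
    obtain ⟨g, hgz, hg⟩ : ∃ g : Pt s → ℝ, g z = -1 ∧ ∀ u, u ≠ z → g u = μ u :=
      ⟨fun u => if u = z then -1 else μ u, by simp, fun u hu => by simp [hu]⟩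
    have hgF : ∀ u ∈ F, g u = μ u := fun u hu => hg u (fun h => hz (h ▸ hu))
    have h4 := indep_weights hyz g (by
      rw [Finset.sum_insert hyzF, Finset.sum_insert hz, hgz, hg y hyz',
        Finset.sum_congr rfl hgF]
      linarith) (by
      rw [Finset.sum_insert hyzF, Finset.sum_insert hz, hgz, hg y hyz',
        Finset.sum_congr rfl (g := fun u => μ u • u) fun u hu => by rw [hgF u hu]]
      rw [← hμ2]
      module) z (by simp)
    rw [hgz] at h4
    norm_num at h4
  have hμy : μ y ≠ 0 := by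
    intro h0
    rw [h0, zero_add] at hμ1
    rw [h0, zero_smul, zero_add] at hμ2
    obtain ⟨g, hgz, hg⟩ : ∃ g : Pt s → ℝ, g z = -1 ∧ ∀ u, u ≠ z → g u = μ u :=
      ⟨fun u => if u = z then -1 else μ u, by simp, fun u hu => by simp [hu]⟩
    have hgF : ∀ u ∈ F, g u = μ u := fun u hu => hg u (fun h => hz (h ▸ hu))
    have h4 := indep_weights hxz g (by
      rw [Finset.sum_insert hxzF, Finset.sum_insert hz, hgz, hg x hxz',
        Finset.sum_congr rfl hgF]
      linarith) (by
      rw [Finset.sum_insert hxzF, Finset.sum_insert hz, hgz, hg x hxz',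
        Finset.sum_congr rfl (g := fun u => μ u • u) fun u hu => by rw [hgF u hu]]
      rw [← hμ2]
      module) z (by simp)
    rw [hgz] at h4
    norm_num at h4
  -- the line
  have hkey : ∀ p : Pt s, b.coord ⟨y, by simp [hB]⟩ p ≠ 0 → eval p D2 = 0 := by
    intro p hp
    obtain ⟨w, hwb, hw1, hw2⟩ := hw p
    have hwy : w y ≠ 0 := by
      have := hwb ⟨y, by simp [hB]⟩
      rw [← this] at hp
      exact hp
    have hg1 : Polynomial.derivative^[e + 1] (aeval (ln p (x - f)) D1) = 0 := by
      rw [← aeval_DV_iter]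
      have hconv := convex_convexHull ℝ ((insert x F : Finset (Pt s)) : Set (Pt s))
      have hxm : x ∈ convexHull ℝ ((insert x F : Finset (Pt s)) : Set (Pt s)) :=
        subset_convexHull ℝ _ (by simp)
      have hfm : f ∈ convexHull ℝ ((insert x F : Finset (Pt s)) : Set (Pt s)) :=
        subset_convexHull ℝ _ (by simp [hf])
      have h4 := VO_DV_iter hconv hxm hfm (e + 1) h1
      have h5 : ((DV (x - f))^[e + 1] D1).totalDegree ≤ r :=
        totalDegree_DV_iter _ _ (by omega)
      rw [eq_zero_of_VO ⟨x, hxm⟩ h5 h4, map_zero]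
    have hyf : y ≠ f := fun h => hy (h ▸ hf)
    have hzf : z ≠ f := fun h => hz (h ▸ hf)
    have hty : p + (-w x) • (x - f) ∈ AF (insert y F) := by
      obtain ⟨g, hgf, hg⟩ : ∃ g : Pt s → ℝ, g f = w f + w x ∧ ∀ u, u ≠ f → g u = w u :=
        ⟨fun u => if u = f then w f + w x else w u, by simp, fun u hu => by simp [hu]⟩
      have hgF : ∀ u ∈ F.erase f, g u = w u := fun u hu => hg u (Finset.ne_of_mem_erase hu)
      refine ⟨g, ?_, ?_⟩
      · rw [Finset.sum_insert hy, hg y hyf, ← Finset.add_sum_erase F _ hf, hgf,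
          Finset.sum_congr rfl hgF]
        rw [← Finset.add_sum_erase F _ hf] at hw1
        linarith
      · rw [Finset.sum_insert hy, hg y hyf, ← Finset.add_sum_erase F _ hf, hgf,
          Finset.sum_congr rfl (g := fun u => w u • u) fun u hu => by rw [hgF u hu]]
        rw [← Finset.add_sum_erase F _ hf] at hw2
        rw [← hw2]
        module
    set κ : ℝ := w y / μ y with hκ
    have hκy : κ * μ y = w y := by rw [hκ]; field_simp
    have htz : p + (μ x * κ - w x) • (x - f) ∈ AF (insert z F) := by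
      obtain ⟨g, hgz, hgf, hg⟩ : ∃ g : Pt s → ℝ, g z = κ ∧
          g f = w f - κ * μ f - (μ x * κ - w x) ∧ ∀ u, u ≠ z → u ≠ f → g u = w u - κ * μ u :=
        ⟨fun u => if u = z then κ else
          (if u = f then w f - κ * μ f - (μ x * κ - w x) else w u - κ * μ u), by simp,
          by simp [Ne.symm hzf], fun u hu hu' => by simp [hu, hu']⟩
      have hgF : ∀ u ∈ F.erase f, g u = w u - κ * μ u := fun u hu =>
        hg u (fun h => hz (h ▸ Finset.mem_of_mem_erase hu)) (Finset.ne_of_mem_erase hu)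
      refine ⟨g, ?_, ?_⟩
      · rw [Finset.sum_insert hz, hgz, ← Finset.add_sum_erase F _ hf, hgf,
          Finset.sum_congr rfl hgF]
        rw [← Finset.add_sum_erase F _ hf] at hw1 hμ1
        rw [Finset.sum_sub_distrib, ← Finset.mul_sum]
        linear_combination hw1 - κ * hμ1 + hκy
      · rw [Finset.sum_insert hz, hgz, ← Finset.add_sum_erase F _ hf, hgf,
          Finset.sum_congr rfl (g := fun u => w u • u - κ • (μ u • u)) fun u hu => by
            rw [hgF u hu, sub_smul, mul_smul]]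
        rw [← Finset.add_sum_erase F _ hf] at hw2 hμ2
        rw [Finset.sum_sub_distrib, ← Finset.smul_sum]
        have hκy' : (κ * μ y) • y = w y • y := by rw [hκy]
        have h5 : κ • z = κ • (μ x • x + (μ y • y + (μ f • f + ∑ u ∈ F.erase f, μ u • u))) := by
          rw [hμ2]
        rw [h5, ← hw2, ← hκy']
        module
    have hne : (-w x : ℝ) ≠ μ x * κ - w x := by
      intro h
      have h6 : μ x * κ = 0 := by linarith
      rcases mul_eq_zero.1 h6 with h7 | h7
      · exact hμx h7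
      · rw [hκ, div_eq_zero_iff] at h7
        rcases h7 with h7 | h7
        · exact hwy h7
        · exact hμy h7
    have hv2 : VO r {p + (-w x) • (x - f)} D2 :=
      VO_mono le_rfl (Set.singleton_subset_iff.2 hty) (VO_AF ⟨y, by simp⟩ h2)
    have hv3 : VO r {p + (μ x * κ - w x) • (x - f)} D3 :=
      VO_mono le_rfl (Set.singleton_subset_iff.2 htz) (VO_AF ⟨z, by simp⟩ h3)
    have hz2 := poly3 he hne (g1 := aeval (ln p (x - f)) D1) (g2 := aeval (ln p (x - f)) D2)
      (g3 := aeval (ln p (x - f)) D3)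
      (by rw [← map_add, ← map_add, hsum, map_zero]) hg1
      ((natDegree_aeval_ln _ _ _).trans hd2) (dvd_of_VO hv2) (dvd_of_VO hv3)
    have h8 := congrArg (Polynomial.eval 0) hz2
    rw [eval_aeval', ln_eval, Polynomial.eval_zero, zero_smul, add_zero] at h8
    exact h8
  -- conclude
  let U : Set (Pt s) := {p | b.coord ⟨y, by simp [hB]⟩ p ≠ 0}
  have hUo : IsOpen U := isOpen_ne_fun (continuous_barycentric_coord b _) continuous_const
  have hUne : U.Nonempty := ⟨y, by
    show b.coord ⟨y, _⟩ y ≠ 0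
    have := b.coord_apply_eq (⟨y, by simp [hB]⟩ : B)
    have hyb : (b ⟨y, by simp [hB]⟩ : Pt s) = y := rfl
    rw [hyb] at this
    rw [this]
    exact one_ne_zero⟩
  by_contra hD
  obtain ⟨p, hpU, hp⟩ := exists_mem_open hUo hUne hD
  exact hp (hkey p hpU)

end Pool.Agent.ELB
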