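import Pool.Agent.ELB.Fan
import Pool.Agent.ELB.Three
import Pool.Agent.H84Exp.ExtC

/-!
# Projection along a face of codimension three
-/

namespace Pool.Agent.ELB

open MvPolynomial Pool.Agent.H84Exp

variable {s : ℕ}

/-- `π` is a projection of `R^s` along the affine span of `F` to a three-dimensional space -/
def Pj (F : Finset (Pt s)) (π : Pt s → (Fin 3 → ℝ)) : Prop :=
  ∃ (L : Pt s →ₗ[ℝ] (Fin 3 → ℝ)) (f0 : Pt s), f0 ∈ F ∧ Function.Surjective L ∧
    LinearMap.ker L = vectorSpan ℝ (F : Set (Pt s)) ∧ ∀ p, π p = L p - L f0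

theorem exists_pj {F : Finset (Pt s)} (hF : AffineIndependent ℝ (fun v : F => (v : Pt s)))
    (hne : F.Nonempty) (hcard : F.card + 2 = s) : ∃ π, Pj F π := by
  obtain ⟨f0, hf0⟩ := hne
  have h1 : Module.finrank ℝ (vectorSpan ℝ (F : Set (Pt s))) = F.card - 1 := by
    have h2 := hF.finrank_vectorSpan (n := F.card - 1) (by
      have := Finset.card_pos.2 ⟨f0, hf0⟩
      rw [Fintype.card_coe]
      omega)
    have h3 : Set.range (fun v : F => (v : Pt s)) = (F : Set (Pt s)) := by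
      ext x; simp
    rwa [h3] at h2
  have h4 : Module.finrank ℝ (Pt s ⧸ vectorSpan ℝ (F : Set (Pt s))) +
      Module.finrank ℝ (vectorSpan ℝ (F : Set (Pt s))) = Module.finrank ℝ (Pt s) :=
    Submodule.finrank_quotient_add_finrank _
  have h5 : Module.finrank ℝ (Pt s) = s := Module.finrank_fin_fun ℝ
  have hpos := Finset.card_pos.2 ⟨f0, hf0⟩
  have h6 : Module.finrank ℝ (Pt s ⧸ vectorSpan ℝ (F : Set (Pt s))) =
      Module.finrank ℝ (Fin 3 → ℝ) := by
    rw [Module.finrank_fin_fun]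
    omega
  let e := LinearEquiv.ofFinrankEq (Pt s ⧸ vectorSpan ℝ (F : Set (Pt s))) (Fin 3 → ℝ) h6
  refine ⟨fun p => (e.toLinearMap ∘ₗ (vectorSpan ℝ (F : Set (Pt s))).mkQ) p -
    (e.toLinearMap ∘ₗ (vectorSpan ℝ (F : Set (Pt s))).mkQ) f0, _, f0, hf0, ?_, ?_, fun p => rfl⟩
  · exact e.surjective.comp (Submodule.mkQ_surjective _)
  · rw [LinearMap.ker_comp, LinearEquiv.ker, Submodule.comap_bot, Submodule.ker_mkQ]

theorem Pj.sum {F : Finset (Pt s)} {π : Pt s → (Fin 3 → ℝ)} (h : Pj F π) :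
    ∃ (L : Pt s →ₗ[ℝ] (Fin 3 → ℝ)) (f0 : Pt s), f0 ∈ F ∧
      LinearMap.ker L = vectorSpan ℝ (F : Set (Pt s)) ∧
      ∀ {ι : Type} (S : Finset ι) (w : ι → ℝ) (g : ι → Pt s),
      ∑ v ∈ S, w v • π (g v) = L (∑ v ∈ S, w v • g v) - (∑ v ∈ S, w v) • L f0 := by
  obtain ⟨L, f0, hf0, -, hk, hL⟩ := h
  refine ⟨L, f0, hf0, hk, fun S w g => ?_⟩
  simp only [hL, smul_sub, Finset.sum_sub_distrib, map_sum, map_smul, Finset.sum_smul]

theorem Pj.zero {F : Finset (Pt s)} {π : Pt s → (Fin 3 → ℝ)} (h : Pj F π) {v : Pt s}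
    (hv : v ∈ F) : π v = 0 := by
  obtain ⟨L, f0, hf0, -, hk, hL⟩ := h
  rw [hL, ← map_sub, ← LinearMap.mem_ker, hk]
  exact vsub_mem_vectorSpan ℝ (Finset.mem_coe.2 hv) (Finset.mem_coe.2 hf0)

theorem Pj.affine {F : Finset (Pt s)} {π : Pt s → (Fin 3 → ℝ)} (h : Pj F π) {ι : Type}
    (S : Finset ι) (w : ι → ℝ) (g : ι → Pt s) (hw : ∑ v ∈ S, w v = 1) :
    π (∑ v ∈ S, w v • g v) = ∑ v ∈ S, w v • π (g v) := by
  obtain ⟨L, f0, hf0, -, hk, hL⟩ := h
  simp only [hL, smul_sub, Finset.sum_sub_distrib, map_sum, map_smul, ← Finset.sum_smul]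
  rw [hw, one_smul]

theorem Pj.continuous {F : Finset (Pt s)} {π : Pt s → (Fin 3 → ℝ)} (h : Pj F π) :
    Continuous π := by
  obtain ⟨L, f0, -, -, -, hL⟩ := h
  have : π = fun p => L p - L f0 := funext hL
  rw [this]
  exact (LinearMap.continuous_of_finiteDimensional L).sub continuous_const

theorem Pj.surj {F : Finset (Pt s)} {π : Pt s → (Fin 3 → ℝ)} (h : Pj F π) :
    Function.Surjective π := by
  obtain ⟨L, f0, -, hs, -, hL⟩ := h
  intro y
  obtain ⟨p, hp⟩ := hs (y + L f0)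
  exact ⟨p, by rw [hL, hp]; simp⟩

/-- a relation puts a point into an affine span -/
theorem Pj.mem_span {F : Finset (Pt s)} {π : Pt s → (Fin 3 → ℝ)} (h : Pj F π)
    {S : Finset (Pt s)} {c : Pt s → ℝ} (h0 : ∑ v ∈ S, c v • π v = 0) {u : Pt s} (hu : u ∈ S)
    (hcu : c u ≠ 0) : u ∈ affineSpan ℝ ((F ∪ S.erase u : Finset (Pt s)) : Set (Pt s)) := by
  obtain ⟨L, f0, hf0, hk, hsum⟩ := h.sum
  set Q := affineSpan ℝ ((F ∪ S.erase u : Finset (Pt s)) : Set (Pt s)) with hQ
  have hf0Q : f0 ∈ Q := subset_affineSpan ℝ _ (by simp [hf0])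
  have h1 := hsum S c id
  simp only [id] at h1
  rw [h0] at h1
  have h2 : ∑ v ∈ S, c v • (v - f0) ∈ vectorSpan ℝ (F : Set (Pt s)) := by
    rw [← hk, LinearMap.mem_ker]
    simp only [smul_sub, Finset.sum_sub_distrib, ← Finset.sum_smul, map_sub, map_smul]
    exact h1.symm
  have h3 : ∑ v ∈ S, c v • (v - f0) ∈ Q.direction := by
    rw [hQ, direction_affineSpan]
    exact vectorSpan_mono ℝ (by simp) h2
  have h4 : ∑ v ∈ S.erase u, c v • (v - f0) ∈ Q.direction := by
    refine Submodule.sum_mem _ fun v hv => Submodule.smul_mem _ _ ?_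
    refine AffineSubspace.vsub_mem_direction (subset_affineSpan ℝ _ ?_) hf0Q
    simp only [Finset.coe_union, Set.mem_union, Finset.mem_coe]
    exact Or.inr hv
  rw [← Finset.add_sum_erase S _ hu] at h3
  have h5 : c u • (u - f0) ∈ Q.direction := by
    have := Submodule.sub_mem _ h3 h4
    rwa [add_sub_cancel_right] at this
  have h6 : u - f0 ∈ Q.direction := by
    have := Submodule.smul_mem _ (c u)⁻¹ h5
    rwa [smul_smul, inv_mul_cancel₀ hcu, one_smul] at this
  have h7 := AffineSubspace.vadd_mem_of_mem_direction h6 hf0Q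
  rwa [vadd_eq_add, sub_add_cancel] at h7

theorem Pj.disj {F S : Finset (Pt s)} {π : Pt s → (Fin 3 → ℝ)} (h : Pj F π) (hS : Ind π S) :
    Disjoint F S := by
  rw [Finset.disjoint_left]
  intro v hvF hvS
  exact hS.ne_zero hvS (h.zero hvF)

theorem Pj.indep {F S : Finset (Pt s)} {π : Pt s → (Fin 3 → ℝ)} (h : Pj F π)
    (hF : AffineIndependent ℝ (fun v : F => (v : Pt s))) (hS : Ind π S) :
    AffineIndependent ℝ (fun v : (F ∪ S : Finset (Pt s)) => (v : Pt s)) := by
  apply affInd_of_weights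
  intro w h0 h1
  have hd := h.disj hS
  obtain ⟨L, f0, hf0, hk, hsum⟩ := h.sum
  have h2 := hsum (F ∪ S) w id
  simp only [id] at h2
  rw [h0, h1, map_zero, zero_smul, sub_zero, Finset.sum_union hd,
    Finset.sum_eq_zero (s := F) (fun v hv => by rw [h.zero hv, smul_zero]), zero_add] at h2
  have h3 := hS w h2
  rw [Finset.sum_union hd, Finset.sum_eq_zero (s := S) (fun v hv => h3 v hv), add_zero] at h0
  rw [Finset.sum_union hd, Finset.sum_eq_zero (s := S)
    (fun v hv => by rw [h3 v hv, zero_smul]), add_zero] at h1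
  have h4 := indep_weights hF w h0 h1
  intro v hv
  rcases Finset.mem_union.1 hv with hv | hv
  · exact h4 v hv
  · exact h3 v hv

/-- proper intersection of cones lifts to proper intersection of simplices -/
theorem Pj.lift {F S T : Finset (Pt s)} {π : Pt s → (Fin 3 → ℝ)} (h : Pj F π)
    (hS : Ind π S) (hT : Disjoint F T) (hST : Cn π S ∩ Cn π T ⊆ Cn π (S ∩ T)) :
    convexHull ℝ ((F ∪ S : Finset (Pt s)) : Set (Pt s)) ∩
      convexHull ℝ ((F ∪ T : Finset (Pt s)) : Set (Pt s)) ⊆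
      convexHull ℝ ((F ∪ (S ∩ T) : Finset (Pt s)) : Set (Pt s)) := by
  rintro x ⟨hx1, hx2⟩
  rw [Finset.mem_convexHull'] at hx1 hx2 ⊢
  obtain ⟨w, hw0, hw1, hwx⟩ := hx1
  obtain ⟨w', hw0', hw1', hwx'⟩ := hx2
  have hd := h.disj hS
  have e1 : ∑ v ∈ S, w v • π v = π x := by
    rw [← hwx, h.affine _ _ (fun v => v) hw1, Finset.sum_union hd,
      Finset.sum_eq_zero (s := F) (fun v hv => by rw [h.zero hv, smul_zero]), zero_add]
  have e2 : ∑ v ∈ T, w' v • π v = π x := by
    rw [← hwx', h.affine _ _ (fun v => v) hw1', Finset.sum_union hT,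
      Finset.sum_eq_zero (s := F) (fun v hv => by rw [h.zero hv, smul_zero]), zero_add]
  obtain ⟨c, hc, hcx⟩ := hST ⟨⟨w, fun v hv => hw0 v (Finset.mem_union_right _ hv), e1⟩,
    ⟨w', fun v hv => hw0' v (Finset.mem_union_right _ hv), e2⟩⟩
  have h3 := hS.uniq (c := w) (d := fun v => if v ∈ S ∩ T then c v else 0)
    (by rw [ext_sum Finset.inter_subset_left, hcx, e1])
  have h4 : ∀ v ∈ S, v ∉ S ∩ T → w v = 0 := by
    intro v hv hv'
    have := h3 v hv
    simp only [hv', if_false] at this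
    exact this
  have hsub : F ∪ (S ∩ T) ⊆ F ∪ S := Finset.union_subset_union_right Finset.inter_subset_left
  refine ⟨w, fun v hv => hw0 v (hsub hv), ?_, ?_⟩
  · rw [← hw1]
    refine Finset.sum_subset hsub fun v hv hv' => ?_
    rcases Finset.mem_union.1 hv with hv | hv
    · exact absurd (Finset.mem_union_left _ hv) hv'
    · exact h4 v hv fun hh => hv' (Finset.mem_union_right _ hh)
  · rw [← hwx]
    refine Finset.sum_subset hsub fun v hv hv' => ?_
    rcases Finset.mem_union.1 hv with hv | hv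
    · exact absurd (Finset.mem_union_left _ hv) hv'
    · rw [h4 v hv fun hh => hv' (Finset.mem_union_right _ hh), zero_smul]

/-- names and positions -/
theorem Ind.image {α : Type*} {V : Type*} [AddCommGroup V] [Module ℝ V]
    {π : Pt s → V} {pos : α → Pt s} {S : Finset α} [DecidableEq α]
    (h : Ind (fun x => π (pos x)) S) :
    Set.InjOn pos (S : Set α) ∧ Ind π (S.image pos) := by
  have hinj : Set.InjOn pos (S : Set α) := by
    intro a ha b hb hab
    by_contra hne
    have ha' : a ∈ S := ha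
    have hb' : b ∈ S := hb
    have hsub : ({a, b} : Finset α) ⊆ S := by
      intro x hx
      simp only [Finset.mem_insert, Finset.mem_singleton] at hx
      rcases hx with rfl | rfl
      · exact ha'
      · exact hb'
    have h1 := h.mono hsub (fun x => if x = a then 1 else -1) (by
      rw [Finset.sum_pair hne]
      simp only [if_true, if_neg (Ne.symm hne), hab]
      rw [one_smul, neg_one_smul, add_neg_cancel]) a (by simp)
    simp at h1
  refine ⟨hinj, fun c hc => ?_⟩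
  rw [Finset.sum_image hinj] at hc
  have h1 := h (fun x => c (pos x)) hc
  intro v hv
  obtain ⟨x, hx, rfl⟩ := Finset.mem_image.1 hv
  exact h1 x hx

end Pool.Agent.ELB
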