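import Pool.Agent.H84Exp.VO
import Pool.Agent.H84Exp.BOp

/-!
# Three powers of linear forms: restriction to lines

Used for the rigidity of closed fans of three cells in degree at most `(3r+1)/2`
(problem MP_426dd2_an, lower bound).
-/

namespace Pool.Agent.ELB

open MvPolynomial Pool.Agent.H84Exp

variable {s : ℕ}

theorem dvd_iter_zero {a : ℝ} {n : ℕ} {g : Polynomial ℝ}
    (h : (Polynomial.X - Polynomial.C a) ^ n ∣ g) (h0 : Polynomial.derivative^[n] g = 0) :
    g = 0 := by
  induction n generalizing g with
  | zero => simpa using h0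
  | succ n ih =>
    have h1 : Polynomial.derivative (Polynomial.derivative^[n] g) = 0 := by
      rw [← Function.iterate_succ_apply' Polynomial.derivative n g]; exact h0
    have h2 : (Polynomial.derivative^[n] g).natDegree = 0 := Polynomial.derivative_eq_zero.1 h1
    have h3 : (Polynomial.X - Polynomial.C a) ^ (n + 1 - n) ∣ Polynomial.derivative^[n] g :=
      Polynomial.pow_sub_dvd_iterate_derivative_of_pow_dvd n h
    rw [show n + 1 - n = 1 by omega, pow_one, Polynomial.dvd_iff_isRoot] at h3
    rw [Polynomial.eq_C_of_natDegree_eq_zero h2, Polynomial.IsRoot.def, Polynomial.eval_C] at h3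
    have h4 : Polynomial.derivative^[n] g = 0 := by
      rw [Polynomial.eq_C_of_natDegree_eq_zero h2, h3, Polynomial.C_0]
    exact ih ((pow_dvd_pow _ (Nat.le_succ n)).trans h) h4

/-- the one-variable lemma -/
theorem poly3 {r e : ℕ} (he : 2 * e + 1 ≤ r) {g1 g2 g3 : Polynomial ℝ} {a b : ℝ} (hab : a ≠ b)
    (hsum : g1 + g2 + g3 = 0) (h1 : Polynomial.derivative^[e + 1] g1 = 0)
    (hd : g2.natDegree ≤ r + 1 + e) (h2 : (Polynomial.X - Polynomial.C a) ^ (r + 1) ∣ g2)
    (h3 : (Polynomial.X - Polynomial.C b) ^ (r + 1) ∣ g3) : g2 = 0 := by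
  have h23 : Polynomial.derivative^[e + 1] g2 = -Polynomial.derivative^[e + 1] g3 := by
    have h4 : ∀ (n : ℕ) (p q : Polynomial ℝ), Polynomial.derivative^[n] (p + q) =
        Polynomial.derivative^[n] p + Polynomial.derivative^[n] q := by
      intro n
      induction n with
      | zero => intro p q; rfl
      | succ n ih =>
        intro p q
        rw [Function.iterate_succ_apply, Function.iterate_succ_apply, Function.iterate_succ_apply,
          Polynomial.derivative_add, ih]
    have h5 := congrArg (fun g => Polynomial.derivative^[e + 1] g) hsum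
    rw [h4, h4, h1, Polynomial.iterate_derivative_zero, zero_add] at h5
    exact eq_neg_of_add_eq_zero_left h5
  have ha := Polynomial.pow_sub_dvd_iterate_derivative_of_pow_dvd (e + 1) h2
  have hb := Polynomial.pow_sub_dvd_iterate_derivative_of_pow_dvd (e + 1) h3
  rw [show r + 1 - (e + 1) = r - e by omega] at ha hb
  have hb' : (Polynomial.X - Polynomial.C b) ^ (r - e) ∣ Polynomial.derivative^[e + 1] g2 := by
    rw [h23]; exact (dvd_neg).2 hb
  have hco : IsCoprime ((Polynomial.X - Polynomial.C a) ^ (r - e))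
      ((Polynomial.X - Polynomial.C b) ^ (r - e)) :=
    (Polynomial.isCoprime_X_sub_C_of_isUnit_sub (sub_ne_zero.2 hab).isUnit).pow
  have hdvd := hco.mul_dvd ha hb'
  have hz : Polynomial.derivative^[e + 1] g2 = 0 := by
    by_contra hne
    have h4 := Polynomial.natDegree_le_of_dvd hdvd hne
    rw [Polynomial.natDegree_mul (pow_ne_zero _ (Polynomial.X_sub_C_ne_zero a))
      (pow_ne_zero _ (Polynomial.X_sub_C_ne_zero b)), Polynomial.natDegree_pow,
      Polynomial.natDegree_pow, Polynomial.natDegree_X_sub_C, Polynomial.natDegree_X_sub_C] at h4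
    have h5 := Polynomial.natDegree_iterate_derivative g2 (e + 1)
    omega
  exact dvd_iter_zero ((pow_dvd_pow _ (by omega)).trans h2) hz

/-- the line `p + t v` -/
noncomputable def ln (p v : Pt s) : Fin s → Polynomial ℝ :=
  fun i => Polynomial.C (p i) + Polynomial.X * Polynomial.C (v i)

theorem ln_eval (p v : Pt s) (t : ℝ) : (fun i => (ln p v i).eval t) = p + t • v := by
  funext i
  simp [ln]
  ring

/-- directional derivative -/
noncomputable def DV (v : Pt s) (D : MvPolynomial (Fin s) ℝ) : MvPolynomial (Fin s) ℝ :=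
  ∑ i, C (v i) * pderiv i D

theorem DV_eq (x f : Pt s) (D : MvPolynomial (Fin s) ℝ) : DV (x - f) D = EE x D - EE f D := by
  unfold DV EE
  rw [← Finset.sum_sub_distrib]
  refine Finset.sum_congr rfl fun i _ => ?_
  rw [Pi.sub_apply, C_sub]
  ring

theorem VO_DV {r : ℕ} {K : Set (Pt s)} (hK : Convex ℝ K) {x f : Pt s} (hx : x ∈ K) (hf : f ∈ K)
    {D : MvPolynomial (Fin s) ℝ} (hD : VO r K D) : VO r K (DV (x - f) D) := by
  rw [DV_eq]
  exact VO_sub (VO_EE hK hx hD) (VO_EE hK hf hD)

theorem totalDegree_DV {n : ℕ} (v : Pt s) {D : MvPolynomial (Fin s) ℝ}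
    (h : D.totalDegree ≤ n + 1) : (DV v D).totalDegree ≤ n := by
  unfold DV
  refine totalDegree_finsetSum_le fun i _ => ?_
  refine (totalDegree_mul _ _).trans ?_
  rw [totalDegree_C, zero_add]
  exact totalDegree_pderiv_le' h i

theorem VO_DV_iter {r : ℕ} {K : Set (Pt s)} (hK : Convex ℝ K) {x f : Pt s} (hx : x ∈ K)
    (hf : f ∈ K) (m : ℕ) {D : MvPolynomial (Fin s) ℝ} (hD : VO r K D) :
    VO r K ((DV (x - f))^[m] D) := by
  induction m with
  | zero => exact hD
  | succ m ih =>
    rw [Function.iterate_succ_apply']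
    exact VO_DV hK hx hf ih

theorem totalDegree_DV_iter {n : ℕ} (v : Pt s) (m : ℕ) {D : MvPolynomial (Fin s) ℝ}
    (h : D.totalDegree ≤ n + m) : ((DV v)^[m] D).totalDegree ≤ n := by
  induction m generalizing D with
  | zero => exact h
  | succ m ih =>
    rw [Function.iterate_succ_apply]
    exact ih (totalDegree_DV v (by omega))

theorem aeval_DV (p v : Pt s) (D : MvPolynomial (Fin s) ℝ) :
    aeval (ln p v) (DV v D) = Polynomial.derivative (aeval (ln p v) D) := by
  rw [derivative_aeval]
  unfold DV
  rw [map_sum]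
  refine Finset.sum_congr rfl fun i _ => ?_
  rw [map_mul, aeval_C]
  simp [ln]
  ring

theorem aeval_DV_iter (p v : Pt s) (m : ℕ) (D : MvPolynomial (Fin s) ℝ) :
    aeval (ln p v) ((DV v)^[m] D) = Polynomial.derivative^[m] (aeval (ln p v) D) := by
  induction m generalizing D with
  | zero => rfl
  | succ m ih =>
    rw [Function.iterate_succ_apply, Function.iterate_succ_apply, ih, aeval_DV]

theorem natDegree_aeval_ln (p v : Pt s) (D : MvPolynomial (Fin s) ℝ) :
    (aeval (ln p v) D).natDegree ≤ D.totalDegree := by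
  classical
  rw [aeval_def, eval₂_eq']
  refine Polynomial.natDegree_sum_le_of_forall_le _ _ fun d hd => ?_
  refine (Polynomial.natDegree_mul_le).trans ?_
  have h1 : (algebraMap ℝ (Polynomial ℝ) (coeff d D)).natDegree = 0 := by
    exact Polynomial.natDegree_C _
  rw [h1, zero_add]
  refine (Polynomial.natDegree_prod_le _ _).trans ?_
  have h2 : ∀ i, ((ln p v i) ^ d i).natDegree ≤ d i := by
    intro i
    refine (Polynomial.natDegree_pow_le).trans ?_
    have : (ln p v i).natDegree ≤ 1 := by
      unfold ln
      refine (Polynomial.natDegree_add_le _ _).trans ?_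
      rw [Polynomial.natDegree_C]
      refine max_le (by omega) ((Polynomial.natDegree_mul_le).trans ?_)
      simp
    nlinarith
  refine (Finset.sum_le_sum fun i _ => h2 i).trans ?_
  have h3 := le_totalDegree hd
  rwa [Finsupp.sum_fintype _ _ (fun _ => rfl)] at h3

/-- vanishing of order `r` at a point of the line gives a root of multiplicity `r + 1` -/
theorem dvd_of_VO {r : ℕ} {p v : Pt s} {a : ℝ} {D : MvPolynomial (Fin s) ℝ}
    (h : VO r {p + a • v} D) :
    (Polynomial.X - Polynomial.C a) ^ (r + 1) ∣ aeval (ln p v) D := by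
  have hroot : ∀ D : MvPolynomial (Fin s) ℝ, eval (p + a • v) D = 0 →
      (aeval (ln p v) D).IsRoot a := by
    intro D hD
    rw [Polynomial.IsRoot.def, eval_aeval', ln_eval]
    exact hD
  induction r generalizing D with
  | zero =>
    rw [zero_add, pow_one, Polynomial.dvd_iff_isRoot]
    exact hroot D (h _ rfl)
  | succ r ih =>
    have h1 := hroot D (h.1 _ rfl)
    have h2 : (Polynomial.X - Polynomial.C a) ^ (r + 1) ∣
        Polynomial.derivative (aeval (ln p v) D) := by
      rw [derivative_aeval]
      exact Finset.dvd_sum fun i _ => Dvd.dvd.mul_right (ih (h.2 i)) _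
    by_cases h0 : aeval (ln p v) D = 0
    · rw [h0]; exact dvd_zero _
    have h3 := Polynomial.derivative_rootMultiplicity_of_root h1
    by_cases h4 : Polynomial.derivative (aeval (ln p v) D) = 0
    · exfalso
      have h5 : (aeval (ln p v) D).natDegree = 0 := Polynomial.derivative_eq_zero.1 h4
      rw [Polynomial.eq_C_of_natDegree_eq_zero h5, Polynomial.IsRoot.def, Polynomial.eval_C] at h1
      apply h0
      rw [Polynomial.eq_C_of_natDegree_eq_zero h5, h1, Polynomial.C_0]
    have h5 := (Polynomial.le_rootMultiplicity_iff h4).2 h2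
    rw [← Polynomial.le_rootMultiplicity_iff h0]
    omega

end Pool.Agent.ELB
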