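import Pool.Agent.H84Exp.Rigid
import Pool.Agent.H84Exp.DetU

/-!
# Rigidity is doubled with each codimension
-/

namespace Pool.Agent.ELB

open MvPolynomial Pool.Agent.H84Exp Pool.Agent.H84Spl

variable {s : ℕ}

/-- all cells containing `F` have the same polynomial `y ↦ P̂_σ(L, y, ..., y)` of degree `ρ` -/
def SRig (T : Triang s) (r ρ : ℕ) (F : Finset (Pt s)) : Prop :=
  ∀ (k : ℕ) (f : Pt s → ℝ) (P : Finset (Pt s) → MvPolynomial (Fin s) ℝ), Fam T r k f P →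
    ∀ L : List (Pt s), (∀ u ∈ L, u ∈ F) → L.length + ρ = k →
    ∀ σ ∈ T.cells, ∀ τ ∈ T.cells, F ⊆ σ → F ⊆ τ → Bc k L (P σ) = Bc k L (P τ)

/-- richness at the face `F` with respect to the vertices in `X`, with `t` levels -/
def CD (𝓑 : Finset (Pt s) → Finset (Pt s) → Prop) (ρ0 : ℕ) :
    ℕ → Finset (Pt s) → Finset (Pt s) → Prop
  | 0, F, X => 𝓑 F X
  | t + 1, F, X => X.Nonempty ∧ ∃ Z : Finset (Pt s), Det (2 ^ t * ρ0) Z Set.univ ∧
      (∀ w ∈ X, CD 𝓑 ρ0 t (insert w F) Z) ∧ (∀ z ∈ Z, CD 𝓑 ρ0 t (insert z F) X)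

theorem CD_mono {𝓑 𝓑' : Finset (Pt s) → Finset (Pt s) → Prop} (h : ∀ F X, 𝓑 F X → 𝓑' F X)
    {ρ0 : ℕ} : ∀ (t : ℕ) (F X : Finset (Pt s)), CD 𝓑 ρ0 t F X → CD 𝓑' ρ0 t F X := by
  intro t
  induction t with
  | zero => exact fun F X => h F X
  | succ t ih =>
    rintro F X ⟨hX, Z, hZ, h1, h2⟩
    exact ⟨hX, Z, hZ, fun w hw => ih _ _ (h1 w hw), fun z hz => ih _ _ (h2 z hz)⟩

/-- the base predicate for a triangulation -/
def BT (T : Triang s) (r ρ0 : ℕ) (F X : Finset (Pt s)) : Prop :=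
  X.Nonempty ∧ (∀ w ∈ X, Face T (insert w F)) ∧ SRig T r ρ0 F

theorem face_of_CD {T : Triang s} {r ρ0 : ℕ} (t : ℕ) : ∀ (F X : Finset (Pt s)),
    CD (BT T r ρ0) ρ0 t F X → X.Nonempty ∧ ∀ w ∈ X, Face T (insert w F) := by
  induction t with
  | zero =>
    rintro F X ⟨h1, h2, -⟩
    exact ⟨h1, h2⟩
  | succ t ih =>
    rintro F X ⟨hX, Z, hZ, h1, h2⟩
    refine ⟨hX, fun w hw => ?_⟩
    obtain ⟨z, hz⟩ := hZ.nonempty Set.univ_nonempty
    obtain ⟨σ, hσ, hs⟩ := (ih _ _ (h1 w hw)).2 z hz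
    exact ⟨σ, hσ, (Finset.subset_insert _ _).trans hs⟩

/-- `w ↦ P̂_σ(L, w, ..., w)` is, on `X ∪ F`, the restriction of a polynomial of degree `ρ` -/
def RgP (T : Triang s) (k : ℕ) (P : Finset (Pt s) → MvPolynomial (Fin s) ℝ) (ρ : ℕ)
    (L : List (Pt s)) (F X : Finset (Pt s)) : Prop :=
  ∃ G : MvPolynomial (Fin s) ℝ, G.totalDegree ≤ ρ ∧ ∀ w ∈ X ∪ F, ∀ σ ∈ T.cells,
    F ⊆ σ → w ∈ σ → eval w (Bc k L (P σ)) = eval w G

/-- consistency on the common face -/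
theorem eval_consist {T : Triang s} {r k : ℕ} {f : Pt s → ℝ}
    {P : Finset (Pt s) → MvPolynomial (Fin s) ℝ} (hP : Fam T r k f P) {L : List (Pt s)}
    {F : Finset (Pt s)} (hLF : ∀ u ∈ L, u ∈ F) {w : Pt s} (hw : w ∈ F)
    {σ τ : Finset (Pt s)} (hσ : σ ∈ T.cells) (hτ : τ ∈ T.cells) (hFσ : F ⊆ σ) (hFτ : F ⊆ τ) :
    eval w (Bc k L (P σ)) = eval w (Bc k L (P τ)) := by
  have hK : Convex ℝ (convexHull ℝ (σ : Set (Pt s)) ∩ convexHull ℝ (τ : Set (Pt s))) :=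
    (convex_convexHull ℝ _).inter (convex_convexHull ℝ _)
  have hFK : ∀ u ∈ F, u ∈ convexHull ℝ (σ : Set (Pt s)) ∩ convexHull ℝ (τ : Set (Pt s)) :=
    fun u hu => ⟨subset_convexHull ℝ _ (Finset.mem_coe.2 (hFσ hu)),
      subset_convexHull ℝ _ (Finset.mem_coe.2 (hFτ hu))⟩
  have h1 := VO_eval (VO_Bc (k := k) hK (fun u hu => hFK u (hLF u hu)) (hP.2 σ hσ τ hτ)) w
    (hFK w hw)
  rw [Bc_sub, map_sub] at h1
  exact sub_eq_zero.1 h1

theorem rgP_base {T : Triang s} {r k ρ0 : ℕ} {f : Pt s → ℝ}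
    {P : Finset (Pt s) → MvPolynomial (Fin s) ℝ} (hP : Fam T r k f P) {L : List (Pt s)}
    {F X : Finset (Pt s)} (h : BT T r ρ0 F X) (hLF : ∀ u ∈ L, u ∈ F)
    (hlen : L.length + ρ0 = k) : RgP T k P ρ0 L F X := by
  obtain ⟨⟨x0, hx0⟩, hface, hrig⟩ := h
  obtain ⟨σ₀, hσ₀, hs₀⟩ := hface x0 hx0
  have hF₀ : F ⊆ σ₀ := (Finset.subset_insert _ _).trans hs₀
  refine ⟨Bc k L (P σ₀), ?_, ?_⟩
  · have h1 := totalDegree_Bc_le L (hP.1 σ₀ hσ₀).1
    omega
  · intro w _ σ hσ hFσ _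
    rw [hrig k f P hP L hLF hlen σ hσ σ₀ hσ₀ hFσ hF₀]

/-- the doubling lemma -/
theorem rgP_all {T : Triang s} {r k ρ0 : ℕ} {f : Pt s → ℝ}
    {P : Finset (Pt s) → MvPolynomial (Fin s) ℝ} (hP : Fam T r k f P) (t : ℕ) :
    ∀ (F X : Finset (Pt s)), CD (BT T r ρ0) ρ0 t F X → ∀ L : List (Pt s), (∀ u ∈ L, u ∈ F) →
    L.length + 2 ^ t * ρ0 = k → RgP T k P (2 ^ t * ρ0) L F X := by
  induction t with
  | zero =>
    intro F X h L hLF hlen
    rw [pow_zero, one_mul] at hlen ⊢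
    exact rgP_base hP h hLF hlen
  | succ t ih =>
    intro F X h L hLF hlen
    obtain ⟨⟨x0, hx0⟩, Z, ⟨ℓ, hℓ, hdet⟩, hc1, hc2⟩ := h
    have hpow : 2 ^ (t + 1) * ρ0 = 2 * (2 ^ t * ρ0) := by ring
    rw [hpow] at hlen ⊢
    set ρ : ℕ := 2 ^ t * ρ0 with hρ
    have happ : ∀ (w : Pt s) (F' : Finset (Pt s)), F ⊆ F' → w ∈ F' →
        ∀ u ∈ L ++ List.replicate ρ w, u ∈ F' := by
      intro w F' hFF' hw u hu
      rcases List.mem_append.1 hu with hu | hu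
      · exact hFF' (hLF u hu)
      · rw [List.eq_of_mem_replicate hu]
        exact hw
    have hlen' : ∀ w : Pt s, (L ++ List.replicate ρ w).length + ρ = k := by
      intro w
      rw [List.length_append, List.length_replicate]
      omega
    -- the polynomials `H`
    have h2 : ∀ z : Pt s, ∃ H : MvPolynomial (Fin s) ℝ, H.totalDegree ≤ ρ ∧
        (z ∈ Z → ∀ w ∈ X ∪ insert z F, ∀ σ ∈ T.cells, insert z F ⊆ σ → w ∈ σ →
          eval w (Bc k (L ++ List.replicate ρ z) (P σ)) = eval w H) := by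
      intro z
      by_cases hz : z ∈ Z
      · obtain ⟨H, hH1, hH2⟩ := ih _ _ (hc2 z hz) (L ++ List.replicate ρ z)
          (happ z _ (Finset.subset_insert _ _) (Finset.mem_insert_self _ _)) (hlen' z)
        exact ⟨H, hH1, fun _ => hH2⟩
      · exact ⟨0, by simp, fun h => absurd h hz⟩
    choose H hH1 hH2 using h2
    have hcell : ∀ x ∈ X, ∀ z ∈ Z, ∃ τ ∈ T.cells, F ⊆ τ ∧ x ∈ τ ∧ z ∈ τ := by
      intro x hx z hz
      obtain ⟨τ, hτ, hsub⟩ := (face_of_CD t _ _ (hc1 x hx)).2 z hz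
      refine ⟨τ, hτ, ?_, hsub (by simp), hsub (by simp)⟩
      exact ((Finset.subset_insert _ _).trans (Finset.subset_insert _ _)).trans hsub
    -- the common computation
    have main : ∀ x ∈ X, ∀ w, (w = x ∨ w ∈ F) → ∀ σ ∈ T.cells, F ⊆ σ → x ∈ σ →
        eval w (Bc k L (P σ)) = eval w (∑ z ∈ Z, ℓ z * H z) := by
      intro x hx w hw σ hσ hFσ hxσ
      have hwF : w ∈ insert x F := by
        rcases hw with rfl | hw
        · exact Finset.mem_insert_self _ _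
        · exact Finset.mem_insert_of_mem hw
      have hxFσ : insert x F ⊆ σ := Finset.insert_subset hxσ hFσ
      obtain ⟨G, hG1, hG2⟩ := ih _ _ (hc1 x hx) (L ++ List.replicate ρ w)
        (happ w _ (Finset.subset_insert _ _) hwF) (hlen' w)
      have h3 : eval w (Bc k (L ++ List.replicate ρ w) (P σ)) = eval w G :=
        hG2 w (Finset.mem_union_right _ hwF) σ hσ hxFσ (hxFσ hwF)
      rw [Bc_append, eval_Bc_replicate] at h3
      rw [h3, hdet G hG1 w (Set.mem_univ _), map_sum]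
      refine Finset.sum_congr rfl fun z hz => ?_
      rw [map_mul]
      congr 1
      obtain ⟨τ, hτ, hFτ, hxτ, hzτ⟩ := hcell x hx z hz
      have hwτ : w ∈ τ := by
        rcases hw with rfl | hw
        · exact hxτ
        · exact hFτ hw
      rw [← hG2 z (Finset.mem_union_left _ hz) τ hτ (Finset.insert_subset hxτ hFτ) hzτ,
        ← hH2 z hz w ?_ τ hτ (Finset.insert_subset hzτ hFτ) hwτ]
      · exact Bc_symm (by omega) z w (hP.1 τ hτ).1
      · rcases hw with rfl | hw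
        · exact Finset.mem_union_left _ hx
        · exact Finset.mem_union_right _ (Finset.mem_insert_of_mem hw)
    refine ⟨∑ z ∈ Z, ℓ z * H z, ?_, ?_⟩
    · refine totalDegree_finsetSum_le fun z _ => ?_
      refine (totalDegree_mul _ _).trans ?_
      have := hℓ z
      have := hH1 z
      omega
    · intro w hw σ hσ hFσ hwσ
      by_cases hwF : w ∈ F
      · obtain ⟨τ, hτ, hsub⟩ := (face_of_CD (t + 1) F X
          ⟨⟨x0, hx0⟩, Z, ⟨ℓ, hℓ, hdet⟩, hc1, hc2⟩).2 x0 hx0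
        have hFτ : F ⊆ τ := (Finset.subset_insert _ _).trans hsub
        rw [eval_consist hP hLF hwF hσ hτ hFσ hFτ]
        exact main x0 hx0 w (Or.inr hwF) τ hτ hFτ (hsub (Finset.mem_insert_self _ _))
      · have hwX : w ∈ X := (Finset.mem_union.1 hw).resolve_right hwF
        exact main w hwX w (Or.inl rfl) σ hσ hFσ hwσ

end Pool.Agent.ELB
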