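import Pool.Agent.ELB.Pj

/-!
# Stacked fans are rigid in degree at most `(3r+1)/2`
-/

namespace Pool.Agent.ELB

open MvPolynomial Pool.Agent.H84Exp

variable {s : ℕ} {α : Type*} [DecidableEq α]

/-- the cells of the three-fan at `F ∪ {p}` -/
theorem three_eq {r e : ℕ} (he : 2 * e + 1 ≤ r) {F : Finset (Pt s)}
    (hF : AffineIndependent ℝ (fun v : F => (v : Pt s))) (hcard : F.card + 2 = s) {f : Pt s}
    (hf : f ∈ F) {π : Pt s → (Fin 3 → ℝ)} (hπ : Pj F π) {pos : α → Pt s} {p A B C : α}
    (hpA : p ≠ A) (hpB : p ≠ B) (hpC : p ≠ C) (hAB : A ≠ B) (hAC : A ≠ C) (hBC : B ≠ C)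
    (h1 : Ind (fun x => π (pos x)) {p, B, C}) (h2 : Ind (fun x => π (pos x)) {p, A, C})
    (h3 : Ind (fun x => π (pos x)) {p, A, B}) {Q1 Q2 Q3 : MvPolynomial (Fin s) ℝ}
    (hd1 : Q1.totalDegree ≤ r + 1 + e) (hd2 : Q2.totalDegree ≤ r + 1 + e)
    (hd3 : Q3.totalDegree ≤ r + 1 + e)
    (hv12 : VO r (convexHull ℝ ((F ∪ {pos p, pos C} : Finset (Pt s)) : Set (Pt s))) (Q1 - Q2))
    (hv23 : VO r (convexHull ℝ ((F ∪ {pos p, pos A} : Finset (Pt s)) : Set (Pt s))) (Q2 - Q3))
    (hv31 : VO r (convexHull ℝ ((F ∪ {pos p, pos B} : Finset (Pt s)) : Set (Pt s))) (Q3 - Q1)) :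
    Q1 = Q2 ∧ Q2 = Q3 := by
  obtain ⟨hi1, hI1⟩ := h1.image
  obtain ⟨hi2, hI2⟩ := h2.image
  obtain ⟨hi3, hI3⟩ := h3.image
  have hI1' : Ind π {pos p, pos B, pos C} := by
    simpa [Finset.image_insert, Finset.image_singleton] using hI1
  have hI2' : Ind π {pos p, pos A, pos C} := by
    simpa [Finset.image_insert, Finset.image_singleton] using hI2
  have hI3' : Ind π {pos p, pos A, pos B} := by
    simpa [Finset.image_insert, Finset.image_singleton] using hI3
  have npA : pos p ≠ pos A := fun h => hpA (hi2 (by simp) (by simp) h)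
  have npB : pos p ≠ pos B := fun h => hpB (hi1 (by simp) (by simp) h)
  have npC : pos p ≠ pos C := fun h => hpC (hi1 (by simp) (by simp) h)
  have nAB : pos A ≠ pos B := fun h => hAB (hi3 (by simp) (by simp) h)
  have nAC : pos A ≠ pos C := fun h => hAC (hi2 (by simp) (by simp) h)
  have nBC : pos B ≠ pos C := fun h => hBC (hi1 (by simp) (by simp) h)
  have d1 := hπ.disj hI1'
  have d2 := hπ.disj hI2'
  have hp : pos p ∉ F := fun h => Finset.disjoint_left.1 d1 h (by simp)
  have hA : pos A ∉ F := fun h => Finset.disjoint_left.1 d2 h (by simp)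
  have hB : pos B ∉ F := fun h => Finset.disjoint_left.1 d1 h (by simp)
  have hC : pos C ∉ F := fun h => Finset.disjoint_left.1 d1 h (by simp)
  have hs1 : ∀ x y : Pt s, F ∪ {pos p, x, y} = insert x (insert y (insert (pos p) F)) := by
    intro x y
    ext u
    simp only [Finset.mem_union, Finset.mem_insert, Finset.mem_singleton]
    tauto
  have hs2 : ∀ x : Pt s, F ∪ {pos p, x} = insert x (insert (pos p) F) := by
    intro x
    ext u
    simp only [Finset.mem_union, Finset.mem_insert, Finset.mem_singleton]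
    tauto
  have J1 := hπ.indep hF hI1'
  have J2 := hπ.indep hF hI2'
  have J3 := hπ.indep hF hI3'
  rw [hs1] at J1 J2 J3
  rw [hs2] at hv12 hv23 hv31
  have hcard' : (insert (pos p) F).card + 1 = s := by
    rw [Finset.card_insert_of_notMem hp]; omega
  have hmem : ∀ x : Pt s, x ∉ F → pos p ≠ x → x ∉ insert (pos p) F := by
    intro x hx hpx h
    rcases Finset.mem_insert.1 h with h | h
    · exact hpx h.symm
    · exact hx h
  have hfF : f ∈ insert (pos p) F := Finset.mem_insert_of_mem hf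
  have hd12 : (Q1 - Q2).totalDegree ≤ r + 1 + e :=
    (totalDegree_sub _ _).trans (max_le hd1 hd2)
  have hd23 : (Q2 - Q3).totalDegree ≤ r + 1 + e :=
    (totalDegree_sub _ _).trans (max_le hd2 hd3)
  have hd31 : (Q3 - Q1).totalDegree ≤ r + 1 + e :=
    (totalDegree_sub _ _).trans (max_le hd3 hd1)
  have sw : ∀ x y : Pt s, insert x (insert y (insert (pos p) F)) =
      insert y (insert x (insert (pos p) F)) := fun x y => Finset.insert_comm _ _ _
  have J1s := J1
  have J2s := J2
  have J3s := J3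
  rw [sw] at J1s J2s J3s
  -- x = C, y = A, z = B
  have r1 : Q2 - Q3 = 0 := three_aux he hfF (hmem _ hC npC) (hmem _ hA npA) (hmem _ hB npB)
    (Ne.symm nAC) (Ne.symm nBC) nAB hcard' J2s J3 J1s hd12 hd23
    (by ring : (Q1 - Q2) + (Q2 - Q3) + (Q3 - Q1) = 0) hv12 hv23 hv31
  -- x = A, y = C, z = B
  have r2 : Q1 - Q2 = 0 := three_aux he hfF (hmem _ hA npA) (hmem _ hC npC) (hmem _ hB npB)
    nAC nAB (Ne.symm nBC) hcard' J2 J1s J3 hd23 hd12
    (by ring : (Q2 - Q3) + (Q1 - Q2) + (Q3 - Q1) = 0) hv23 hv12 hv31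
  exact ⟨sub_eq_zero.1 r2, sub_eq_zero.1 r1⟩

theorem exists_other {S : Finset α} (hS : S.card = 3) {A B : α} (hA : A ∈ S) (hB : B ∈ S)
    (hAB : A ≠ B) : ∃ C, C ∉ ({A, B} : Finset α) ∧ S = {A, B, C} := by
  have h1 : ((S.erase A).erase B).card = 1 := by
    rw [Finset.card_erase_of_mem (Finset.mem_erase.2 ⟨Ne.symm hAB, hB⟩),
      Finset.card_erase_of_mem hA, hS]
  obtain ⟨C, hC⟩ := Finset.card_eq_one.1 h1
  have hC' : C ∈ (S.erase A).erase B := by rw [hC]; simp
  have h2 := Finset.mem_erase.1 hC'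
  have h3 := Finset.mem_erase.1 h2.2
  refine ⟨C, by simp [h2.1, h3.1], ?_⟩
  rw [← Finset.insert_erase hA, ← Finset.insert_erase (Finset.mem_erase.2 ⟨Ne.symm hAB, hB⟩), hC]

theorem ap_rigid {r e : ℕ} (he : 2 * e + 1 ≤ r) {F : Finset (Pt s)}
    (hF : AffineIndependent ℝ (fun v : F => (v : Pt s))) (hcard : F.card + 2 = s) {f : Pt s}
    (hf : f ∈ F) {π : Pt s → (Fin 3 → ℝ)} (hπ : Pj F π) {pos : α → Pt s}
    {M : Finset (Finset α)} (hM : Ap (fun x => π (pos x)) M)
    (Q : Finset α → MvPolynomial (Fin s) ℝ) (hdeg : ∀ S ∈ M, (Q S).totalDegree ≤ r + 1 + e)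
    (hVO : ∀ S ∈ M, ∀ T ∈ M, VO r (convexHull ℝ ((F ∪ (S ∩ T).image pos : Finset (Pt s)) :
      Set (Pt s))) (Q S - Q T)) : ∀ S ∈ M, ∀ T ∈ M, Q S = Q T := by
  -- three cells around a label
  have key : ∀ M : Finset (Finset α), ∀ Q : Finset α → MvPolynomial (Fin s) ℝ,
      (∀ S ∈ M, Ind (fun x => π (pos x)) S) →
      (∀ S ∈ M, (Q S).totalDegree ≤ r + 1 + e) →
      (∀ S ∈ M, ∀ T ∈ M, VO r (convexHull ℝ ((F ∪ (S ∩ T).image pos : Finset (Pt s)) :
        Set (Pt s))) (Q S - Q T)) → ∀ p A B C : α, p ≠ A → p ≠ B → p ≠ C → A ≠ B → A ≠ C →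
      B ≠ C → {p, B, C} ∈ M → {p, A, C} ∈ M → {p, A, B} ∈ M → Q {p, B, C} = Q {p, A, C} := by
    intro M Q hI hdeg hVO p A B C hpA hpB hpC hAB hAC hBC m1 m2 m3
    have hsub : ∀ (S T : Finset α) (x : α), S ∈ M → T ∈ M → p ∈ S → p ∈ T → x ∈ S → x ∈ T →
        VO r (convexHull ℝ ((F ∪ {pos p, pos x} : Finset (Pt s)) : Set (Pt s))) (Q S - Q T) := by
      intro S T x hS hT h1 h2 h3 h4
      refine VO_mono le_rfl (convexHull_mono ?_) (hVO S hS T hT)
      refine Finset.coe_subset.2 (Finset.union_subset_union_right ?_)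
      intro u hu
      simp only [Finset.mem_insert, Finset.mem_singleton] at hu
      rcases hu with rfl | rfl
      · exact Finset.mem_image_of_mem _ (Finset.mem_inter.2 ⟨h1, h2⟩)
      · exact Finset.mem_image_of_mem _ (Finset.mem_inter.2 ⟨h3, h4⟩)
    exact (three_eq he hF hcard hf hπ hpA hpB hpC hAB hAC hBC (hI _ m1) (hI _ m2) (hI _ m3)
      (hdeg _ m1) (hdeg _ m2) (hdeg _ m3)
      (hsub _ _ C m1 m2 (by simp) (by simp) (by simp) (by simp))
      (hsub _ _ A m2 m3 (by simp) (by simp) (by simp) (by simp))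
      (hsub _ _ B m3 m1 (by simp) (by simp) (by simp) (by simp))).1
  induction hM generalizing Q with
  | base B δ hB hδ h0 hI =>
    have hgood := (Ap.base B δ hB hδ h0 hI).good.1
    intro S hS T hT
    obtain ⟨v, hv, rfl⟩ := Finset.mem_image.1 hS
    obtain ⟨w, hw, rfl⟩ := Finset.mem_image.1 hT
    by_cases hvw : v = w
    · rw [hvw]
    have h1 : (B.erase v).card = 3 := by rw [Finset.card_erase_of_mem hv, hB]
    have hwv : w ∈ B.erase v := Finset.mem_erase.2 ⟨Ne.symm hvw, hw⟩
    obtain ⟨p, hp⟩ : ((B.erase v).erase w).Nonempty := by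
      rw [← Finset.card_pos, Finset.card_erase_of_mem hwv, h1]; omega
    have hp1 := Finset.mem_erase.1 hp
    have hp2 := Finset.mem_erase.1 hp1.2
    obtain ⟨u, hu, hBu⟩ := exists_other h1 hp1.2 hwv hp1.1
    have hu' : u ≠ p ∧ u ≠ w := by
      simp only [Finset.mem_insert, Finset.mem_singleton, not_or] at hu
      exact hu
    have huB : u ∈ B.erase v := by rw [hBu]; simp
    have huv : u ≠ v := Finset.ne_of_mem_erase huB
    have hBall : B = {v, p, w, u} := by rw [← hBu, Finset.insert_erase hv]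
    have e1 : B.erase v = {p, w, u} := hBu
    have e2 : B.erase w = {p, v, u} := by
      rw [hBall]
      ext x
      simp only [Finset.mem_erase, Finset.mem_insert, Finset.mem_singleton]
      constructor
      · tauto
      · rintro (rfl | rfl | rfl)
        · exact ⟨hp1.1, by tauto⟩
        · exact ⟨hvw, by tauto⟩
        · exact ⟨hu'.2, by tauto⟩
    have e3 : B.erase u = {p, v, w} := by
      rw [hBall]
      ext x
      simp only [Finset.mem_erase, Finset.mem_insert, Finset.mem_singleton]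
      constructor
      · tauto
      · rintro (rfl | rfl | rfl)
        · exact ⟨Ne.symm hu'.1, by tauto⟩
        · exact ⟨Ne.symm huv, by tauto⟩
        · exact ⟨Ne.symm hu'.2, by tauto⟩
    rw [e1, e2]
    have m1 : ({p, w, u} : Finset α) ∈ B.image (fun v => B.erase v) := by
      rw [← e1]; exact Finset.mem_image_of_mem _ hv
    have m2 : ({p, v, u} : Finset α) ∈ B.image (fun v => B.erase v) := by
      rw [← e2]; exact Finset.mem_image_of_mem _ hw
    have m3 : ({p, v, w} : Finset α) ∈ B.image (fun v => B.erase v) := by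
      rw [← e3]; exact Finset.mem_image_of_mem _ (Finset.mem_of_mem_erase huB)
    exact key _ Q (fun S hS => (hgood S hS).2) hdeg hVO p v w u hp2.1 hp1.1 (Ne.symm hu'.1) hvw
      (Ne.symm huv) (Ne.symm hu'.2) m1 m2 m3
  | step M S p hM hS hp ih =>
    have hgood := (Ap.step M S p hM hS hp).good.1
    have hSc := hM.card hS
    have hpS : p ∉ S := hM.vertex hS hp S hS
    have hmem : ∀ A ∈ S, insert p (S.erase A) ∈
        (M.erase S) ∪ S.image (fun A => insert p (S.erase A)) := fun A hA =>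
      Finset.mem_union_right _ (Finset.mem_image_of_mem _ hA)
    -- the three new cells
    have hnew : ∀ A ∈ S, ∀ A' ∈ S, Q (insert p (S.erase A)) = Q (insert p (S.erase A')) := by
      intro A hA A' hA'
      by_cases hAA : A = A'
      · rw [hAA]
      obtain ⟨C, hC, hSC⟩ := exists_other hSc hA hA' hAA
      simp only [Finset.mem_insert, Finset.mem_singleton, not_or] at hC
      have hCS : C ∈ S := by rw [hSC]; simp
      have e1 : S.erase A = {A', C} := by
        rw [hSC, Finset.erase_insert]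
        simp only [Finset.mem_insert, Finset.mem_singleton, not_or]
        exact ⟨hAA, Ne.symm hC.1⟩
      have e2 : S.erase A' = {A, C} := by
        rw [hSC, Finset.insert_comm, Finset.erase_insert]
        simp only [Finset.mem_insert, Finset.mem_singleton, not_or]
        exact ⟨Ne.symm hAA, Ne.symm hC.2⟩
      have e3 : S.erase C = {A, A'} := by
        rw [hSC]
        ext x
        simp only [Finset.mem_erase, Finset.mem_insert, Finset.mem_singleton]
        constructor
        · tauto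
        · rintro (rfl | rfl)
          · exact ⟨Ne.symm hC.1, by tauto⟩
          · exact ⟨Ne.symm hC.2, by tauto⟩
      have m1 := hmem A hA
      have m2 := hmem A' hA'
      have m3 := hmem C hCS
      rw [e1] at m1 ⊢
      rw [e2] at m2 ⊢
      rw [e3] at m3
      have hne : ∀ x ∈ S, p ≠ x := fun x hx h => hpS (h ▸ hx)
      exact key _ Q (fun S hS => (hgood S hS).2) hdeg hVO p A A' C (hne _ hA) (hne _ hA')
        (hne _ hCS) hAA (Ne.symm hC.1) (Ne.symm hC.2) m1 m2 m3
    obtain ⟨A0, hA0⟩ : S.Nonempty := by rw [← Finset.card_pos, hSc]; omega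
    obtain ⟨Q', hQ'S, hQ'⟩ : ∃ Q' : Finset α → MvPolynomial (Fin s) ℝ,
        Q' S = Q (insert p (S.erase A0)) ∧ ∀ T, T ≠ S → Q' T = Q T :=
      ⟨fun T => if T = S then Q (insert p (S.erase A0)) else Q T, by simp,
        fun T hT => by simp [hT]⟩
    have hold : ∀ T ∈ M, T ≠ S → T ∈ (M.erase S) ∪ S.image (fun A => insert p (S.erase A)) :=
      fun T hT hTS => Finset.mem_union_left _ (Finset.mem_erase.2 ⟨hTS, hT⟩)
    have hmix : ∀ T ∈ M, T ≠ S → ∃ A ∈ S, S ∩ T ⊆ insert p (S.erase A) ∩ T := by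
      intro T hT hTS
      have hST : ¬ S ⊆ T := fun hsub => hTS
        (Finset.eq_of_subset_of_card_le hsub (by rw [hSc, hM.card hT])).symm
      obtain ⟨A, hAS, hAT⟩ := Finset.not_subset.1 hST
      refine ⟨A, hAS, fun x hx => ?_⟩
      obtain ⟨hxS, hxT⟩ := Finset.mem_inter.1 hx
      refine Finset.mem_inter.2 ⟨Finset.mem_insert_of_mem (Finset.mem_erase.2 ⟨?_, hxS⟩), hxT⟩
      rintro rfl
      exact hAT hxT
    have hQdeg : ∀ T ∈ M, (Q' T).totalDegree ≤ r + 1 + e := by
      intro T hT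
      by_cases hTS : T = S
      · rw [hTS, hQ'S]
        exact hdeg _ (hmem A0 hA0)
      · rw [hQ' T hTS]
        exact hdeg T (hold T hT hTS)
    have hQVO : ∀ T ∈ M, ∀ T' ∈ M, VO r (convexHull ℝ ((F ∪ (T ∩ T').image pos :
        Finset (Pt s)) : Set (Pt s))) (Q' T - Q' T') := by
      intro T hT T' hT'
      by_cases hTS : T = S
      · by_cases hTS' : T' = S
        · rw [hTS, hTS', sub_self]
          exact VO_zero _ _
        · obtain ⟨A, hA, hsub⟩ := hmix T' hT' hTS'
          rw [hTS, hQ'S, hQ' T' hTS', hnew A0 hA0 A hA]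
          refine VO_mono le_rfl (convexHull_mono ?_)
            (hVO _ (hmem A hA) T' (hold T' hT' hTS'))
          exact Finset.coe_subset.2 (Finset.union_subset_union_right
            (Finset.image_subset_image hsub))
      · by_cases hTS' : T' = S
        · obtain ⟨A, hA, hsub⟩ := hmix T hT hTS
          rw [hTS', hQ'S, hQ' T hTS, hnew A0 hA0 A hA]
          refine VO_mono le_rfl (convexHull_mono ?_)
            (hVO T (hold T hT hTS) _ (hmem A hA))
          refine Finset.coe_subset.2 (Finset.union_subset_union_right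
            (Finset.image_subset_image ?_))
          rw [Finset.inter_comm, Finset.inter_comm T]
          exact hsub
        · rw [hQ' T hTS, hQ' T' hTS']
          exact hVO T (hold T hT hTS) T' (hold T' hT' hTS')
    have hIH := ih Q' hQdeg hQVO
    -- every new member is represented by a member of `M`
    have hrep : ∀ T ∈ (M.erase S) ∪ S.image (fun A => insert p (S.erase A)),
        ∃ T' ∈ M, Q T = Q' T' := by
      intro T hT
      rcases Finset.mem_union.1 hT with hT | hT
      · exact ⟨T, Finset.mem_of_mem_erase hT, (hQ' T (Finset.ne_of_mem_erase hT)).symm⟩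
      · obtain ⟨A, hA, rfl⟩ := Finset.mem_image.1 hT
        exact ⟨S, hS, by rw [hQ'S]; exact hnew A hA A0 hA0⟩
    intro T hT T' hT'
    obtain ⟨U, hU, hTU⟩ := hrep T hT
    obtain ⟨U', hU', hTU'⟩ := hrep T' hT'
    rw [hTU, hTU']
    exact hIH U hU U' hU'

end Pool.Agent.ELB
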