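import Pool.Agent.ELB.Pj
import Pool.Agent.H84Exp.Nbhd

/-!
# Choosing a generic ray in a cone
-/

namespace Pool.Agent.ELB

open MvPolynomial Pool.Agent.H84Exp

variable {s : ℕ}

section Coord

variable {α : Type*} [DecidableEq α] {φ : α → (Fin 3 → ℝ)}

theorem exists_coord {S : Finset α} (hI : Ind φ S) (hc : S.card = 3) :
    ∃ co : α → ((Fin 3 → ℝ) →ₗ[ℝ] ℝ), ∀ x, ∑ v ∈ S, co v x • φ v = x := by
  have hli : LinearIndependent ℝ (fun v : S => φ v) := by
    rw [Fintype.linearIndependent_iff]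
    intro g hg i
    have h1 := hI (fun v => if h : v ∈ S then g ⟨v, h⟩ else 0) (by
      rw [← Finset.sum_coe_sort S (fun v => (if h : v ∈ S then g ⟨v, h⟩ else 0) • φ v), ← hg]
      exact Finset.sum_congr rfl fun v _ => by simp) i i.2
    simpa using h1
  have hne : Nonempty S := by
    have : S.Nonempty := by rw [← Finset.card_pos, hc]; omega
    exact this.to_subtype
  let b := basisOfLinearIndependentOfCardEqFinrank hli (by
    rw [Fintype.card_coe, hc, Module.finrank_fin_fun])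
  have hb : ∀ v : S, b v = φ v := fun v => by
    simp [b]
  refine ⟨fun v => if h : v ∈ S then b.coord ⟨v, h⟩ else 0, fun x => ?_⟩
  rw [← Finset.sum_coe_sort S]
  conv_rhs => rw [← b.sum_repr x]
  refine Finset.sum_congr rfl fun v _ => ?_
  rw [hb]
  simp

theorem coord_uniq {S : Finset α} (hI : Ind φ S) {co : α → ((Fin 3 → ℝ) →ₗ[ℝ] ℝ)}
    (hco : ∀ x, ∑ v ∈ S, co v x • φ v = x) {c : α → ℝ} {x : Fin 3 → ℝ}
    (hc : ∑ v ∈ S, c v • φ v = x) : ∀ v ∈ S, co v x = c v := by
  intro v hv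
  exact hI.uniq (c := fun v => co v x) (d := c) (by rw [hco, hc]) v hv

theorem coord_self {S : Finset α} (hI : Ind φ S) {co : α → ((Fin 3 → ℝ) →ₗ[ℝ] ℝ)}
    (hco : ∀ x, ∑ v ∈ S, co v x • φ v = x) {u v : α} (hu : u ∈ S) (hv : v ∈ S)
    (huv : v ≠ u) : co v (φ u) = 0 := by
  have h1 := coord_uniq hI hco (c := fun x => if x = u then 1 else 0) (x := φ u) (by
    simp [Finset.sum_ite_eq', hu]) v hv
  rw [h1, if_neg huv]

theorem mem_OC_iff {S : Finset α} (hI : Ind φ S) {co : α → ((Fin 3 → ℝ) →ₗ[ℝ] ℝ)}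
    (hco : ∀ x, ∑ v ∈ S, co v x • φ v = x) {x : Fin 3 → ℝ} :
    x ∈ OC φ S ↔ ∀ v ∈ S, 0 < co v x := by
  constructor
  · rintro ⟨c, hc, hx⟩ v hv
    rw [coord_uniq hI hco hx v hv]
    exact hc v hv
  · intro h
    exact ⟨fun v => co v x, h, hco x⟩

/-- relocation of a ray after the insertion of another one -/
theorem reloc {S : Finset α} {co : α → ((Fin 3 → ℝ) →ₗ[ℝ] ℝ)}
    (hco : ∀ x, ∑ v ∈ S, co v x • φ v = x) {p A : α} (hpS : p ∉ S) (hA : A ∈ S)
    {y : Fin 3 → ℝ} (hp : ∀ v ∈ S, 0 < co v (φ p)) (hy : ∀ v ∈ S, 0 < co v y)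
    (hmin : ∀ v ∈ S, v ≠ A → co A y * co v (φ p) < co v y * co A (φ p)) :
    y ∈ OC φ (insert p (S.erase A)) := by
  have hpA := hp A hA
  obtain ⟨t, ht⟩ : ∃ t : ℝ, t * co A (φ p) = co A y := ⟨co A y / co A (φ p), by field_simp⟩
  have ht0 : 0 < t := by
    have := hy A hA
    rw [← ht] at this
    exact (pos_iff_pos_of_mul_pos this).2 hpA
  obtain ⟨c, hcp, hc⟩ : ∃ c : α → ℝ, c p = t ∧ ∀ v, v ≠ p → c v = co v y - t * co v (φ p) :=
    ⟨fun v => if v = p then t else co v y - t * co v (φ p), by simp, fun v hv => by simp [hv]⟩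
  have hne : ∀ v ∈ S, v ≠ p := fun v hv h => hpS (h ▸ hv)
  refine ⟨c, ?_, ?_⟩
  · intro v hv
    rcases Finset.mem_insert.1 hv with rfl | hv
    · rw [hcp]; exact ht0
    · have hvS := Finset.mem_of_mem_erase hv
      rw [hc v (hne v hvS)]
      have h1 := hmin v hvS (Finset.ne_of_mem_erase hv)
      rw [← ht] at h1
      have h2 : t * co v (φ p) * co A (φ p) < co v y * co A (φ p) := by linarith
      have h3 := lt_of_mul_lt_mul_right h2 hpA.le
      linarith
  · rw [expand hA hpS (hco (φ p))]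
    conv_rhs => rw [← hco y]
    refine Finset.sum_congr rfl fun v hv => ?_
    congr 1
    rw [hcp]
    by_cases hvA : v = A
    · rw [if_pos hvA, hvA, ht, add_zero]
    · rw [if_neg hvA, hc v (hne v hv)]
      ring

end Coord

/-- the generic condition -/
theorem generic_ne {F : Finset (Pt s)} {π : Pt s → (Fin 3 → ℝ)} (hπ : Pj F π)
    {S : Finset (Pt s)} (hI : Ind π S) (hc : S.card = 3)
    {co : Pt s → ((Fin 3 → ℝ) →ₗ[ℝ] ℝ)} (hco : ∀ x, ∑ v ∈ S, co v x • π v = x)
    {p w A v : Pt s} (hA : A ∈ S) (hv : v ∈ S) (hAv : A ≠ v) (hw : co A (π w) ≠ 0)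
    (heq : co A (π w) * co v (π p) = co v (π w) * co A (π p)) :
    ∃ u ∈ S, p ∈ affineSpan ℝ ((F ∪ {w, u} : Finset (Pt s)) : Set (Pt s)) := by
  have h1 : ((S.erase A).erase v).card = 1 := by
    rw [Finset.card_erase_of_mem (Finset.mem_erase.2 ⟨Ne.symm hAv, hv⟩),
      Finset.card_erase_of_mem hA, hc]
  obtain ⟨u, hu⟩ := Finset.card_eq_one.1 h1
  have hu' : u ∈ (S.erase A).erase v := by rw [hu]; simp
  have hu1 := Finset.mem_erase.1 hu'
  have hu2 := Finset.mem_erase.1 hu1.2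
  refine ⟨u, hu2.2, ?_⟩
  by_cases hpw : p = w
  · exact subset_affineSpan ℝ _ (by simp [hpw])
  by_cases hpu : p = u
  · exact subset_affineSpan ℝ _ (by simp [hpu])
  have hwu : w ≠ u := by
    rintro rfl
    exact hw (coord_self hI hco hu2.2 hA (Ne.symm hu2.1))
  -- the relation
  have h2 : co A (π p) • π w - co A (π w) • π p =
      (co A (π p) * co u (π w) - co A (π w) * co u (π p)) • π u := by
    have e1 : co A (π p) • π w - co A (π w) • π p =
        ∑ x ∈ S, (co A (π p) * co x (π w) - co A (π w) * co x (π p)) • π x := by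
      simp only [sub_smul, Finset.sum_sub_distrib, mul_smul, ← Finset.smul_sum, hco]
    rw [e1, ← Finset.add_sum_erase S _ hA,
      ← Finset.add_sum_erase (S.erase A) _ (Finset.mem_erase.2 ⟨Ne.symm hAv, hv⟩), hu,
      Finset.sum_singleton]
    have e2 : co A (π p) * co A (π w) - co A (π w) * co A (π p) = 0 := by ring
    have e3 : co A (π p) * co v (π w) - co A (π w) * co v (π p) = 0 := by
      rw [heq]; ring
    rw [e2, e3, zero_smul, zero_smul, zero_add, zero_add]
  obtain ⟨c, hcp, hcw, hcu⟩ : ∃ c : Pt s → ℝ, c p = -co A (π w) ∧ c w = co A (π p) ∧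
      c u = -(co A (π p) * co u (π w) - co A (π w) * co u (π p)) :=
    ⟨fun x => if x = p then -co A (π w) else if x = w then co A (π p) else
      -(co A (π p) * co u (π w) - co A (π w) * co u (π p)), by simp, by simp [Ne.symm hpw],
      by simp [Ne.symm hpu, Ne.symm hwu]⟩
  have hpn : p ∉ ({w, u} : Finset (Pt s)) := by simp [hpw, hpu]
  have h3 : ∑ x ∈ ({p, w, u} : Finset (Pt s)), c x • π x = 0 := by
    rw [Finset.sum_insert hpn, Finset.sum_pair hwu, hcp, hcw, hcu, neg_smul, neg_smul, ← h2]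
    abel
  have h4 := hπ.mem_span h3 (u := p) (by simp) (by rw [hcp]; exact neg_ne_zero.2 hw)
  rwa [Finset.erase_insert hpn] at h4

/-- choosing a ray in finitely many cones (seen from different faces) at the same time -/
theorem stage {I : Finset (Pt s)} (F : Pt s → Finset (Pt s)) (π : Pt s → Pt s → (Fin 3 → ℝ))
    (S : Pt s → Finset (Pt s)) (E : Finset (Pt s)) (hπ : ∀ w ∈ I, Pj (F w) (π w))
    (hF : ∀ w ∈ I, (F w).card + 2 ≤ s) (hI : ∀ w ∈ I, Ind (π w) (S w))
    (hc : ∀ w ∈ I, (S w).card = 3) (ht : ∀ w ∈ I, π w w ∈ OC (π w) (S w)) {p0 : Pt s}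
    (hp0 : ∀ w ∈ I, π w p0 ∈ OC (π w) (S w)) (hs : 1 ≤ s)
    (hE : ∀ w ∈ I, ∀ e ∈ E, e ∈ S w ∧ ∃ c d : Pt s → ℝ, ∑ v ∈ S w, c v • π w v = π w w ∧
      ∑ v ∈ S w, d v • π w v = π w p0 ∧ ∃ v ∈ S w, c v * d e < c e * d v)
    {V : Set (Pt s)} (hV : IsOpen V) (hpV : p0 ∈ V) (Bad : Finset (Pt s)) :
    ∃ p ∈ V, p ∉ Bad ∧ ∀ w ∈ I, π w p ∈ OC (π w) (S w) ∧
      ∃ A ∈ S w, A ∉ E ∧ π w w ∈ OC (π w) (insert p ((S w).erase A)) := by
  have hex : ∀ w, ∃ co : Pt s → ((Fin 3 → ℝ) →ₗ[ℝ] ℝ), w ∈ I →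
      ∀ x, ∑ v ∈ S w, co v x • π w v = x := by
    intro w
    by_cases hw : w ∈ I
    · obtain ⟨co, hco⟩ := exists_coord (hI w hw) (hc w hw)
      exact ⟨co, fun _ => hco⟩
    · exact ⟨fun _ => 0, fun h => absurd h hw⟩
  choose co hco using hex
  have hcont : ∀ w ∈ I, ∀ v, Continuous fun p => co w v (π w p) := fun w hw v =>
    (LinearMap.continuous_of_finiteDimensional (co w v)).comp (hπ w hw).continuous
  have hev : ∀ᶠ p in nhds p0, p ∈ V ∧ ∀ w ∈ I, (∀ v ∈ S w, 0 < co w v (π w p)) ∧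
      ∀ e ∈ E, ∃ v ∈ S w, co w v (π w w) * co w e (π w p) < co w e (π w w) * co w v (π w p) := by
    refine Filter.Eventually.and (hV.mem_nhds hpV) ?_
    rw [Filter.eventually_all_finset]
    intro w hw
    refine Filter.Eventually.and ?_ ?_
    · rw [Filter.eventually_all_finset]
      intro v hv
      refine (hcont w hw v).continuousAt.eventually_const_lt ?_
      exact (mem_OC_iff (hI w hw) (hco w hw)).1 (hp0 w hw) v hv
    · rw [Filter.eventually_all_finset]
      intro e he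
      obtain ⟨heS, c, d, hc1, hd1, v, hv, hlt⟩ := hE w hw e he
      have k1 := coord_uniq (hI w hw) (hco w hw) hc1
      have k2 := coord_uniq (hI w hw) (hco w hw) hd1
      have hlt' : co w v (π w w) * co w e (π w p0) < co w e (π w w) * co w v (π w p0) := by
        rw [k1 v hv, k1 e heS, k2 v hv, k2 e heS]
        exact hlt
      have c1 : ContinuousAt (fun p => co w v (π w w) * co w e (π w p)) p0 :=
        (continuous_const.mul (hcont w hw e)).continuousAt
      have c2 : ContinuousAt (fun p => co w e (π w w) * co w v (π w p)) p0 :=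
        (continuous_const.mul (hcont w hw v)).continuousAt
      exact (c1.eventually_lt c2 hlt').mono fun p hp => ⟨v, hv, hp⟩
  obtain ⟨W, hWs, hWo, hpW⟩ := eventually_nhds_iff.1 hev
  let 𝒜 : Finset (Finset (Pt s)) :=
    (I.biUnion fun w => (S w).image fun u => F w ∪ {w, u}) ∪ Bad.image fun x => {x}
  obtain ⟨p, hpW', -, hp⟩ := exists_generic hWo ⟨_, hpW⟩
    (one_ne_zero (α := MvPolynomial (Fin s) ℝ)) 𝒜 (by
      intro A hA
      rcases Finset.mem_union.1 hA with hA | hA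
      · obtain ⟨w, hw, hA⟩ := Finset.mem_biUnion.1 hA
        obtain ⟨u, -, rfl⟩ := Finset.mem_image.1 hA
        have h1 := Finset.card_union_le (F w) {w, u}
        have h2 := Finset.card_le_two (a := w) (b := u)
        have h3 := hF w hw
        omega
      · obtain ⟨x, -, rfl⟩ := Finset.mem_image.1 hA
        rw [Finset.card_singleton]; exact hs)
  obtain ⟨hpV', hpw⟩ := hWs p hpW'
  refine ⟨p, hpV', ?_, ?_⟩
  · intro hpB
    refine hp {p} (Finset.mem_union_right _ (Finset.mem_image.2 ⟨p, hpB, rfl⟩)) ?_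
    exact subset_affineSpan ℝ _ (by simp)
  · intro w hw
    obtain ⟨h1, h2⟩ := hpw w hw
    have hOC : π w p ∈ OC (π w) (S w) := (mem_OC_iff (hI w hw) (hco w hw)).2 h1
    refine ⟨hOC, ?_⟩
    have hy := (mem_OC_iff (hI w hw) (hco w hw)).1 (ht w hw)
    obtain ⟨A, hA, hmin⟩ := Finset.exists_min_image (S w)
      (fun v => co w v (π w w) / co w v (π w p))
      (by rw [← Finset.card_pos, hc w hw]; omega)
    have hle : ∀ v ∈ S w, co w A (π w w) * co w v (π w p) ≤
        co w v (π w w) * co w A (π w p) := by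
      intro v hv
      have := hmin v hv
      rwa [div_le_div_iff₀ (h1 A hA) (h1 v hv)] at this
    have hlt : ∀ v ∈ S w, v ≠ A → co w A (π w w) * co w v (π w p) <
        co w v (π w w) * co w A (π w p) := by
      intro v hv hvA
      refine lt_of_le_of_ne (hle v hv) fun heq => ?_
      obtain ⟨u, hu, hpu⟩ := generic_ne (hπ w hw) (hI w hw) (hc w hw) (hco w hw) hA hv
        (Ne.symm hvA) (hy A hA).ne' heq
      refine hp _ (Finset.mem_union_left _ (Finset.mem_biUnion.2 ⟨w, hw,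
        Finset.mem_image.2 ⟨u, hu, rfl⟩⟩)) hpu
    refine ⟨A, hA, ?_, ?_⟩
    · intro hAE
      obtain ⟨v, hv, hlt'⟩ := h2 A hAE
      have := hle v hv
      linarith
    · exact reloc (hco w hw) (not_mem_of_OC (hI w hw) (by rw [hc w hw]; omega) hOC) hA h1 hy hlt

end Pool.Agent.ELB
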