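import Pool.Agent.ELB.FarStep
import Pool.Agent.ELB.Rig

/-!
# Closed thickening
-/

namespace Pool.Agent.ELB

open MvPolynomial Pool.Agent.H84Exp Pool.Agent.H84Spl

variable {s : ℕ}

theorem Pj.func {F : Finset (Pt s)} {π : Pt s → (Fin 3 → ℝ)} (hπ : Pj F π)
    {g : Pt s →L[ℝ] ℝ} {c : ℝ} (hg : ∀ x ∈ F, g x = c) {w w' : Pt s} {κ : ℝ}
    (h : π w' = κ • π w) : g w' - c = κ * (g w - c) := by
  obtain ⟨L, f0, hf0, -, hk, hL⟩ := hπ
  have h1 : (w' - f0) - κ • (w - f0) ∈ vectorSpan ℝ (F : Set (Pt s)) := by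
    rw [← hk, LinearMap.mem_ker, map_sub, map_smul, map_sub, map_sub, ← hL, ← hL, h, sub_self]
  have h2 : vectorSpan ℝ (F : Set (Pt s)) ≤ LinearMap.ker (g : Pt s →ₗ[ℝ] ℝ) := by
    rw [vectorSpan_def, Submodule.span_le]
    rintro _ ⟨x, hx, y, hy, rfl⟩
    simp only [SetLike.mem_coe, LinearMap.mem_ker, vsub_eq_sub, map_sub]
    have e1 : g x = c := hg x hx
    have e2 : g y = c := hg y hy
    show g x - g y = 0
    rw [e1, e2, sub_self]
  have h3 := h2 h1
  rw [LinearMap.mem_ker] at h3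
  have h4 : g ((w' - f0) - κ • (w - f0)) = 0 := h3
  rw [map_sub, map_smul, map_sub, map_sub, hg f0 hf0, smul_eq_mul] at h4
  linarith

theorem base_data (K : GC s) {F : Finset (Pt s)} (hne : F.Nonempty) (hcard : F.card + 2 = s)
    (W : Finset (Pt s)) (hWne : W.Nonempty) (hW : ∀ w ∈ W, w ∉ F ∧ K.Fc (insert w F))
    (Bad : Finset (Pt s)) :
    ∃ (π : Pt s → (Fin 3 → ℝ)) (M : Finset (Finset (Pt s))) (f : Pt s → Finset (Pt s)),
      Pj F π ∧ Ap π M ∧ (∀ S ∈ M, ∀ x ∈ S, x ∉ Bad) ∧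
      Set.InjOn f (W : Set (Pt s)) ∧ ∀ w ∈ W, f w ∈ M ∧ π w ∈ OC π (f w) := by
  obtain ⟨w0, hw0⟩ := hWne
  have hFF : K.Fc F := by
    obtain ⟨H, hH, hsub⟩ := (hW w0 hw0).2
    exact ⟨H, hH, (Finset.subset_insert _ _).trans hsub⟩
  obtain ⟨π, hπ⟩ := exists_pj (K.fc_indep hFF) hne hcard
  obtain ⟨M, hM, hMB, f, hinj, hf⟩ := iso (by omega) hπ W (by
    intro w hw h0
    obtain ⟨g, c, h1, h2, -⟩ := sep (insert w F) F (K.fc_indep (hW w hw).2) (K.fc_indep hFF)
      (K.fc_inter (hW w hw).2 hFF)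
    have h3 := hπ.func (g := g) (c := c) (fun x hx => h1 x (Finset.mem_insert_of_mem hx) hx)
      (w := w) (w' := w) (κ := 0) (by rw [h0, smul_zero])
    have h4 := h2 w (Finset.mem_insert_self _ _) (hW w hw).1
    rw [zero_mul] at h3
    linarith) (by
    intro w hw w' hw' hww κ hκ h
    obtain ⟨g, c, h1, h2, h3⟩ := sep (insert w F) (insert w' F) (K.fc_indep (hW w hw).2)
      (K.fc_indep (hW w' hw').2) (K.fc_inter (hW w hw).2 (hW w' hw').2)
    have h4 := hπ.func (g := g) (c := c) (fun x hx => h1 x (Finset.mem_insert_of_mem hx)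
      (Finset.mem_insert_of_mem hx)) h
    have h5 := h2 w (Finset.mem_insert_self _ _) (by
      simp only [Finset.mem_insert, not_or]
      exact ⟨hww, (hW w hw).1⟩)
    have h6 := h3 w' (Finset.mem_insert_self _ _) (by
      simp only [Finset.mem_insert, not_or]
      exact ⟨Ne.symm hww, (hW w' hw').1⟩)
    have h7 : 0 < κ * (g w - c) := mul_pos hκ (by linarith)
    linarith) Bad
  exact ⟨π, M, f, hπ, hM, hMB, hinj, hf⟩

/-- the faces containing `F` are the faces of the cells of a realised stacked fan -/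
def FanAt (K : GC s) (F : Finset (Pt s)) : Prop :=
  ∃ π, Pj F π ∧ ∃ (M : Finset (Finset (Pt s))) (pos : Pt s → Pt s),
    Ap (fun x => π (pos x)) M ∧ (∀ S ∈ M, F ∪ S.image pos ∈ K.faces) ∧
    ∀ H ∈ K.faces, F ⊆ H → ∃ S ∈ M, H ⊆ F ∪ S.image pos

theorem srig_of_fan {r e : ℕ} (he : 2 * e + 1 ≤ r) {K : GC s} {T : Triang s}
    (hT : ∀ σ, σ ∈ T.cells ↔ σ ∈ K.faces ∧ σ.card = s + 1) {F : Finset (Pt s)}
    (hFi : AffineIndependent ℝ (fun v : F => (v : Pt s))) (hne : F.Nonempty)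
    (hcard : F.card + 2 = s) (h : FanAt K F) : SRig T r (r + 1 + e) F := by
  obtain ⟨π, hπ, M, pos, hM, h1, h2⟩ := h
  obtain ⟨hc1, -⟩ := fan_cells hFi hπ hM
  have hcell : ∀ S ∈ M, F ∪ S.image pos ∈ T.cells := fun S hS =>
    (hT _).2 ⟨h1 S hS, by rw [(hc1 S hS).2]; omega⟩
  have hrep : ∀ σ ∈ T.cells, F ⊆ σ → ∃ S ∈ M, σ = F ∪ S.image pos := by
    intro σ hσ hFσ
    obtain ⟨hσK, hσc⟩ := (hT σ).1 hσ
    obtain ⟨S, hS, hsub⟩ := h2 σ hσK hFσ
    exact ⟨S, hS, Finset.eq_of_subset_of_card_le hsub (by rw [(hc1 S hS).2]; omega)⟩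
  obtain ⟨f0, hf0⟩ := hne
  intro k f P hP L hLF hlen σ hσ τ hτ hFσ hFτ
  obtain ⟨S, hS, rfl⟩ := hrep σ hσ hFσ
  obtain ⟨S', hS', rfl⟩ := hrep τ hτ hFτ
  refine ap_rigid he hFi hcard hf0 hπ hM (fun S => Bc k L (P (F ∪ S.image pos))) ?_ ?_ S hS S' hS'
  · intro S hS
    have h3 := totalDegree_Bc_le L (hP.1 _ (hcell S hS)).1
    omega
  · intro S hS S' hS'
    have hK : Convex ℝ (convexHull ℝ ((F ∪ S.image pos : Finset (Pt s)) : Set (Pt s)) ∩
        convexHull ℝ ((F ∪ S'.image pos : Finset (Pt s)) : Set (Pt s))) :=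
      (convex_convexHull ℝ _).inter (convex_convexHull ℝ _)
    have h3 := VO_Bc (k := k) (L := L) hK (fun u hu =>
      ⟨subset_convexHull ℝ _ (Finset.mem_coe.2 (Finset.mem_union_left _ (hLF u hu))),
        subset_convexHull ℝ _ (Finset.mem_coe.2 (Finset.mem_union_left _ (hLF u hu)))⟩)
      (hP.2 _ (hcell S hS) _ (hcell S' hS'))
    rw [Bc_sub] at h3
    refine VO_mono le_rfl ?_ h3
    refine Set.subset_inter (convexHull_mono (Finset.coe_subset.2 ?_))
      (convexHull_mono (Finset.coe_subset.2 ?_))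
    · exact Finset.union_subset_union_right (Finset.image_subset_image Finset.inter_subset_left)
    · exact Finset.union_subset_union_right (Finset.image_subset_image Finset.inter_subset_right)

theorem Tri_sub {w a b c x : Pt s} {T : Finset (Pt s)} (hT : T ∈ Tri w a b c) (hx : x ∈ T) :
    x = w ∨ x = a ∨ x = b ∨ x = c := by
  rcases mem_Tri.1 hT with h | h | h
  · rw [h] at hx
    simp only [Finset.mem_insert, Finset.mem_singleton] at hx
    rcases hx with h | h | h
    · exact Or.inl h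
    · exact Or.inr (Or.inl h)
    · exact Or.inr (Or.inr (Or.inl h))
  · rw [h] at hx
    simp only [Finset.mem_insert, Finset.mem_singleton] at hx
    rcases hx with h | h | h
    · exact Or.inl h
    · exact Or.inr (Or.inr (Or.inl h))
    · exact Or.inr (Or.inr (Or.inr h))
  · rw [h] at hx
    simp only [Finset.mem_insert, Finset.mem_singleton] at hx
    rcases hx with h | h | h
    · exact Or.inl h
    · exact Or.inr (Or.inr (Or.inr h))
    · exact Or.inr (Or.inl h)

theorem closed_thick (hs : 3 ≤ s) {r e : ℕ} (he : 2 * e + 1 ≤ r) (K : GC s)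
    (hK : ∀ G ∈ K.faces, G.card + 1 ≤ s) (𝒰 : Set (Set (Pt s)))
    (h𝒰 : ∀ U ∈ 𝒰, IsOpen U ∧ Convex ℝ U)
    (hcov : ∀ H ∈ K.faces, ∃ U ∈ 𝒰, (H : Set (Pt s)) ⊆ U) :
    ∃ T : Triang s, (∀ G, K.Fc G → G.card + 1 = s → Face T G) ∧
      (∀ F : Finset (Pt s), F.card + 2 = s → (∃ w, w ∉ F ∧ K.Fc (insert w F)) →
        SRig T r (r + 1 + e) F) ∧
      ∀ σ ∈ T.cells, ∃ U ∈ 𝒰, (σ : Set (Pt s)) ⊆ U := by
  -- faces of dimension `s - 2`, their facets
  obtain ⟨𝒢, h𝒢⟩ : ∃ 𝒢 : Finset (Finset (Pt s)), ∀ G, G ∈ 𝒢 ↔ G ∈ K.faces ∧ G.card + 1 = s :=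
    ⟨K.faces.filter fun G => G.card + 1 = s, fun G => by rw [Finset.mem_filter]⟩
  obtain ⟨𝒱, h𝒱⟩ : ∃ 𝒱 : Finset (Pt s), ∀ x, x ∈ 𝒱 ↔ ∃ H ∈ K.faces, x ∈ H :=
    ⟨K.faces.biUnion id, fun x => by simp⟩
  obtain ⟨W, hW⟩ : ∃ W : Finset (Pt s) → Finset (Pt s), ∀ F w, w ∈ W F ↔
      w ∉ F ∧ insert w F ∈ 𝒢 := by
    refine ⟨fun F => 𝒱.filter fun w => w ∉ F ∧ insert w F ∈ 𝒢, fun F w => ?_⟩
    rw [Finset.mem_filter]
    constructor
    · exact fun h => h.2
    · intro h
      exact ⟨(h𝒱 w).2 ⟨_, ((h𝒢 _).1 h.2).1, Finset.mem_insert_self _ _⟩, h⟩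
  obtain ⟨ℱ, hℱ⟩ : ∃ ℱ : Finset (Finset (Pt s)), ∀ F, F ∈ ℱ ↔ (W F).Nonempty := by
    refine ⟨𝒢.biUnion fun G => G.image fun w => G.erase w, fun F => ?_⟩
    simp only [Finset.mem_biUnion, Finset.mem_image]
    constructor
    · rintro ⟨G, hG, w, hw, rfl⟩
      exact ⟨w, (hW _ _).2 ⟨Finset.notMem_erase _ _, by rwa [Finset.insert_erase hw]⟩⟩
    · rintro ⟨w, hw⟩
      obtain ⟨h1, h2⟩ := (hW _ _).1 hw
      exact ⟨_, h2, w, Finset.mem_insert_self _ _, Finset.erase_insert h1⟩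
  have hFcard : ∀ F ∈ ℱ, F.card + 2 = s := by
    intro F hF
    obtain ⟨w, hw⟩ := (hℱ F).1 hF
    obtain ⟨h1, h2⟩ := (hW _ _).1 hw
    have h3 := ((h𝒢 _).1 h2).2
    rw [Finset.card_insert_of_notMem h1] at h3
    omega
  have hFne : ∀ F ∈ ℱ, F.Nonempty := by
    intro F hF
    rw [← Finset.card_pos]
    have := hFcard F hF
    omega
  have hF𝒱 : ∀ F ∈ ℱ, F ⊆ 𝒱 := by
    intro F hF x hx
    obtain ⟨w, hw⟩ := (hℱ F).1 hF
    exact (h𝒱 x).2 ⟨_, ((h𝒢 _).1 ((hW _ _).1 hw).2).1, Finset.mem_insert_of_mem hx⟩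
  have hKF : ∀ F ∈ ℱ, K.Fc F := by
    intro F hF
    obtain ⟨w, hw⟩ := (hℱ F).1 hF
    exact ⟨_, ((h𝒢 _).1 ((hW _ _).1 hw).2).1, Finset.subset_insert _ _⟩
  -- the isolating fans
  have hex : ∀ F, ∃ (π : Pt s → (Fin 3 → ℝ)) (M : Finset (Finset (Pt s)))
      (f : Pt s → Finset (Pt s)), F ∈ ℱ → Pj F π ∧ Ap π M ∧ (∀ S ∈ M, ∀ x ∈ S, x ∉ 𝒱) ∧
      Set.InjOn f (W F : Set (Pt s)) ∧ ∀ w ∈ W F, f w ∈ M ∧ π w ∈ OC π (f w) := by
    intro F
    by_cases hF : F ∈ ℱ
    · obtain ⟨π, M, f, h⟩ := base_data K (hFne F hF) (hFcard F hF) (W F) ((hℱ F).1 hF)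
        (fun w hw => ⟨((hW _ _).1 hw).1, _, ((h𝒢 _).1 ((hW _ _).1 hw).2).1, subset_rfl⟩) 𝒱
      exact ⟨π, M, f, fun _ => h⟩
    · exact ⟨fun _ => 0, ∅, fun _ => ∅, fun h => absurd h hF⟩
  choose π M f hdat using hex
  obtain ⟨Bad, hBad⟩ : ∃ Bad : Finset (Pt s), ∀ x, x ∈ Bad ↔ x ∈ 𝒱 ∨ ∃ F ∈ ℱ, ∃ S ∈ M F, x ∈ S :=
    ⟨𝒱 ∪ ℱ.biUnion fun F => (M F).biUnion id, fun x => by simp⟩
  -- the far labels
  have herase : ∀ G ∈ 𝒢, ∀ w ∈ G, G.erase w ∈ ℱ ∧ w ∈ W (G.erase w) := by
    intro G hG w hw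
    have h1 : w ∈ W (G.erase w) := (hW _ _).2 ⟨Finset.notMem_erase _ _, by
      rwa [Finset.insert_erase hw]⟩
    exact ⟨(hℱ _).2 ⟨w, h1⟩, h1⟩
  obtain ⟨K1, α, β, γ, hKK1, hK1, hNG, hbad, hseq, hcov1⟩ := far_all K hK (by omega) π f 𝒢
    (fun G hG => (h𝒢 G).1 hG) (by
      intro G hG w hw
      obtain ⟨h1, h2⟩ := herase G hG w hw
      obtain ⟨d1, d2, -, -, d5⟩ := hdat _ h1
      exact ⟨d1, d2.ind (d5 w h2).1, d2.card (d5 w h2).1, (d5 w h2).2⟩) 𝒰 h𝒰 hcov Bad (by
      intro G hG x hx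
      exact (hBad x).2 (Or.inl ((h𝒱 x).2 ⟨G, hG, hx⟩))) 𝒢 subset_rfl
  -- filling
  have hfill : ∀ ℱ' : Finset (Finset (Pt s)), ℱ' ⊆ ℱ → ∃ K2 : GC s, K1.faces ⊆ K2.faces ∧
      (∀ F ∈ ℱ', FanAt K2 F) ∧
      (∀ H ∈ K2.faces, H ∉ K1.faces → ∀ F ∈ ℱ, F ∉ ℱ' → ¬ F ⊆ H) ∧
      ∀ H ∈ K2.faces, ∃ U ∈ 𝒰, (H : Set (Pt s)) ⊆ U := by
    intro ℱ'
    induction ℱ' using Finset.induction_on with
    | empty =>
      intro _
      exact ⟨K1, subset_rfl, by simp, fun H h1 h2 => absurd h1 h2, hcov1⟩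
    | insert F ℱ' hFℱ' ih =>
      intro hsub
      obtain ⟨K2, hK12, hfan, hold, hcov2⟩ := ih ((Finset.subset_insert _ _).trans hsub)
      have hF : F ∈ ℱ := hsub (Finset.mem_insert_self _ _)
      obtain ⟨d1, d2, d3, d4, d5⟩ := hdat F hF
      obtain ⟨Far, hFar⟩ : ∃ Far : Finset (Pt s), ∀ x, x ∈ Far ↔ x ∈ W F ∨ ∃ w ∈ W F,
          (x = α (insert w F) ∨ x = β (insert w F) ∨ x = γ (insert w F)) := by
        refine ⟨W F ∪ (W F).biUnion fun w => {α (insert w F), β (insert w F), γ (insert w F)},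
          fun x => ?_⟩
        simp only [Finset.mem_union, Finset.mem_biUnion, Finset.mem_insert,
          Finset.mem_singleton]
      have hW𝒱 : ∀ w ∈ W F, w ∈ 𝒱 := fun w hw =>
        (h𝒱 w).2 ⟨_, ((h𝒢 _).1 ((hW _ _).1 hw).2).1, Finset.mem_insert_self _ _⟩
      have hW𝒢 : ∀ w ∈ W F, insert w F ∈ 𝒢 := fun w hw => ((hW _ _).1 hw).2
      have hWF : ∀ w ∈ W F, (insert w F).erase w = F := fun w hw =>
        Finset.erase_insert ((hW _ _).1 hw).1
      obtain ⟨M', hM', P1, P2, P3⟩ := asm d2 (W F) (f F) (fun w => α (insert w F))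
        (fun w => β (insert w F)) (fun w => γ (insert w F)) d4 (fun w hw => (d5 w hw).1)
        (by
          intro w hw
          have h1 := hseq _ (hW𝒢 w hw) w (Finset.mem_insert_self _ _)
          rw [hWF w hw] at h1
          exact h1) Far (by
          intro S hS x hx hxF
          rcases (hFar x).1 hxF with h | ⟨w, hw, h⟩
          · exact d3 S hS x hx (hW𝒱 x h)
          · have hxB : x ∈ Bad := (hBad x).2 (Or.inr ⟨F, hF, S, hS, hx⟩)
            obtain ⟨b1, b2, b3⟩ := hbad _ (hW𝒢 w hw)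
            rcases h with h | h | h
            · exact b1 (h ▸ hxB)
            · exact b2 (h ▸ hxB)
            · exact b3 (h ▸ hxB)) (fun w hw => (hFar w).2 (Or.inl hw))
      have hTriFar : ∀ w ∈ W F, ∀ T ∈ Tri w (α (insert w F)) (β (insert w F)) (γ (insert w F)),
          T ⊆ Far := by
        intro w hw T hT x hx
        rw [hFar]
        rcases Tri_sub hT hx with h | h
        · exact Or.inl (h ▸ hw)
        · exact Or.inr ⟨w, hw, h⟩
      have hTriK : ∀ w ∈ W F, ∀ T ∈ Tri w (α (insert w F)) (β (insert w F)) (γ (insert w F)),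
          F ∪ T ∈ K1.faces := by
        intro w hw T hT
        refine hNG _ (hW𝒢 w hw) ((NG_Tri (Finset.mem_insert_self w F)).2 ⟨T, hT, ?_⟩)
        rw [hWF w hw]
      have hof : ∀ H ∈ K2.faces, F ⊆ H → ∃ S ∈ M', H ⊆ F ∪ (S ∩ Far) := by
        intro H hH hFH
        have hH1 : H ∈ K1.faces := by
          by_contra hcon
          exact hold H hH hcon F hF hFℱ' hFH
        rcases hK1 H hH1 with hHK | ⟨G, hG, hHG⟩
        · by_cases hHF : H ⊆ F
          · obtain ⟨S, hS⟩ := hM'.nonempty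
            exact ⟨S, hS, hHF.trans Finset.subset_union_left⟩
          · obtain ⟨w, hwH, hwF⟩ := Finset.not_subset.1 hHF
            have hins : insert w F = H := by
              refine Finset.eq_of_subset_of_card_le (Finset.insert_subset hwH hFH) ?_
              rw [Finset.card_insert_of_notMem hwF]
              have := hFcard F hF
              have := hK H hHK
              omega
            have hwW : w ∈ W F := (hW _ _).2 ⟨hwF, (h𝒢 _).2 ⟨by rw [hins]; exact hHK, by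
              rw [Finset.card_insert_of_notMem hwF]
              have := hFcard F hF
              omega⟩⟩
            refine ⟨_, P2 w hwW _ (mem_Tri.2 (Or.inl rfl)), ?_⟩
            rw [← hins]
            refine Finset.insert_subset (Finset.mem_union_right _ (Finset.mem_inter.2
              ⟨Finset.mem_insert_self _ _, (hFar w).2 (Or.inl hwW)⟩)) Finset.subset_union_left
        · have hFG : F ⊆ G := by
            intro x hx
            have hxB : x ∈ Bad := (hBad x).2 (Or.inl (hF𝒱 F hF hx))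
            obtain ⟨b1, b2, b3⟩ := hbad G hG
            have hx' := (NG_sub hHG).2 (hFH hx)
            simp only [Finset.mem_union, Finset.mem_insert, Finset.mem_singleton] at hx'
            rcases hx' with h | h | h | h
            · exact h
            · exact absurd (h ▸ hxB) b1
            · exact absurd (h ▸ hxB) b2
            · exact absurd (h ▸ hxB) b3
          have hGc := ((h𝒢 G).1 hG).2
          have hFc := hFcard F hF
          obtain ⟨w, hwG, hwF⟩ : ∃ w ∈ G, w ∉ F := by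
            by_contra hcon
            push Not at hcon
            have := Finset.card_le_card (show G ⊆ F from hcon)
            omega
          have hins : insert w F = G := by
            refine Finset.eq_of_subset_of_card_le (Finset.insert_subset hwG hFG) ?_
            rw [Finset.card_insert_of_notMem hwF]
            omega
          have hwW : w ∈ W F := (hW _ _).2 ⟨hwF, by rw [hins]; exact hG⟩
          obtain ⟨T, hT, hHT⟩ := (NG_Tri hwG).1 hHG
          have hGF : G.erase w = F := by rw [← hins]; exact hWF w hwW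
          rw [← hins] at hT
          refine ⟨T, P2 w hwW T hT, ?_⟩
          rw [hHT, hGF, Finset.inter_eq_left.2 (hTriFar w hwW T hT)]
      have hKKF : ∀ S ∈ M', K2.Fc (F ∪ (S ∩ Far)) := by
        intro S hS
        rcases P1 S hS with h | ⟨w, hw, T, hT, hsubT⟩
        · rw [h, Finset.union_empty]
          exact GC.fc_mono (hKK1.trans hK12) (hKF F hF)
        · exact ⟨_, hK12 (hTriK w hw T hT), Finset.union_subset_union_right hsubT⟩
      obtain ⟨pos, K3, hAp, hpos1, hpos2, hK3, hcov3⟩ := fill_step K2 (hFne F hF)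
        (K.fc_indep (hKF F hF)) d1 hM' Far 𝒱 hKKF hof 𝒰 h𝒰 hcov2
      have hfar_sub : ∀ S, F ∪ (S ∩ Far) ⊆ F ∪ S.image pos := by
        intro S x hx
        rcases Finset.mem_union.1 hx with hx | hx
        · exact Finset.mem_union_left _ hx
        · obtain ⟨h1, h2⟩ := Finset.mem_inter.1 hx
          exact Finset.mem_union_right _ (Finset.mem_image.2 ⟨x, h1, hpos1 x h2⟩)
      -- new faces containing another base face are old
      have hnew : ∀ F1 ∈ ℱ, F1 ≠ F → ∀ H ∈ M'.image (fun S => F ∪ S.image pos), F1 ⊆ H →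
          H ∈ K1.faces := by
        intro F1 hF1 hne H hH hsub1
        obtain ⟨S, hS, rfl⟩ := Finset.mem_image.1 hH
        have hn : ¬ F1 ⊆ F := fun h => hne (Finset.eq_of_subset_of_card_le h (by
          have := hFcard F hF
          have := hFcard F1 hF1
          omega))
        obtain ⟨x, hx1, hxF⟩ := Finset.not_subset.1 hn
        have hx𝒱 := hF𝒱 F1 hF1 hx1
        have hxS := (Finset.mem_union.1 (hsub1 hx1)).resolve_left hxF
        obtain ⟨y, hyS, hyx⟩ := Finset.mem_image.1 hxS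
        have hyFar : y ∈ Far := by
          by_contra hcon
          exact hpos2 S hS y hyS hcon (by rw [hyx]; exact hx𝒱)
        have hyx' : y = x := by rw [← hyx, hpos1 y hyFar]
        have hyW : y ∈ W F := by
          rcases (hFar y).1 hyFar with h | ⟨w, hw, h⟩
          · exact h
          · exfalso
            have hyB : y ∈ Bad := (hBad y).2 (Or.inl (by rw [hyx']; exact hx𝒱))
            obtain ⟨b1, b2, b3⟩ := hbad _ (hW𝒢 w hw)
            rcases h with h | h | h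
            · exact b1 (h ▸ hyB)
            · exact b2 (h ▸ hyB)
            · exact b3 (h ▸ hyB)
        have hST := P3 y hyW S hS hyS
        have himg : S.image pos = S := by
          ext z
          rw [Finset.mem_image]
          constructor
          · rintro ⟨u, hu, rfl⟩
            rw [hpos1 u (hTriFar y hyW S hST hu)]
            exact hu
          · intro hz
            exact ⟨z, hz, hpos1 z (hTriFar y hyW S hST hz)⟩
        rw [himg]
        exact hTriK y hyW S hST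
      refine ⟨K3, ?_, ?_, ?_, ?_⟩
      · rw [hK3]; exact hK12.trans Finset.subset_union_left
      · intro F1 hF1
        by_cases hF1F : F1 = F
        · rw [hF1F]
          refine ⟨π F, d1, M', pos, hAp, ?_, ?_⟩
          · intro S hS
            rw [hK3]
            exact Finset.mem_union_right _ (Finset.mem_image_of_mem _ hS)
          · intro H hH hFH
            rw [hK3] at hH
            rcases Finset.mem_union.1 hH with hH | hH
            · obtain ⟨S, hS, hHS⟩ := hof H hH hFH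
              exact ⟨S, hS, hHS.trans (hfar_sub S)⟩
            · obtain ⟨S, hS, rfl⟩ := Finset.mem_image.1 hH
              exact ⟨S, hS, subset_rfl⟩
        · have hF1' : F1 ∈ ℱ' := (Finset.mem_insert.1 hF1).resolve_left hF1F
          have hF1ℱ : F1 ∈ ℱ := hsub hF1
          obtain ⟨π1, q1, M1, pos1, q2, q3, q4⟩ := hfan F1 hF1'
          refine ⟨π1, q1, M1, pos1, q2, fun S hS => ?_, fun H hH hFH => ?_⟩
          · rw [hK3]; exact Finset.mem_union_left _ (q3 S hS)
          · rw [hK3] at hH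
            rcases Finset.mem_union.1 hH with hH | hH
            · exact q4 H hH hFH
            · exact q4 H (hK12 (hnew F1 hF1ℱ hF1F H hH hFH)) hFH
      · intro H hH hHK1 F1 hF1 hF1n hF1H
        have hF1F : F1 ≠ F := fun h => hF1n (h ▸ Finset.mem_insert_self _ _)
        rw [hK3] at hH
        rcases Finset.mem_union.1 hH with hH | hH
        · exact hold H hH hHK1 F1 hF1 (fun h => hF1n (Finset.mem_insert_of_mem h)) hF1H
        · exact hHK1 (hnew F1 hF1 hF1F H hH hF1H)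
      · intro H hH
        rw [hK3] at hH
        rcases Finset.mem_union.1 hH with hH | hH
        · exact hcov2 H hH
        · obtain ⟨S, hS, rfl⟩ := Finset.mem_image.1 hH
          exact hcov3 S hS
  obtain ⟨K2, hK12, hfan, -, hcov2⟩ := hfill ℱ subset_rfl
  -- the triangulation
  let T : Triang s :=
    { cells := K2.faces.filter fun σ => σ.card = s + 1
      card_eq := fun σ hσ => (Finset.mem_filter.1 hσ).2
      indep := fun σ hσ => K2.indep σ (Finset.mem_filter.1 hσ).1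
      inter := fun σ hσ τ hτ => K2.inter σ (Finset.mem_filter.1 hσ).1 τ
        (Finset.mem_filter.1 hτ).1 }
  have hT : ∀ σ, σ ∈ T.cells ↔ σ ∈ K2.faces ∧ σ.card = s + 1 := fun σ => Finset.mem_filter
  refine ⟨T, ?_, ?_, ?_⟩
  · rintro G ⟨H, hH, hGH⟩ hGc
    have hGH' : G = H := Finset.eq_of_subset_of_card_le hGH (by have := hK H hH; omega)
    have hG𝒢 : G ∈ 𝒢 := (h𝒢 G).2 ⟨by rw [hGH']; exact hH, hGc⟩
    obtain ⟨w, hw⟩ : G.Nonempty := by rw [← Finset.card_pos]; omega
    obtain ⟨h1, -⟩ := herase G hG𝒢 w hw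
    obtain ⟨π1, q1, M1, pos1, q2, q3, q4⟩ := hfan _ h1
    obtain ⟨S, hS, hGS⟩ := q4 G (hK12 (hKK1 (by rw [hGH']; exact hH))) (Finset.erase_subset _ _)
    refine ⟨_, (hT _).2 ⟨q3 S hS, ?_⟩, hGS⟩
    have h5 := ((fan_cells (K.fc_indep (hKF _ h1)) q1 q2).1 S hS).2
    have h6 := hFcard _ h1
    omega
  · rintro F hFc ⟨w, hwF, H, hH, hsub⟩
    have hins : insert w F = H := Finset.eq_of_subset_of_card_le hsub (by
      have := hK H hH
      rw [Finset.card_insert_of_notMem hwF]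
      omega)
    have hwW : w ∈ W F := (hW _ _).2 ⟨hwF, (h𝒢 _).2 ⟨by rw [hins]; exact hH, by
      rw [Finset.card_insert_of_notMem hwF]; omega⟩⟩
    have hF : F ∈ ℱ := (hℱ F).2 ⟨w, hwW⟩
    exact srig_of_fan he hT (K.fc_indep (hKF F hF)) (hFne F hF) hFc (hfan F hF)
  · intro σ hσ
    exact hcov2 σ ((hT σ).1 hσ).1

end Pool.Agent.ELB
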